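import Mathlib

set_option linter.unusedSectionVars false

namespace Pool.Agent.MP_993212_an.H12

open scoped NumberTheorySymbols

theorem jac_dvd {a : ℕ} (ha : 0 < a) (x : ℕ) (hx : x ∣ a) : J((x : ℤ) | 8 * a - 1) = 1 := by
  have hm : (8 * a - 1) % 8 = 7 := by omega
  have hodd : Odd (8 * a - 1) := Nat.odd_iff.2 (by omega)
  induction x using induction_on_primes with
  | zero => simp at hx; omega
  | one => simp [jacobiSym.one_left]
  | prime_mul q x hq ih =>
    rw [Nat.cast_mul, jacobiSym.mul_left, ih (Dvd.dvd.trans (Dvd.intro_left _ rfl) hx), mul_one]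
    have hqa : q ∣ a := Dvd.dvd.trans (Dvd.intro _ rfl) hx
    rcases hq.eq_two_or_odd' with rfl | hqo
    · rw [Nat.cast_ofNat, jacobiSym.at_two hodd, ZMod.χ₈_nat_eq_if_mod_eight]
      simp [hm]; omega
    · have h1 : J(((8 * a - 1 : ℕ) : ℤ) | q) = J(-1 | q) := by
        apply jacobiSym.mod_left'
        obtain ⟨c, rfl⟩ := hqa
        rw [Nat.cast_sub (by omega)]
        push_cast
        rw [show (8 : ℤ) * (q * c) - 1 = -1 + q * (8 * c) by ring, Int.add_mul_emod_self_left]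
      rw [jacobiSym.at_neg_one hqo] at h1
      have h4 : q % 4 = 1 ∨ q % 4 = 3 := by
        have := Nat.odd_iff.1 hqo
        omega
      rcases h4 with h4 | h4
      · rw [jacobiSym.quadratic_reciprocity_one_mod_four h4 hodd, h1, ZMod.χ₄_nat_one_mod_four h4]
      · rw [jacobiSym.quadratic_reciprocity_three_mod_four h4 (by omega), h1,
          ZMod.χ₄_nat_three_mod_four h4]
        rfl

theorem jac_dvd_pow {a : ℕ} (ha : 0 < a) (j : ℕ) : ∀ x : ℕ, x ∣ a ^ j →
    J((x : ℤ) | 8 * a - 1) = 1 := by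
  induction j with
  | zero => intro x hx; simp at hx; simp [hx, jacobiSym.one_left]
  | succ j ih =>
    intro x hx
    rw [pow_succ] at hx
    obtain ⟨y, z, hy, hz, rfl⟩ := exists_dvd_and_dvd_of_dvd_mul hx
    rw [Nat.cast_mul, jacobiSym.mul_left, ih y hy, jac_dvd ha z hz, mul_one]

theorem dvd_pow_of_primes {a : ℕ} (x : ℕ) (hx : x ≠ 0) (h : ∀ q, q.Prime → q ∣ x → q ∣ a) :
    ∃ j, x ∣ a ^ j := by
  induction x using induction_on_primes with
  | zero => exact absurd rfl hx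
  | one => exact ⟨0, by simp⟩
  | prime_mul q x hq ih =>
    obtain ⟨j, hj⟩ := ih (fun e => hx (by simp [e])) fun p hp hpx => h p hp (hpx.mul_left _)
    exact ⟨j + 1, by rw [pow_succ']; exact Nat.mul_dvd_mul (h q hq (Dvd.intro _ rfl)) hj⟩

/-- a ratio that is a ratio of divisors of powers of `c` modulo every `m` is such a ratio -/
theorem ratio_unit {c : ℕ} (hc : 0 < c) {a b : ℤ} (ha : a ≠ 0) (hb : b ≠ 0)
    (h : ∀ m : ℕ, 0 < m → ∃ x y : ℕ, (∃ j, x ∣ c ^ j) ∧ (∃ j, y ∣ c ^ j) ∧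
      (m : ℤ) ∣ x * a - y * b) :
    ∃ x y : ℕ, (∃ j, x ∣ c ^ j) ∧ (∃ j, y ∣ c ^ j) ∧ (x : ℤ) * a = y * b := by
  obtain ⟨g, a', b', hg, hco, rfl, rfl⟩ := Int.exists_gcd_one' (Int.gcd_pos_of_ne_zero_left b ha)
  have ha' : a' ≠ 0 := fun e => ha (by simp [e])
  have hb' : b' ≠ 0 := fun e => hb (by simp [e])
  have h' : ∀ m : ℕ, 0 < m → ∃ x y : ℕ, (∃ j, x ∣ c ^ j) ∧ (∃ j, y ∣ c ^ j) ∧
      (m : ℤ) ∣ x * a' - y * b' := by
    intro m hm
    obtain ⟨x, y, h1, h2, h3⟩ := h (m * g) (Nat.mul_pos hm hg)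
    refine ⟨x, y, h1, h2, ?_⟩
    rw [show (x : ℤ) * (a' * g) - y * (b' * g) = (x * a' - y * b') * g by ring, Nat.cast_mul] at h3
    exact (mul_dvd_mul_iff_right (by exact_mod_cast hg.ne')).1 h3
  have hA : ∃ j, a'.natAbs ∣ c ^ j := by
    refine dvd_pow_of_primes _ (Int.natAbs_ne_zero.2 ha') fun q hq hqa => ?_
    obtain ⟨x, y, -, ⟨j, h2⟩, h3⟩ := h' q hq.pos
    have h4 : (q : ℤ) ∣ a' := Int.natCast_dvd.2 hqa
    have h5 : (q : ℤ) ∣ y * b' := by
      have := (h4.mul_left (x : ℤ)).sub h3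
      simpa using this
    have h6 : q ∣ y * b'.natAbs := by simpa [Int.natAbs_mul] using Int.natCast_dvd.1 h5
    rcases (Nat.Prime.dvd_mul hq).1 h6 with h7 | h7
    · exact hq.dvd_of_dvd_pow (h7.trans h2)
    · have := Nat.dvd_gcd hqa h7
      rw [show Nat.gcd a'.natAbs b'.natAbs = 1 from hco] at this
      exact absurd (Nat.dvd_one.1 this) hq.ne_one
  have hB : ∃ j, b'.natAbs ∣ c ^ j := by
    refine dvd_pow_of_primes _ (Int.natAbs_ne_zero.2 hb') fun q hq hqa => ?_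
    obtain ⟨x, y, ⟨j, h2⟩, -, h3⟩ := h' q hq.pos
    have h4 : (q : ℤ) ∣ b' := Int.natCast_dvd.2 hqa
    have h5 : (q : ℤ) ∣ x * a' := by
      have := (h4.mul_left (y : ℤ)).add h3
      simpa using this
    have h6 : q ∣ x * a'.natAbs := by simpa [Int.natAbs_mul] using Int.natCast_dvd.1 h5
    rcases (Nat.Prime.dvd_mul hq).1 h6 with h7 | h7
    · exact hq.dvd_of_dvd_pow (h7.trans h2)
    · have := Nat.dvd_gcd h7 hqa
      rw [show Nat.gcd a'.natAbs b'.natAbs = 1 from hco] at this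
      exact absurd (Nat.dvd_one.1 this) hq.ne_one
  by_cases hs : (b'.natAbs : ℤ) * a' = a'.natAbs * b'
  · exact ⟨_, _, hB, hA, by rw [← mul_assoc, hs, mul_assoc]⟩
  exfalso
  obtain ⟨x, y, ⟨j1, h1⟩, ⟨j2, h2⟩, h3⟩ := h' (8 * c - 1) (by omega)
  obtain ⟨j3, hA⟩ := hA
  obtain ⟨j4, hB⟩ := hB
  have e1 := jac_dvd_pow hc (j1 + j3) (x * a'.natAbs) (by rw [pow_add]; exact Nat.mul_dvd_mul h1 hA)
  have e2 := jac_dvd_pow hc (j2 + j4) (y * b'.natAbs) (by rw [pow_add]; exact Nat.mul_dvd_mul h2 hB)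
  have hodd : Odd (8 * c - 1) := Nat.odd_iff.2 (by omega)
  have e3 : ((8 * c - 1 : ℕ) : ℤ) ∣ -((y * b'.natAbs : ℕ) : ℤ) - ((x * a'.natAbs : ℕ) : ℤ) := by
    push_cast
    rcases le_total 0 a' with s1 | s1 <;> rcases le_total 0 b' with s2 | s2
    · exact absurd (by simp [abs_of_nonneg s1, abs_of_nonneg s2, mul_comm]) hs
    · rw [abs_of_nonneg s1, abs_of_nonpos s2, ← dvd_neg,
        show -(-((y : ℤ) * -b') - x * a') = x * a' - y * b' by ring]
      exact h3
    · rw [abs_of_nonpos s1, abs_of_nonneg s2,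
        show -((y : ℤ) * b') - x * -a' = x * a' - y * b' by ring]
      exact h3
    · exact absurd (by simp [abs_of_nonpos s1, abs_of_nonpos s2, mul_comm]) hs
  have e4 := jacobiSym.mod_left' (Int.modEq_iff_dvd.2 e3)
  rw [e1, jacobiSym.neg _ hodd, e2, ZMod.χ₄_nat_three_mod_four (by omega)] at e4
  omega

/-- a subring of a finite power of the integers contains a multiple of every vector that is
constant on the classes it does not separate -/
theorem subring_blocks {V : Type} [Fintype V] (D : Subring (V → ℤ)) :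
    ∃ c : ℤ, c ≠ 0 ∧ ∀ z : V → ℤ, (∀ u v, (∀ e ∈ D, e u = e v) → z u = z v) → c • z ∈ D := by
  classical
  have sep : ∀ u v, ∃ f ∈ D, f u ≠ 0 ∧ ((∀ e ∈ D, e u = e v) ∨ f v = 0) := by
    intro u v
    by_cases h : ∀ e ∈ D, e u = e v
    · exact ⟨1, D.one_mem, by simp, Or.inl h⟩
    · push Not at h
      obtain ⟨e, he, hne⟩ := h
      exact ⟨e - (e v : ℤ), D.sub_mem he (intCast_mem D _), by simpa [sub_eq_zero] using hne,
        Or.inr (by simp)⟩
  choose f f1 f2 f3 using sep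
  let g : V → V → ℤ := fun u => ∏ v, f u v
  have g1 : ∀ u, g u ∈ D := fun u => D.prod_mem fun v _ => f1 u v
  have g2 : ∀ u, g u u ≠ 0 := fun u => by
    simp only [g, Finset.prod_apply]
    exact Finset.prod_ne_zero_iff.2 fun v _ => f2 u v
  have g3 : ∀ u v, ¬ (∀ e ∈ D, e u = e v) → g u v = 0 := fun u v h => by
    simp only [g, Finset.prod_apply]
    exact Finset.prod_eq_zero (Finset.mem_univ v) ((f3 u v).resolve_left h)
  let st : Setoid V := ⟨fun u v => ∀ e ∈ D, e u = e v, fun _ _ _ => rfl,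
    fun h e he => (h e he).symm, fun h1 h2 e he => (h1 e he).trans (h2 e he)⟩
  let rep : V → V := fun u => (Quotient.mk st u).out
  have r1 : ∀ u, ∀ e ∈ D, e (rep u) = e u := fun u => Quotient.mk_out (s := st) u
  have r2 : ∀ u v, (∀ e ∈ D, e u = e v) → rep u = rep v := fun u v h =>
    congrArg Quotient.out (Quotient.sound (s := st) h)
  refine ⟨∏ u, g u u, Finset.prod_ne_zero_iff.2 fun u _ => g2 u, fun z hz => ?_⟩
  have : (∏ u, g u u) • z = ∑ u ∈ Finset.univ.filter (fun u => rep u = u),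
      (z u * ∏ v ∈ Finset.univ.erase u, g v v) • g u := by
    ext w
    rw [Finset.sum_apply, Finset.sum_eq_single (rep w)]
    · rw [← Finset.mul_prod_erase _ _ (Finset.mem_univ (rep w)), Pi.smul_apply, Pi.smul_apply,
        hz _ _ (r1 w), ← r1 w _ (g1 (rep w))]
      simp only [smul_eq_mul]
      ring
    · intro u hu hne
      have : ¬ ∀ e ∈ D, e u = e w := fun h => hne ((Finset.mem_filter.1 hu).2 ▸ r2 _ _ h)
      simp [g3 u w this]
    · intro h
      exact (h (Finset.mem_filter.2 ⟨Finset.mem_univ _, r2 _ _ (r1 w)⟩)).elim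
  rw [this]
  exact D.sum_mem fun u _ => zsmul_mem (g1 u) _

/-- approximate solutions of an integral linear system are close to solutions -/
theorem approx_ker {M N : Type} [AddCommGroup M] [AddCommGroup N] [Module.Finite ℤ N]
    (φ : M →ₗ[ℤ] N) : ∃ k : ℕ, 0 < k ∧ ∀ (m : ℤ) (x : M) (y : N), m ≠ 0 → φ x = (m * k) • y →
      ∃ x', φ (x - m • x') = 0 := by
  let Q := N ⧸ LinearMap.range φ
  obtain ⟨k, h1, h2⟩ := Submodule.annihilator_top_inter_nonZeroDivisors
    (Submodule.torsion_isTorsion (R := ℤ) (M := Q))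
  have hk : k ≠ 0 := nonZeroDivisors.ne_zero h2
  refine ⟨k.natAbs, Int.natAbs_pos.2 hk, fun m x y hm hx => ?_⟩
  have hy : (Submodule.Quotient.mk y : Q) ∈ Submodule.torsion ℤ Q := by
    refine ⟨⟨m * k.natAbs, mem_nonZeroDivisors_of_ne_zero (by simp [hm, hk])⟩, ?_⟩
    change (m * k.natAbs) • (Submodule.Quotient.mk y : Q) = 0
    rw [← Submodule.Quotient.mk_smul, ← hx, Submodule.Quotient.mk_eq_zero]
    exact LinearMap.mem_range_self _ _
  have h3 := congrArg Subtype.val (Submodule.mem_annihilator.1 h1 ⟨_, hy⟩ Submodule.mem_top)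
  change k • (Submodule.Quotient.mk y : Q) = 0 at h3
  rw [← Submodule.Quotient.mk_smul, Submodule.Quotient.mk_eq_zero] at h3
  obtain ⟨x', hx'⟩ := h3
  refine ⟨k.sign • x', ?_⟩
  rw [map_sub, map_smul, map_smul, hx', hx, smul_smul, smul_smul, mul_assoc, Int.sign_mul_self_eq_natAbs,
    sub_self]

end Pool.Agent.MP_993212_an.H12
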