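import Mathlib

namespace Pool.Agent.MP_993212_an.H12

open Matrix

abbrev Mat := Σ n : ℕ, Matrix (Fin n) (Fin n) ℕ

def E (X Y : Mat) : Prop :=
  ∃ R : Matrix (Fin X.1) (Fin Y.1) ℕ, ∃ S : Matrix (Fin Y.1) (Fin X.1) ℕ,
    X.2 = R * S ∧ Y.2 = S * R

theorem E.symm {X Y : Mat} (h : E X Y) : E Y X := by
  obtain ⟨R, S, h1, h2⟩ := h
  exact ⟨S, R, h2, h1⟩

theorem transGen_symm {X Y : Mat} (h : Relation.TransGen E X Y) : Relation.TransGen E Y X := by
  induction h with
  | single h => exact .single h.symm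
  | tail _ h ih => exact .head h.symm ih

variable {U V W : Type} [Fintype U] [Fintype V] [Fintype W]
  [DecidableEq U] [DecidableEq V] [DecidableEq W]

/-- strong shift equivalence of matrices on arbitrary finite index types -/
def SSE (A : Matrix V V ℕ) (B : Matrix W W ℕ) : Prop :=
  ∃ (a b : ℕ) (e : Fin a ≃ V) (f : Fin b ≃ W),
    Relation.TransGen E ⟨a, A.submatrix e e⟩ ⟨b, B.submatrix f f⟩

omit [DecidableEq V] [DecidableEq W] in
theorem E_sub {a b : ℕ} (e : Fin a ≃ V) (f : Fin b ≃ W) (R : Matrix V W ℕ) (S : Matrix W V ℕ) :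
    E ⟨a, (R * S).submatrix e e⟩ ⟨b, (S * R).submatrix f f⟩ :=
  ⟨R.submatrix e f, S.submatrix f e, (submatrix_mul_equiv R S e f e).symm,
    (submatrix_mul_equiv S R f e f).symm⟩

omit [DecidableEq V] [DecidableEq W] in
theorem SSE.step (R : Matrix V W ℕ) (S : Matrix W V ℕ) : SSE (R * S) (S * R) :=
  ⟨_, _, (Fintype.equivFin V).symm, (Fintype.equivFin W).symm, .single (E_sub _ _ R S)⟩

theorem SSE.refl (A : Matrix V V ℕ) : SSE A A := by
  simpa using SSE.step A (1 : Matrix V V ℕ)

omit [Fintype V] [Fintype W] [DecidableEq V] [DecidableEq W] in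
theorem SSE.symm {A : Matrix V V ℕ} {B : Matrix W W ℕ} (h : SSE A B) : SSE B A := by
  obtain ⟨a, b, e, f, h⟩ := h
  exact ⟨b, a, f, e, transGen_symm h⟩

theorem E_same (A : Matrix V V ℕ) {a b : ℕ} (e : Fin a ≃ V) (f : Fin b ≃ V) :
    E ⟨a, A.submatrix e e⟩ ⟨b, A.submatrix f f⟩ := by
  simpa using E_sub e f A (1 : Matrix V V ℕ)

omit [Fintype U] [Fintype W] [DecidableEq U] [DecidableEq W] in
theorem SSE.trans {A : Matrix U U ℕ} {B : Matrix V V ℕ} {C : Matrix W W ℕ} (h1 : SSE A B)
    (h2 : SSE B C) : SSE A C := by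
  obtain ⟨a, b, e, f, h1⟩ := h1
  obtain ⟨b', c, f', g, h2⟩ := h2
  exact ⟨a, c, e, g, (h1.tail (E_same B f f')).trans h2⟩

theorem sse_iff {a b : ℕ} (A : Matrix (Fin a) (Fin a) ℕ) (B : Matrix (Fin b) (Fin b) ℕ) :
    SSE A B ↔ Relation.TransGen E ⟨a, A⟩ ⟨b, B⟩ := by
  constructor
  · rintro ⟨a', b', e, f, h⟩
    have h1 := E_same A (Equiv.refl _) e
    have h2 := E_same B f (Equiv.refl _)
    simp only [Equiv.coe_refl, submatrix_id_id] at h1 h2
    exact (Relation.TransGen.head h1 h).tail h2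
  · intro h
    exact ⟨a, b, Equiv.refl _, Equiv.refl _, by simpa using h⟩

omit [DecidableEq W] in
theorem SSE.sub (A : Matrix V V ℕ) (e : W ≃ V) : SSE A (A.submatrix e e) :=
  ⟨_, _, (Fintype.equivFin V).symm, (Fintype.equivFin W).symm, .single (by
    simpa using E_same A (Fintype.equivFin V).symm ((Fintype.equivFin W).symm.trans e))⟩

/-- shift equivalence -/
def SE (A : Matrix V V ℕ) (B : Matrix W W ℕ) : Prop :=
  ∃ (l : ℕ) (R : Matrix V W ℕ) (S : Matrix W V ℕ), 1 ≤ l ∧ A ^ l = R * S ∧ B ^ l = S * R ∧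
    A * R = R * B ∧ S * A = B * S

theorem pow_inter {α : Type} [Semiring α] {A : Matrix V V α} {B : Matrix W W α}
    {R : Matrix V W α} (h : A * R = R * B) (k : ℕ) : A ^ k * R = R * B ^ k := by
  induction k with
  | zero => simp
  | succ k ih => rw [pow_succ, Matrix.mul_assoc, h, ← Matrix.mul_assoc, ih, Matrix.mul_assoc,
      ← pow_succ]

theorem pow_inter' {α : Type} [Semiring α] {A : Matrix V V α} {B : Matrix W W α}
    {S : Matrix W V α} (h : S * A = B * S) (k : ℕ) : S * A ^ k = B ^ k * S :=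
  (pow_inter h.symm k).symm

theorem SE.trans {A : Matrix U U ℕ} {B : Matrix V V ℕ} {C : Matrix W W ℕ} (h1 : SE A B)
    (h2 : SE B C) : SE A C := by
  obtain ⟨l, R, S, h0, h1, h2', h3, h4⟩ := h1
  obtain ⟨l', R', S', h0', h1', h2'', h3', h4'⟩ := h2
  refine ⟨l + l', R * R', S' * S, by omega, ?_, ?_, ?_, ?_⟩
  · rw [Matrix.mul_assoc, ← Matrix.mul_assoc R', ← h1', ← pow_inter' h4, ← Matrix.mul_assoc,
      ← h1, pow_add]
  · rw [Matrix.mul_assoc, ← Matrix.mul_assoc S, ← h2', pow_inter h3', ← Matrix.mul_assoc,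
      ← h2'', ← pow_add, add_comm]
  · rw [← Matrix.mul_assoc, h3, Matrix.mul_assoc, h3', Matrix.mul_assoc]
  · rw [Matrix.mul_assoc, h4, ← Matrix.mul_assoc, h4', Matrix.mul_assoc]

theorem SE.step (R : Matrix V W ℕ) (S : Matrix W V ℕ) : SE (R * S) (S * R) :=
  ⟨1, R, S, le_rfl, pow_one _, pow_one _, Matrix.mul_assoc _ _ _, (Matrix.mul_assoc _ _ _).symm⟩

theorem trace_step (R : Matrix V W ℕ) (S : Matrix W V ℕ) (k : ℕ) :
    trace ((R * S) ^ (k + 1)) = trace ((S * R) ^ (k + 1)) := by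
  rw [pow_succ, ← Matrix.mul_assoc, pow_inter (Matrix.mul_assoc R S R) k, trace_mul_comm,
    ← Matrix.mul_assoc, ← pow_succ']

/-- an invariant of elementary equivalence -/
theorem SSE.ind {P : ∀ {V W : Type} [Fintype V] [Fintype W] [DecidableEq V] [DecidableEq W],
      Matrix V V ℕ → Matrix W W ℕ → Prop}
    (step : ∀ {V W : Type} [Fintype V] [Fintype W] [DecidableEq V] [DecidableEq W]
      (R : Matrix V W ℕ) (S : Matrix W V ℕ), P (R * S) (S * R))
    (trans : ∀ {U V W : Type} [Fintype U] [Fintype V] [Fintype W] [DecidableEq U] [DecidableEq V]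
      [DecidableEq W] {A : Matrix U U ℕ} {B : Matrix V V ℕ} {C : Matrix W W ℕ},
      P A B → P B C → P A C)
    {A : Matrix V V ℕ} {B : Matrix W W ℕ} (h : SSE A B) : P A B := by
  obtain ⟨a, b, e, f, h⟩ := h
  have key : ∀ X Y : Mat, Relation.TransGen E X Y → P X.2 Y.2 := by
    intro X Y h
    induction h with
    | single h =>
      obtain ⟨R, S, h1, h2⟩ := h
      rw [h1, h2]
      exact step R S
    | tail _ h ih =>
      obtain ⟨R, S, h1, h2⟩ := h
      refine trans ih ?_
      rw [h1, h2]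
      exact step R S
  have h1 : P A (A.submatrix e e) := by
    have := step (A.submatrix id e) ((1 : Matrix V V ℕ).submatrix e id)
    rwa [← Equiv.coe_refl, submatrix_mul_equiv, submatrix_mul_equiv, Matrix.mul_one,
      Matrix.one_mul, Equiv.coe_refl, submatrix_id_id] at this
  have h2 : P (B.submatrix f f) B := by
    have := step ((1 : Matrix W W ℕ).submatrix f id) (B.submatrix id f)
    rwa [← Equiv.coe_refl, submatrix_mul_equiv, submatrix_mul_equiv, Matrix.mul_one,
      Matrix.one_mul, Equiv.coe_refl, submatrix_id_id] at this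
  exact trans (trans h1 (key _ _ h)) h2

theorem SSE.se {A : Matrix V V ℕ} {B : Matrix W W ℕ} (h : SSE A B) : SE A B :=
  SSE.ind (P := fun A B => SE A B) (fun R S => SE.step R S) (fun h1 h2 => h1.trans h2) h

theorem SSE.trace_eq {A : Matrix V V ℕ} {B : Matrix W W ℕ} (h : SSE A B) (k : ℕ) :
    trace (A ^ (k + 1)) = trace (B ^ (k + 1)) :=
  SSE.ind (P := fun A B => trace (A ^ (k + 1)) = trace (B ^ (k + 1)))
    (fun R S => trace_step R S k) (fun h1 h2 => h1.trans h2) h

/-- bounded traces -/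
def ZE (A : Matrix V V ℕ) : Prop := ∃ c, ∀ k, trace (A ^ k) ≤ c

theorem SSE.ze {A : Matrix V V ℕ} {B : Matrix W W ℕ} (h : SSE A B) (hA : ZE A) : ZE B := by
  obtain ⟨c, hc⟩ := hA
  refine ⟨c + trace (B ^ 0), fun k => ?_⟩
  cases k with
  | zero => omega
  | succ k =>
    rw [← h.trace_eq]
    have := hc (k + 1)
    omega

/-- chains of elementary equivalences on one index type, with the product of the left factors -/
inductive Ch (A : Matrix V V ℕ) : Matrix V V ℕ → Matrix V V ℕ → Prop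
  | refl : Ch A A 1
  | step {R S T : Matrix V V ℕ} : Ch A (R * S) T → Ch A (S * R) (T * R)

theorem Ch.trans {A B C T T' : Matrix V V ℕ} (h1 : Ch A B T) (h2 : Ch B C T') :
    Ch A C (T * T') := by
  induction h2 with
  | refl => simpa using h1
  | step _ ih => rw [← Matrix.mul_assoc]; exact ih.step

theorem Ch.sse {A B T : Matrix V V ℕ} (h : Ch A B T) : SSE A B := by
  induction h with
  | refl => exact SSE.refl A
  | step _ ih => exact ih.trans (SSE.step _ _)

theorem Ch.single (R S : Matrix V V ℕ) : Ch (R * S) (S * R) R := by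
  simpa using (Ch.refl (A := R * S)).step

theorem Ch.pow {A B T : Matrix V V ℕ} (h : Ch A B T) (k : ℕ) : Ch A B (T * B ^ k) := by
  induction k with
  | zero => simpa using h
  | succ k ih =>
    have := ih.trans (show Ch B B B by simpa using Ch.single B 1)
    rwa [Matrix.mul_assoc, ← pow_succ] at this

theorem Ch.sub {A B T : Matrix V V ℕ} (h : Ch A B T) (e : W ≃ V) :
    Ch (A.submatrix e e) (B.submatrix e e) (T.submatrix e e) := by
  induction h with
  | refl => rw [submatrix_one_equiv]; exact Ch.refl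
  | step _ ih =>
    rw [← submatrix_mul_equiv _ _ e e e] at ih
    rw [← submatrix_mul_equiv _ _ e e e, ← submatrix_mul_equiv _ _ e e e]
    exact ih.step

theorem Ch.lift {D D' T : Matrix V V ℕ} (h : Ch D D' T) (P : Matrix U U ℕ) (X : Matrix U V ℕ) :
    Ch (fromBlocks P X 0 D) (fromBlocks P (X * T) 0 D') (fromBlocks 1 0 0 T) := by
  induction h with
  | refl => simpa using Ch.refl
  | @step R S T _ ih =>
    have h1 : fromBlocks P (X * T) 0 (R * S) =
        fromBlocks (1 : Matrix U U ℕ) 0 0 R * fromBlocks P (X * T) 0 S := by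
      simp [fromBlocks_multiply]
    rw [h1] at ih
    have := ih.step
    simpa [fromBlocks_multiply, Matrix.mul_assoc] using this

end Pool.Agent.MP_993212_an.H12
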