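import Pool.Agent.MP_993212_an.H12.Basic

set_option linter.unusedSectionVars false

namespace Pool.Agent.MP_993212_an.H12

open Matrix

variable {U V W : Type} [Fintype U] [Fintype V] [Fintype W]
  [DecidableEq U] [DecidableEq V] [DecidableEq W]

theorem mul_pos_iff' {A : Matrix U V ℕ} {B : Matrix V W ℕ} {u : U} {w : W} :
    0 < (A * B) u w ↔ ∃ v, 0 < A u v ∧ 0 < B v w := by
  rw [Matrix.mul_apply, Finset.sum_pos_iff]
  simp

theorem le_mul_apply (A : Matrix U V ℕ) (B : Matrix V W ℕ) (u : U) (v : V) (w : W) :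
    A u v * B v w ≤ (A * B) u w := by
  rw [Matrix.mul_apply]
  exact Finset.single_le_sum (f := fun v => A u v * B v w) (fun _ _ => Nat.zero_le _)
    (Finset.mem_univ v)

theorem sub_pow {α : Type} [Semiring α] (A : Matrix V V α) (e : W ≃ V) (k : ℕ) :
    (A.submatrix e e) ^ k = (A ^ k).submatrix e e := by
  induction k with
  | zero => simp
  | succ k ih => rw [pow_succ, pow_succ, ih, submatrix_mul_equiv]

/-- canonical form: disjoint cycles of `s`, other edges raise the level `h` -/
structure Can (A : Matrix V V ℕ) (s : Equiv.Perm V) (h : V → ℕ) : Prop where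
  one : ∀ u, A u (s u) = 1
  lev : ∀ u, h (s u) = h u
  up : ∀ u v, 0 < A u v → v = s u ∨ h u < h v

theorem Can.lev_pow {A : Matrix V V ℕ} {s : Equiv.Perm V} {h : V → ℕ} (hc : Can A s h) (k : ℕ)
    (u : V) : h ((s ^ k) u) = h u := by
  induction k with
  | zero => simp
  | succ k ih => rw [pow_succ', Equiv.Perm.mul_apply, hc.lev, ih]

theorem Can.up_pow {A : Matrix V V ℕ} {s : Equiv.Perm V} {h : V → ℕ} (hc : Can A s h) (k : ℕ)
    (u v : V) (hp : 0 < (A ^ k) u v) : v = (s ^ k) u ∨ h u < h v := by
  induction k generalizing v with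
  | zero =>
    left
    by_contra hne
    rw [pow_zero, Matrix.one_apply_ne (fun e => hne (by simp [e]))] at hp
    omega
  | succ k ih =>
    rw [pow_succ, mul_pos_iff'] at hp
    obtain ⟨w, h1, h2⟩ := hp
    rcases ih w h1 with e | e <;> rcases hc.up _ _ h2 with e' | e'
    · left; rw [e', e, pow_succ', Equiv.Perm.mul_apply]
    · right; rw [e, hc.lev_pow] at e'; exact e'
    · right; rw [e', hc.lev]; exact e
    · right; omega

theorem Can.one_pow {A : Matrix V V ℕ} {s : Equiv.Perm V} {h : V → ℕ} (hc : Can A s h) (k : ℕ)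
    (u : V) : (A ^ k) u ((s ^ k) u) = 1 := by
  induction k with
  | zero => simp
  | succ k ih =>
    rw [pow_succ, Matrix.mul_apply, Finset.sum_eq_single ((s ^ k) u)]
    · rw [ih, pow_succ', Equiv.Perm.mul_apply, hc.one, mul_one]
    · intro w _ hw
      by_contra hne
      have h1 : 0 < (A ^ k) u w := Nat.pos_of_ne_zero fun e => hne (by simp [e])
      have h2 : 0 < A w ((s ^ (k + 1)) u) := Nat.pos_of_ne_zero fun e => hne (by simp [e])
      have h3 := hc.lev_pow (k + 1) u
      rcases hc.up_pow k u w h1 with e | e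
      · exact hw e
      · rcases hc.up _ _ h2 with e' | e'
        · have := hc.lev w
          rw [← e'] at this
          omega
        · omega
    · simp

theorem Can.diag_le {A : Matrix V V ℕ} {s : Equiv.Perm V} {h : V → ℕ} (hc : Can A s h) (k : ℕ)
    (u : V) : (A ^ k) u u ≤ 1 := by
  rcases Nat.eq_zero_or_pos ((A ^ k) u u) with e | e
  · omega
  · rcases hc.up_pow k u u e with e' | e'
    · have := hc.one_pow k u
      rw [← e'] at this
      omega
    · omega

theorem Can.ze {A : Matrix V V ℕ} {s : Equiv.Perm V} {h : V → ℕ} (hc : Can A s h) : ZE A := by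
  refine ⟨Fintype.card V, fun k => ?_⟩
  calc trace (A ^ k) = ∑ u, (A ^ k) u u := rfl
    _ ≤ ∑ _u : V, 1 := Finset.sum_le_sum fun u _ => hc.diag_le k u
    _ = _ := by simp

theorem Can.sub {A : Matrix V V ℕ} {s : Equiv.Perm V} {h : V → ℕ} (hc : Can A s h) (e : W ≃ V) :
    Can (A.submatrix e e) (e.trans (s.trans e.symm)) (h ∘ e) :=
  ⟨fun u => by simpa using hc.one (e u), fun u => by simpa using hc.lev (e u), fun u v hp => by
    rcases hc.up (e u) (e v) hp with h1 | h1
    · left; simp [← h1]
    · right; exact h1⟩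

theorem pow_diag_ge (A : Matrix V V ℕ) (n k : ℕ) (u : V) :
    ((A ^ n) u u) ^ k ≤ (A ^ (n * k)) u u := by
  induction k with
  | zero => simp
  | succ k ih =>
    rw [Nat.mul_succ, pow_succ, pow_add]
    exact (Nat.mul_le_mul_right _ ih).trans (le_mul_apply _ _ _ _ _)

theorem ZE.diag_le {A : Matrix V V ℕ} (hA : ZE A) (n : ℕ) (u : V) : (A ^ n) u u ≤ 1 := by
  obtain ⟨c, hc⟩ := hA
  by_contra hlt
  have h1 := pow_diag_ge A n c u
  have h2 : (A ^ (n * c)) u u ≤ trace (A ^ (n * c)) :=
    Finset.single_le_sum (f := fun u => (A ^ (n * c)) u u) (fun _ _ => Nat.zero_le _)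
      (Finset.mem_univ u)
  have h3 : 2 ^ c ≤ ((A ^ n) u u) ^ c := Nat.pow_le_pow_left (by omega) c
  have h4 := hc (n * c)
  have h5 : c < 2 ^ c := Nat.lt_two_pow_self
  omega

/-- reachability -/
def Rch (A : Matrix V V ℕ) (u v : V) : Prop := ∃ k, 0 < (A ^ k) u v

theorem Rch.refl (A : Matrix V V ℕ) (u : V) : Rch A u u := ⟨0, by simp⟩

theorem Rch.trans {A : Matrix V V ℕ} {u v w : V} (h1 : Rch A u v) (h2 : Rch A v w) :
    Rch A u w := by
  obtain ⟨k, h1⟩ := h1
  obtain ⟨l, h2⟩ := h2
  exact ⟨k + l, by rw [pow_add, mul_pos_iff']; exact ⟨v, h1, h2⟩⟩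

theorem Rch.edge {A : Matrix V V ℕ} {u v : V} (h : 0 < A u v) : Rch A u v := ⟨1, by simpa using h⟩

/-- every vertex lies on a cycle -/
def Rec (A : Matrix V V ℕ) : Prop := ∀ v, ∃ u, Rch A v u ∧ 0 < A u v

theorem exists_rec (n : ℕ) : ∀ (V : Type) [Fintype V] [DecidableEq V] (A : Matrix V V ℕ),
    Fintype.card V = n → ∃ (m : ℕ) (C : Matrix (Fin m) (Fin m) ℕ), SSE A C ∧ Rec C := by
  induction n using Nat.strong_induction_on with
  | _ n ih =>
  intro V _ _ A hn
  classical
  by_cases hr : Rec A
  · let e := (Fintype.equivFin V).symm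
    refine ⟨_, A.submatrix e e, SSE.sub A e, fun v => ?_⟩
    obtain ⟨u, ⟨k, hk⟩, h2⟩ := hr (e v)
    refine ⟨e.symm u, ⟨k, ?_⟩, by simpa using h2⟩
    rw [sub_pow]
    simpa using hk
  · simp only [Rec, not_forall, not_exists, not_and, not_lt, Nat.le_zero] at hr
    obtain ⟨v, hv⟩ := hr
    let R : Matrix V {u // u ≠ v} ℕ := fun a b => if Rch A v a then A a b else if a = b then 1 else 0
    let S : Matrix {u // u ≠ v} V ℕ := fun a b => if Rch A v a then (if a = b then 1 else 0) else A a b
    have hRS : A = R * S := by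
      ext a b
      rw [Matrix.mul_apply]
      by_cases ha : Rch A v a
      · by_cases hb : b = v
        · rw [hb, hv a ha]
          symm
          refine Finset.sum_eq_zero fun c _ => ?_
          simp only [R, S, ha, if_true]
          by_cases hc : Rch A v c
          · simp [hc, c.2]
          · have : A a c = 0 := by
              by_contra hne
              exact hc (ha.trans (Rch.edge (Nat.pos_of_ne_zero hne)))
            simp [this]
        · rw [Finset.sum_eq_single ⟨b, hb⟩]
          · simp only [R, S, ha, if_true]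
            by_cases hc : Rch A v b
            · simp [hc]
            · have : A a b = 0 := by
                by_contra hne
                exact hc (ha.trans (Rch.edge (Nat.pos_of_ne_zero hne)))
              simp [this]
          · intro c _ hcb
            simp only [R, S, ha, if_true]
            by_cases hc : Rch A v c
            · have : (c : V) ≠ b := fun e => hcb (Subtype.ext e)
              simp [hc, this]
            · have : A a c = 0 := by
                by_contra hne
                exact hc (ha.trans (Rch.edge (Nat.pos_of_ne_zero hne)))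
              simp [this]
          · simp
      · have hav : a ≠ v := fun e => ha (e ▸ Rch.refl A v)
        rw [Finset.sum_eq_single ⟨a, hav⟩]
        · simp [R, S, ha]
        · intro c _ hca
          have : a ≠ (c : V) := fun e => hca (Subtype.ext e.symm)
          simp [R, ha, this]
        · simp
    have hlt : Fintype.card {u // u ≠ v} < n := by
      rw [← hn]
      exact Fintype.card_subtype_lt (x := v) (by simp)
    obtain ⟨m, C, h1, h2⟩ := ih _ hlt _ (S * R) rfl
    exact ⟨m, C, (hRS ▸ SSE.step R S).trans h1, h2⟩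

theorem Rec.can {A : Matrix V V ℕ} (hr : Rec A) (hz : ZE A) : ∃ s h, Can A s h := by
  classical
  have loop : ∀ u v, 0 < A u v → Rch A v u → ∃ k, ∀ j, 0 < (A ^ (k + (k + 1) * j)) v u := by
    rintro u v h1 ⟨k, h2⟩
    refine ⟨k, fun j => ?_⟩
    rw [pow_add, mul_pos_iff']
    refine ⟨u, h2, lt_of_lt_of_le ?_ (pow_diag_ge A (k + 1) j u)⟩
    apply Nat.pow_pos
    rw [pow_succ', mul_pos_iff']
    exact ⟨v, h1, h2⟩
  have one : ∀ u v, 0 < A u v → Rch A v u → A u v = 1 := by
    rintro u v h1 ⟨k, h2⟩
    have h3 := hz.diag_le (k + 1) u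
    rw [pow_succ'] at h3
    have h4 := le_mul_apply A (A ^ k) u v u
    nlinarith
  have uniq : ∀ u v w, 0 < A u v → Rch A v u → 0 < A u w → Rch A w u → v = w := by
    intro u v w h1 h2 h3 h4
    by_contra hne
    obtain ⟨a, ha⟩ := loop u v h1 h2
    obtain ⟨b, hb⟩ := loop u w h3 h4
    have e1 := ha b
    have e2 := hb a
    rw [show b + (b + 1) * a = a + (a + 1) * b by ring] at e2
    have h5 := hz.diag_le (a + (a + 1) * b + 1) u
    rw [pow_succ', Matrix.mul_apply] at h5
    have h6 := Finset.add_le_sum (f := fun x => A u x * (A ^ (a + (a + 1) * b)) x u)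
      (s := Finset.univ) (fun _ _ => Nat.zero_le _) (Finset.mem_univ v) (Finset.mem_univ w) hne
    have h7 := Nat.mul_pos h1 e1
    have h8 := Nat.mul_pos h3 e2
    omega
  have ex : ∀ u, ∃ v, 0 < A u v ∧ Rch A v u := by
    intro u
    obtain ⟨w, ⟨k, h1⟩, h2⟩ := hr u
    have : 0 < (A ^ (k + 1)) u u := by
      rw [pow_succ, mul_pos_iff']
      exact ⟨w, h1, h2⟩
    rw [pow_succ', mul_pos_iff'] at this
    obtain ⟨v, h3, h4⟩ := this
    exact ⟨v, h3, k, h4⟩
  choose f hf1 hf2 using ex
  have surj : Function.Surjective f := by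
    intro v
    obtain ⟨u, h1, h2⟩ := hr v
    exact ⟨u, uniq u _ _ (hf1 u) (hf2 u) h2 h1⟩
  let s : Equiv.Perm V := Equiv.ofBijective f (Finite.surjective_iff_bijective.1 surj)
  refine ⟨s, fun v => (Finset.univ.filter fun u => Rch A u v).card, fun u => one u _ (hf1 u) (hf2 u),
    fun u => ?_, fun u v hp => ?_⟩
  · congr 1
    ext w
    simp only [Finset.mem_filter, Finset.mem_univ, true_and]
    exact ⟨fun h => h.trans (hf2 u), fun h => h.trans (Rch.edge (hf1 u))⟩
  · by_cases hb : Rch A v u
    · exact Or.inl (uniq u _ _ hp hb (hf1 u) (hf2 u))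
    · right
      apply Finset.card_lt_card
      refine ⟨fun w => ?_, fun hs => hb ?_⟩
      · simp only [Finset.mem_filter, Finset.mem_univ, true_and]
        exact fun h => h.trans (Rch.edge hp)
      · simpa using hs (show v ∈ _ by simpa using Rch.refl A v)

theorem ZE.exists_can {A : Matrix V V ℕ} (hz : ZE A) :
    ∃ (m : ℕ) (C : Matrix (Fin m) (Fin m) ℕ) (s : Equiv.Perm (Fin m)) (h : Fin m → ℕ),
      SSE A C ∧ Can C s h := by
  obtain ⟨m, C, h1, h2⟩ := exists_rec _ V A rfl
  obtain ⟨s, h, h3⟩ := h2.can (h1.ze hz)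
  exact ⟨m, C, s, h, h1, h3⟩

end Pool.Agent.MP_993212_an.H12
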