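import Pool.Agent.MP_993212_an.H12.Pos
import Pool.Agent.MP_c1eef4_lc.H62.Prim

set_option linter.unusedSectionVars false

namespace Pool.Agent.MP_993212_an.H12

open Matrix

abbrev LL := List (List ℕ)

def ent (L : LL) (i j : ℕ) : ℕ := (L.getD i []).getD j 0

def toM (n m : ℕ) (L : LL) : Matrix (Fin n) (Fin m) ℕ := Matrix.of fun i j => ent L i j

def sm (n : ℕ) (f : ℕ → ℕ) : ℕ := (List.range n).foldr (fun k s => f k + s) 0

def all1 (n : ℕ) (p : ℕ → Bool) : Bool := (List.range n).all p

def all2 (n : ℕ) (p : ℕ → ℕ → Bool) : Bool := all1 n fun i => all1 n fun j => p i j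

def tab (n : ℕ) (f : ℕ → ℕ → ℕ) : LL := (List.range n).map fun i => (List.range n).map fun j => f i j

def mulE (b : ℕ) (R S : LL) (i j : ℕ) : ℕ := sm b fun k => ent R i k * ent S k j

def pw (A : LL) (k : ℕ) : LL :=
  Nat.rec (tab A.length fun i j => if i = j then 1 else 0)
    (fun _ M => tab A.length (mulE A.length M A)) k

def chkE (A B R S : LL) : Bool :=
  all2 A.length (fun i j => ent A i j == mulE B.length R S i j) &&
    all2 B.length (fun i j => ent B i j == mulE A.length S R i j)

def run (c : List (LL × LL × LL)) (Z : LL) : LL × Bool :=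
  c.foldr (fun x st => (x.1, st.2 && chkE x.1 st.1 x.2.1 x.2.2)) (Z, true)

def chain (A : LL) (c : List (LL × LL × LL)) (Z : LL) : Bool := (run c Z).2 && (run c Z).1 == A

def lists {β : Type} (n : ℕ) (xs : List β) : List (List β) :=
  Nat.rec [[]] (fun _ L => L.foldr (fun l acc => xs.map (fun x => x :: l) ++ acc) []) n

section Prim
variable {α β : Type} [Primcodable α] [Primcodable β]

@[fun_prop] theorem P.mod {f g : α → ℕ} (hf : Primrec f) (hg : Primrec g) :
    Primrec fun a => f a % g a := Primrec.nat_mod.comp hf hg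

@[fun_prop] theorem P.ent {f : α → LL} {g h : α → ℕ} (hf : Primrec f) (hg : Primrec g)
    (hh : Primrec h) : Primrec fun a => ent (f a) (g a) (h a) := by
  unfold H12.ent; fun_prop

@[fun_prop] theorem P.sm {f : α → ℕ} {g : α → ℕ → ℕ} (hf : Primrec f)
    (hg : Primrec fun p : α × ℕ => g p.1 p.2) : Primrec fun a => sm (f a) (g a) := by
  unfold H12.sm; fun_prop

@[fun_prop] theorem P.all1 {f : α → ℕ} {g : α → ℕ → Bool} (hf : Primrec f)
    (hg : Primrec fun p : α × ℕ => g p.1 p.2) : Primrec fun a => all1 (f a) (g a) := by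
  unfold H12.all1; fun_prop

@[fun_prop] theorem P.all2 {f : α → ℕ} {g : α → ℕ → ℕ → Bool} (hf : Primrec f)
    (hg : Primrec fun p : α × ℕ × ℕ => g p.1 p.2.1 p.2.2) : Primrec fun a => all2 (f a) (g a) := by
  unfold H12.all2
  refine P.all1 hf (P.all1 (by fun_prop) ?_)
  exact hg.comp (g := fun q : (α × ℕ) × ℕ => (q.1.1, q.1.2, q.2)) (by fun_prop)

@[fun_prop] theorem P.tab {f : α → ℕ} {g : α → ℕ → ℕ → ℕ} (hf : Primrec f)
    (hg : Primrec fun p : α × ℕ × ℕ => g p.1 p.2.1 p.2.2) : Primrec fun a => tab (f a) (g a) := by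
  unfold H12.tab
  refine Primrec.list_map (by fun_prop) (Primrec.list_map (by fun_prop) ?_)
  exact hg.comp (g := fun q : (α × ℕ) × ℕ => (q.1.1, q.1.2, q.2)) (by fun_prop)

@[fun_prop] theorem P.mulE {b i j : α → ℕ} {R S : α → LL} (hb : Primrec b) (hR : Primrec R)
    (hS : Primrec S) (hi : Primrec i) (hj : Primrec j) :
    Primrec fun a => mulE (b a) (R a) (S a) (i a) (j a) := by
  unfold H12.mulE; fun_prop

@[fun_prop] theorem P.pw {f : α → LL} {g : α → ℕ} (hf : Primrec f) (hg : Primrec g) :
    Primrec fun a => pw (f a) (g a) := by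
  unfold H12.pw; fun_prop

@[fun_prop] theorem P.chkE {A B R S : α → LL} (hA : Primrec A) (hB : Primrec B) (hR : Primrec R)
    (hS : Primrec S) : Primrec fun a => chkE (A a) (B a) (R a) (S a) := by
  unfold H12.chkE; fun_prop

@[fun_prop] theorem P.run {c : α → List (LL × LL × LL)} {Z : α → LL} (hc : Primrec c)
    (hZ : Primrec Z) : Primrec fun a => run (c a) (Z a) := by
  unfold H12.run; fun_prop

@[fun_prop] theorem P.chain {c : α → List (LL × LL × LL)} {A Z : α → LL} (hA : Primrec A)
    (hc : Primrec c) (hZ : Primrec Z) : Primrec fun a => chain (A a) (c a) (Z a) := by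
  unfold H12.chain; fun_prop

@[fun_prop] theorem P.lists {f : α → ℕ} {g : α → List β} (hf : Primrec f) (hg : Primrec g) :
    Primrec fun a => lists (f a) (g a) := by
  unfold H12.lists; fun_prop

end Prim

theorem sm_eq (n : ℕ) (f : ℕ → ℕ) : sm n f = ∑ k : Fin n, f k := by
  rw [Fin.sum_univ_eq_sum_range, sm]
  have : ∀ L : List ℕ, L.foldr (fun k s => f k + s) 0 = (L.map f).sum := by
    intro L; induction L <;> simp [*]
  rw [this]
  induction n with
  | zero => simp
  | succ n ih => rw [List.sum_range_succ, Finset.sum_range_succ, ih]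

theorem all1_iff {n : ℕ} {p : ℕ → Bool} : all1 n p = true ↔ ∀ i : Fin n, p i = true := by
  simp only [all1, List.all_eq_true, List.mem_range]
  exact ⟨fun h i => h i i.2, fun h i hi => h ⟨i, hi⟩⟩

theorem all2_iff {n : ℕ} {p : ℕ → ℕ → Bool} :
    all2 n p = true ↔ ∀ i j : Fin n, p i j = true := by
  simp only [all2, all1_iff]

theorem ent_tab {n : ℕ} (f : ℕ → ℕ → ℕ) (i j : Fin n) : ent (tab n f) i j = f i j := by
  simp [ent, tab, List.getD_eq_getElem?_getD]

theorem mulE_eq {a b c : ℕ} (R S : LL) (i : Fin a) (j : Fin c) :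
    mulE b R S i j = (toM a b R * toM b c S) i j := by
  rw [mulE, sm_eq, Matrix.mul_apply]; rfl

theorem pw_eq (A : LL) (k : ℕ) :
    toM A.length A.length (pw A k) = toM A.length A.length A ^ k := by
  induction k with
  | zero =>
    ext i j
    simp [toM, pw, ent_tab, Matrix.one_apply, Fin.ext_iff]
  | succ k ih =>
    ext i j
    rw [pow_succ, ← ih, ← mulE_eq]
    exact ent_tab _ i j

theorem ent_pw (A : LL) (k : ℕ) (i j : Fin A.length) :
    ent (pw A k) i j = (toM A.length A.length A ^ k) i j := by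
  rw [← pw_eq]; rfl

/-- a list coding a matrix -/
def ofM {n m : ℕ} (A : Matrix (Fin n) (Fin m) ℕ) : LL := List.ofFn fun i => List.ofFn (A i)

theorem ofM_len {n m : ℕ} (A : Matrix (Fin n) (Fin m) ℕ) : (ofM A).length = n := by simp [ofM]

theorem toM_ofM {n m : ℕ} (A : Matrix (Fin n) (Fin m) ℕ) : toM n m (ofM A) = A := by
  ext i j
  simp [toM, ent, ofM, List.getD_eq_getElem?_getD]

/-- the matrix coded by a list -/
def cd (L : LL) : Mat := ⟨L.length, toM L.length L.length L⟩

theorem cd_surj (X : Mat) : ∃ L, cd L = X := by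
  obtain ⟨n, A⟩ := X
  refine ⟨ofM A, ?_⟩
  have : ∀ k, k = n → (⟨k, toM k k (ofM A)⟩ : Mat) = ⟨n, A⟩ := by
    rintro k rfl
    rw [toM_ofM]
  exact this _ (ofM_len A)

theorem chkE_iff {A B R S : LL} : chkE A B R S = true ↔
    (cd A).2 = toM A.length B.length R * toM B.length A.length S ∧
    (cd B).2 = toM B.length A.length S * toM A.length B.length R := by
  simp only [chkE, Bool.and_eq_true, all2_iff, beq_iff_eq, mulE_eq, ← Matrix.ext_iff]
  rfl

theorem run_sound (c : List (LL × LL × LL)) (Z : LL) (h : (run c Z).2 = true) :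
    SSE (cd (run c Z).1).2 (cd Z).2 := by
  induction c with
  | nil => exact SSE.refl _
  | cons x c ih =>
    simp only [run, List.foldr_cons, Bool.and_eq_true] at h ⊢
    obtain ⟨h1, h2⟩ := chkE_iff.1 h.2
    refine SSE.trans ?_ (ih h.1)
    rw [h1]
    erw [h2]
    exact SSE.step _ _

theorem chain_sound {A Z : LL} {c : List (LL × LL × LL)} (h : chain A c Z = true) :
    SSE (cd A).2 (cd Z).2 := by
  simp only [chain, Bool.and_eq_true, beq_iff_eq] at h
  rw [← h.2]
  exact run_sound c Z h.1

theorem chain_complete {A Z : LL} (h : SSE (cd A).2 (cd Z).2) : ∃ c, chain A c Z = true := by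
  have one : ∀ (A B : LL) c, E (cd A) (cd B) → chain B c Z = true → ∃ c, chain A c Z = true := by
    rintro A B c ⟨R, S, h1, h2⟩ h3
    simp only [chain, Bool.and_eq_true, beq_iff_eq] at h3
    refine ⟨(A, ofM R, ofM S) :: c, ?_⟩
    have h4 : chkE A B (ofM R) (ofM S) = true := by
      rw [chkE_iff]
      erw [toM_ofM R, toM_ofM S]
      exact ⟨h1, h2⟩
    have h5 : run ((A, ofM R, ofM S) :: c) Z =
      (A, (run c Z).2 && chkE A (run c Z).1 (ofM R) (ofM S)) := rfl
    simp [chain, h5, h3.1, h3.2, h4]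
  have h' : Relation.TransGen E (cd A) (cd Z) := (sse_iff _ _).1 h
  have key : ∀ X, Relation.TransGen E X (cd Z) → ∀ A, cd A = X → ∃ c, chain A c Z = true := by
    intro X hX
    induction hX using Relation.TransGen.head_induction_on with
    | single h1 =>
      rintro A rfl
      exact one A Z [] h1 (by simp [chain, run])
    | @head X Y h1 _ ih =>
      rintro A rfl
      obtain ⟨B, rfl⟩ := cd_surj Y
      obtain ⟨c, hc⟩ := ih B rfl
      exact one A B c h1 hc
  exact key _ h' A rfl

theorem mem_lists {β : Type} (xs : List β) (l : List β) (h : ∀ x ∈ l, x ∈ xs) :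
    l ∈ lists l.length xs := by
  induction l with
  | nil => simp [lists]
  | cons x l ih =>
    have h1 := ih fun y hy => h y (List.mem_cons_of_mem _ hy)
    have h2 : x ∈ xs := h x List.mem_cons_self
    change x :: l ∈ (lists l.length xs).foldr (fun l acc => xs.map (fun x => x :: l) ++ acc) []
    generalize lists l.length xs = L at h1
    induction L with
    | nil => simp at h1
    | cons a L ihL =>
      rw [List.foldr_cons, List.mem_append]
      rcases List.mem_cons.1 h1 with e | e
      · left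
        exact List.mem_map.2 ⟨x, h2, by rw [e]⟩
      · exact Or.inr (ihL e)

end Pool.Agent.MP_993212_an.H12
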