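import Pool.Agent.MP_993212_an.H12.Nec

set_option linter.unusedSectionVars false

namespace Pool.Agent.MP_993212_an.H12

open Matrix

variable {U V W : Type} [Fintype U] [Fintype V] [Fintype W]
  [DecidableEq U] [DecidableEq V] [DecidableEq W]

/-- canonical form with multiplicities on the cycles -/
structure Cw (A : Matrix V V ℕ) (s : Equiv.Perm V) (h : V → ℕ) : Prop where
  pos : ∀ u, 0 < A u (s u)
  lev : ∀ u, h (s u) = h u
  up : ∀ u v, 0 < A u v → v = s u ∨ h u < h v

theorem Cw.lev_pow {A : Matrix V V ℕ} {s : Equiv.Perm V} {h : V → ℕ} (hc : Cw A s h) (k : ℕ)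
    (u : V) : h ((s ^ k) u) = h u := by
  induction k with
  | zero => simp
  | succ k ih => rw [pow_succ', Equiv.Perm.mul_apply, hc.lev, ih]

theorem Cw.up_pow {A : Matrix V V ℕ} {s : Equiv.Perm V} {h : V → ℕ} (hc : Cw A s h) (k : ℕ)
    (u v : V) (hp : 0 < (A ^ k) u v) : v = (s ^ k) u ∨ h u < h v := by
  induction k generalizing v with
  | zero =>
    left
    by_contra hne
    rw [pow_zero, Matrix.one_apply_ne (fun e => hne (by simp [e]))] at hp
    omega
  | succ k ih =>
    rw [pow_succ, mul_pos_iff'] at hp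
    obtain ⟨w, h1, h2⟩ := hp
    rcases ih w h1 with e | e <;> rcases hc.up _ _ h2 with e' | e'
    · left; rw [e', e, pow_succ', Equiv.Perm.mul_apply]
    · right; rw [e, hc.lev_pow] at e'; exact e'
    · right; rw [e', hc.lev]; exact e
    · right; omega

theorem Cw.pow_apply {A : Matrix V V ℕ} {s : Equiv.Perm V} {h : V → ℕ} (hc : Cw A s h) (k : ℕ)
    (u : V) : (A ^ k) u ((s ^ k) u) = ∏ i ∈ Finset.range k, A ((s ^ i) u) (s ((s ^ i) u)) := by
  induction k with
  | zero => simp
  | succ k ih =>
    rw [pow_succ, Matrix.mul_apply, Finset.sum_eq_single ((s ^ k) u)]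
    · rw [ih, pow_succ', Equiv.Perm.mul_apply, Finset.prod_range_succ]
    · intro w _ hw
      by_contra hne
      have h1 : 0 < (A ^ k) u w := Nat.pos_of_ne_zero fun e => hne (by simp [e])
      have h2 : 0 < A w ((s ^ (k + 1)) u) := Nat.pos_of_ne_zero fun e => hne (by simp [e])
      have h3 := hc.lev_pow (k + 1) u
      rcases hc.up_pow k u w h1 with e | e
      · exact hw e
      · rcases hc.up _ _ h2 with e' | e'
        · have := hc.lev w
          rw [← e'] at this
          omega
        · omega
    · simp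

theorem Cw.pos_pow {A : Matrix V V ℕ} {s : Equiv.Perm V} {h : V → ℕ} (hc : Cw A s h) (k : ℕ)
    (u : V) : 0 < (A ^ k) u ((s ^ k) u) := by
  rw [hc.pow_apply]
  exact Finset.prod_pos fun i _ => hc.pos _

theorem Cw.sub {A : Matrix V V ℕ} {s : Equiv.Perm V} {h : V → ℕ} (hc : Cw A s h) (e : W ≃ V) :
    Cw (A.submatrix e e) (e.trans (s.trans e.symm)) (h ∘ e) :=
  ⟨fun u => by simpa using hc.pos (e u), fun u => by simpa using hc.lev (e u), fun u v hp => by
    rcases hc.up (e u) (e v) hp with h1 | h1
    · left; simp [← h1]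
    · right; exact h1⟩

/-- every vertex has at most one successor from which it can be reached again -/
def UC (A : Matrix V V ℕ) : Prop :=
  ∀ u v w, 0 < A u v → 0 < A u w → Rch A v u → Rch A w u → v = w

theorem rch_map {A : Matrix V V ℕ} {B : Matrix W W ℕ} (f : W → V)
    (hf : ∀ a b, 0 < B a b → Rch A (f a) (f b)) {a b : W} (h : Rch B a b) : Rch A (f a) (f b) := by
  obtain ⟨k, h⟩ := h
  induction k generalizing b with
  | zero =>
    by_cases hab : a = b
    · rw [hab]; exact Rch.refl _ _
    · simp [hab] at h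
  | succ k ih =>
    rw [pow_succ, mul_pos_iff'] at h
    obtain ⟨c, h1, h2⟩ := h
    exact (ih h1).trans (hf _ _ h2)

theorem exists_rec_uc (n : ℕ) : ∀ (V : Type) [Fintype V] [DecidableEq V] (A : Matrix V V ℕ),
    Fintype.card V = n → UC A →
    ∃ (m : ℕ) (C : Matrix (Fin m) (Fin m) ℕ), SSE A C ∧ Rec C ∧ UC C := by
  induction n using Nat.strong_induction_on with
  | _ n ih =>
  intro V _ _ A hn hu
  classical
  by_cases hr : Rec A
  · let e := (Fintype.equivFin V).symm
    refine ⟨_, A.submatrix e e, SSE.sub A e, fun v => ?_, fun u v w h1 h2 h3 h4 => ?_⟩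
    · obtain ⟨u, ⟨k, hk⟩, h2⟩ := hr (e v)
      refine ⟨e.symm u, ⟨k, ?_⟩, by simpa using h2⟩
      rw [sub_pow]
      simpa using hk
    · exact e.injective (hu _ _ _ h1 h2 (rch_map e (fun a b h => Rch.edge h) h3)
        (rch_map e (fun a b h => Rch.edge h) h4))
  · simp only [Rec, not_forall, not_exists, not_and, not_lt, Nat.le_zero] at hr
    obtain ⟨v, hv⟩ := hr
    let R : Matrix V {u // u ≠ v} ℕ := fun a b => if Rch A v a then A a b else if a = b then 1 else 0
    let S : Matrix {u // u ≠ v} V ℕ := fun a b => if Rch A v a then (if a = b then 1 else 0) else A a b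
    have hRS : A = R * S := by
      ext a b
      rw [Matrix.mul_apply]
      by_cases ha : Rch A v a
      · by_cases hb : b = v
        · rw [hb, hv a ha]
          symm
          refine Finset.sum_eq_zero fun c _ => ?_
          simp only [R, S, ha, if_true]
          by_cases hc : Rch A v c
          · simp [hc, c.2]
          · have : A a c = 0 := by
              by_contra hne
              exact hc (ha.trans (Rch.edge (Nat.pos_of_ne_zero hne)))
            simp [this]
        · rw [Finset.sum_eq_single ⟨b, hb⟩]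
          · simp only [R, S, ha, if_true]
            by_cases hc : Rch A v b
            · simp [hc]
            · have : A a b = 0 := by
                by_contra hne
                exact hc (ha.trans (Rch.edge (Nat.pos_of_ne_zero hne)))
              simp [this]
          · intro c _ hcb
            simp only [R, S, ha, if_true]
            by_cases hc : Rch A v c
            · have : (c : V) ≠ b := fun e => hcb (Subtype.ext e)
              simp [hc, this]
            · have : A a c = 0 := by
                by_contra hne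
                exact hc (ha.trans (Rch.edge (Nat.pos_of_ne_zero hne)))
              simp [this]
          · simp
      · have hav : a ≠ v := fun e => ha (e ▸ Rch.refl A v)
        rw [Finset.sum_eq_single ⟨a, hav⟩]
        · simp [R, S, ha]
        · intro c _ hca
          have : a ≠ (c : V) := fun e => hca (Subtype.ext e.symm)
          simp [R, ha, this]
        · simp
    have edge : ∀ a b, 0 < (S * R) a b → 0 < A a b ∨
        (Rch A a b ∧ ¬ Rch A v a ∧ Rch A v b) := by
      intro a b hp
      obtain ⟨c, h1, h2⟩ := mul_pos_iff'.1 hp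
      simp only [S, R] at h1 h2
      by_cases ha : Rch A v a
      · simp only [ha, if_true] at h1
        have hac : (a : V) = c := by
          by_contra hne
          simp [hne] at h1
        rw [← hac] at h2
        simp only [ha, if_true] at h2
        exact Or.inl h2
      · simp only [ha, if_false] at h1
        by_cases hc : Rch A v c
        · simp only [hc, if_true] at h2
          exact Or.inr ⟨(Rch.edge h1).trans (Rch.edge h2), ha, hc.trans (Rch.edge h2)⟩
        · simp only [hc, if_false] at h2
          have hcb : c = b := by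
            by_contra hne
            simp [hne] at h2
          rw [hcb] at h1
          exact Or.inl h1
    have rc : ∀ a b, Rch (S * R) a b → Rch A a b := fun a b h =>
      rch_map Subtype.val (fun a b h => (edge a b h).elim Rch.edge fun h => h.1) h
    have hu' : UC (S * R) := by
      intro a b c h1 h2 h3 h4
      have h5 := rc _ _ h3
      have h6 := rc _ _ h4
      exact Subtype.ext (hu _ _ _ ((edge _ _ h1).resolve_right fun h => h.2.1 (h.2.2.trans h5))
        ((edge _ _ h2).resolve_right fun h => h.2.1 (h.2.2.trans h6)) h5 h6)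
    have hlt : Fintype.card {u // u ≠ v} < n := by
      rw [← hn]
      exact Fintype.card_subtype_lt (x := v) (by simp)
    obtain ⟨m, C, h1, h2⟩ := ih _ hlt _ (S * R) rfl hu'
    exact ⟨m, C, (hRS ▸ SSE.step R S).trans h1, h2⟩

theorem Rec.cw {A : Matrix V V ℕ} (hr : Rec A) (hu : UC A) : ∃ s h, Cw A s h := by
  classical
  have ex : ∀ u, ∃ v, 0 < A u v ∧ Rch A v u := by
    intro u
    obtain ⟨w, ⟨k, h1⟩, h2⟩ := hr u
    have : 0 < (A ^ (k + 1)) u u := by
      rw [pow_succ, mul_pos_iff']
      exact ⟨w, h1, h2⟩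
    rw [pow_succ', mul_pos_iff'] at this
    obtain ⟨v, h3, h4⟩ := this
    exact ⟨v, h3, k, h4⟩
  choose f hf1 hf2 using ex
  have surj : Function.Surjective f := by
    intro v
    obtain ⟨u, h1, h2⟩ := hr v
    exact ⟨u, hu u _ _ (hf1 u) h2 (hf2 u) h1⟩
  let s : Equiv.Perm V := Equiv.ofBijective f (Finite.surjective_iff_bijective.1 surj)
  refine ⟨s, fun v => (Finset.univ.filter fun u => Rch A u v).card, fun u => hf1 u,
    fun u => ?_, fun u v hp => ?_⟩
  · congr 1
    ext w
    simp only [Finset.mem_filter, Finset.mem_univ, true_and]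
    exact ⟨fun h => h.trans (hf2 u), fun h => h.trans (Rch.edge (hf1 u))⟩
  · by_cases hb : Rch A v u
    · exact Or.inl (hu u _ _ hp (hf1 u) hb (hf2 u))
    · right
      apply Finset.card_lt_card
      refine ⟨fun w => ?_, fun hs => hb ?_⟩
      · simp only [Finset.mem_filter, Finset.mem_univ, true_and]
        exact fun h => h.trans (Rch.edge hp)
      · simpa using hs (show v ∈ _ by simpa using Rch.refl A v)

theorem UC.exists_cw {A : Matrix V V ℕ} (hu : UC A) :
    ∃ (m : ℕ) (C : Matrix (Fin m) (Fin m) ℕ) (s : Equiv.Perm (Fin m)) (h : Fin m → ℕ),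
      SSE A C ∧ Cw C s h := by
  obtain ⟨m, C, h1, h2, h3⟩ := exists_rec_uc _ V A rfl hu
  obtain ⟨s, h, h4⟩ := h2.cw h3
  exact ⟨m, C, s, h, h1, h4⟩

theorem Ch.inter {A B T : Matrix V V ℕ} (h : Ch A B T) : A * T = T * B := by
  induction h with
  | refl => simp
  | step _ ih => rw [← Matrix.mul_assoc, ih]; simp only [Matrix.mul_assoc]

theorem Ch.rev {A B T : Matrix V V ℕ} (h : Ch A B T) : ∃ n T', Ch B A T' ∧ T * T' = A ^ n := by
  induction h with
  | refl => exact ⟨0, 1, Ch.refl, by simp⟩
  | @step R S T _ ih =>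
    obtain ⟨n, T', h1, h2⟩ := ih
    refine ⟨n + 1, S * T', (Ch.single S R).trans h1, ?_⟩
    rw [Matrix.mul_assoc, ← Matrix.mul_assoc R, h1.inter, ← Matrix.mul_assoc, h2, pow_succ]

theorem Ch.lift' {P P' T : Matrix U U ℕ} (h : Ch P P' T) (D : Matrix V V ℕ) :
    ∀ Y : Matrix U V ℕ,
      Ch (fromBlocks P (T * Y) 0 D) (fromBlocks P' Y 0 D) (fromBlocks T 0 0 1) := by
  induction h with
  | refl => intro Y; simpa using Ch.refl
  | @step R S T _ ih =>
    intro Y
    have h0 := ih (R * Y)
    have h1 : fromBlocks (R * S) (R * Y) 0 D =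
        fromBlocks R 0 0 (1 : Matrix V V ℕ) * fromBlocks S Y 0 D := by
      simp [fromBlocks_multiply]
    rw [h1] at h0
    have := h0.step
    simpa [fromBlocks_multiply, Matrix.mul_assoc] using this

/-- permutation matrix with multiplicities -/
def WM (s : Equiv.Perm U) (p : U → ℕ) : Matrix U U ℕ := fun u v => if v = s u then p u else 0

theorem WM_mul (s : Equiv.Perm U) (p : U → ℕ) (Z : Matrix U W ℕ) (u : U) (x : W) :
    (WM s p * Z) u x = p u * Z (s u) x := by
  rw [Matrix.mul_apply, Finset.sum_eq_single (s u)]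
  · simp [WM]
  · intro v _ hv
    simp [WM, hv]
  · simp

theorem WM_pow (s : Equiv.Perm U) (p : U → ℕ) (k : ℕ) :
    WM s p ^ k = WM (s ^ k) fun u => ∏ i ∈ Finset.range k, p ((s ^ i) u) := by
  induction k with
  | zero =>
    ext u v
    simp [WM, Matrix.one_apply, eq_comm]
  | succ k ih =>
    ext u v
    rw [pow_succ', WM_mul, ih, pow_succ]
    simp only [WM, Finset.prod_range_succ', pow_succ, Equiv.Perm.mul_apply, pow_zero,
      Equiv.Perm.one_apply]
    split_ifs <;> simp [mul_comm]

theorem cyc_inter {s : Equiv.Perm U} {p p' r : U → ℕ} (hi : ∀ u, p u * r (s u) = r u * p' u)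
    (k : ℕ) (u : U) : (∏ i ∈ Finset.range k, p ((s ^ i) u)) * r ((s ^ k) u) =
      r u * ∏ i ∈ Finset.range k, p' ((s ^ i) u) := by
  induction k with
  | zero => simp
  | succ k ih =>
    rw [Finset.prod_range_succ, Finset.prod_range_succ, pow_succ', Equiv.Perm.mul_apply, mul_assoc,
      hi, ← mul_assoc, ih, mul_assoc]

theorem diag_chain {s : Equiv.Perm U} {l : ℕ} (hs : s ^ l = 1) (p' : U → ℕ) (n : ℕ) :
    ∀ p r : U → ℕ, ∑ u, r u = n → (∀ u, 0 < r u) → (∀ u, p u * r (s u) = r u * p' u) →
    (∀ u, r u ∣ ∏ i ∈ Finset.range l, p' ((s ^ i) u)) → Ch (WM s p) (WM s p') (diagonal r) := by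
  induction n using Nat.strong_induction_on with
  | _ n ih =>
  intro p r hn hr hi hd
  by_cases h1 : ∀ u, r u = 1
  · obtain rfl : r = fun _ => 1 := funext h1
    obtain rfl : p = p' := funext fun u => by simpa using hi u
    simpa using Ch.refl
  push Not at h1
  obtain ⟨u0, hu0⟩ := h1
  obtain ⟨q, hq, hqr⟩ := Nat.exists_prime_and_dvd hu0
  have ex : ∃ u, q ∣ r u ∧ q ∣ p u := by
    by_contra hno
    push Not at hno
    have all : ∀ i, q ∣ r ((s ^ i) u0) := by
      intro i
      induction i with
      | zero => simpa using hqr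
      | succ i ih =>
        rw [pow_succ', Equiv.Perm.mul_apply]
        have : q ∣ p ((s ^ i) u0) * r (s ((s ^ i) u0)) := by
          rw [hi]; exact ih.mul_right _
        exact ((Nat.Prime.dvd_mul hq).1 this).resolve_left (hno _ ih)
    have e1 := cyc_inter hi l u0
    rw [hs, Equiv.Perm.one_apply, mul_comm] at e1
    have e2 := Nat.eq_of_mul_eq_mul_left (hr u0) e1
    have e3 := hqr.trans (hd u0)
    rw [← e2] at e3
    obtain ⟨i, -, hi⟩ := (Prime.dvd_finsetProd_iff hq.prime _).1 e3
    exact hno _ (all i) hi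
  obtain ⟨u, ⟨a, ha⟩, ⟨b, hb⟩⟩ := ex
  let t : U → ℕ := fun v => if v = u then q else 1
  let r1 : U → ℕ := fun v => if v = u then a else r v
  let p0 : U → ℕ := fun v => if v = u then b else p v
  have er : ∀ v, r v = t v * r1 v := fun v => by
    by_cases hv : v = u <;> simp [t, r1, hv, ha]
  have ep : ∀ v, p v = t v * p0 v := fun v => by
    by_cases hv : v = u <;> simp [t, p0, hv, hb]
  have ht : ∀ v, 0 < t v := fun v => by
    by_cases hv : v = u <;> simp [t, hv, hq.pos]
  have hr1 : ∀ v, 0 < r1 v := fun v => Nat.pos_of_mul_pos_left (er v ▸ hr v)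
  have e1 : WM s p = diagonal t * WM s p0 := by
    ext v w
    simp only [diagonal_mul, WM]
    split_ifs <;> simp [ep v]
  have e2 : WM s p0 * diagonal t = WM s fun v => p0 v * t (s v) := by
    ext v w
    simp only [mul_diagonal, WM]
    split_ifs with h <;> simp [h]
  have hlt : ∑ v, r1 v < n := by
    rw [← hn]
    refine Finset.sum_lt_sum (fun v _ => ?_) ⟨u, Finset.mem_univ u, ?_⟩
    · rw [er v]; exact Nat.le_mul_of_pos_left _ (ht v)
    · have := hr1 u
      have := hq.two_le
      simp only [r1, if_true] at *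
      rw [ha]; nlinarith
  have c2 := ih _ hlt (fun v => p0 v * t (s v)) r1 rfl hr1 (fun v => by
    apply Nat.eq_of_mul_eq_mul_left (ht v)
    have := hi v
    rw [ep v, er v, er (s v)] at this
    linarith) fun v => (Dvd.intro_left _ (er v).symm).trans (hd v)
  have c1 := Ch.single (diagonal t) (WM s p0)
  rw [← e1, e2] at c1
  have c3 := c1.trans c2
  rwa [diagonal_mul_diagonal, ← funext er] at c3

end Pool.Agent.MP_993212_an.H12
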