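import Pool.Agent.MP_993212_an.H12.Code

set_option linter.unusedSectionVars false

namespace Pool.Agent.MP_993212_an.H12

open Matrix

def tri (C : LL) (l : ℕ) (h : List ℕ) : Bool :=
  decide (0 < l) && all2 C.length fun u v =>
    if u = v then ent (pw C l) u v == 1
    else (ent (pw C l) u v == 0 || decide (h.getD u 0 < h.getD v 0))

def big (A : LL) (k i : ℕ) : Bool := decide (i < A.length) && decide (2 ≤ ent (pw A k) i i)

def good (C D : LL) (l m : ℕ) (p : List ℕ) (R : LL) : Bool :=
  all1 C.length (fun u => decide (p.getD u 0 < C.length)) &&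
  all2 C.length (fun u v => decide (u = v) || !(p.getD u 0 == p.getD v 0)) &&
  all2 C.length (fun u v => mulE C.length C R u v % m ==
    sm C.length (fun k => ent R u k * ent D (p.getD k 0) (p.getD v 0)) % m) &&
  all1 C.length (fun u => ent R u u % m == 1 % m) &&
  all2 C.length (fun u v => !(ent (pw C l) u v == 0) || ent R u v % m == 0)

def nosol (C D : LL) (l m : ℕ) : Bool :=
  decide (0 < l) && decide (0 < m) && all1 C.length (fun u => decide (0 < ent (pw C l) u u)) &&
  all1 D.length (fun u => decide (0 < ent (pw D l) u u)) &&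
  all2 C.length (fun u v => !(ent (pw C l) u v == 0) ||
    mulE C.length (pw C l) (pw C l) u v == 0) &&
  (!(C.length == D.length) || (lists C.length (List.range C.length)).all fun p =>
    (lists C.length (lists C.length (List.range m))).all fun R => !(good C D l m p R))

abbrev Cert := Bool × LL × LL × List (LL × LL × LL) × List (LL × LL × LL) × ℕ × ℕ × List ℕ

def yes (p : LL × LL) (c : Cert) : Bool :=
  chain p.1 c.2.2.2.1 c.2.1 && chain p.1 c.2.2.2.2.1 p.2 && tri c.2.1 c.2.2.2.2.2.1 c.2.2.2.2.2.2.2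

def no (p : LL × LL) (c : Cert) : Bool :=
  big p.1 c.2.2.2.2.2.1 c.2.2.2.2.2.2.1 || big p.2 c.2.2.2.2.2.1 c.2.2.2.2.2.2.1 ||
  (chain p.1 c.2.2.2.1 c.2.1 && chain p.2 c.2.2.2.2.1 c.2.2.1 &&
    nosol c.2.1 c.2.2.1 c.2.2.2.2.2.1 c.2.2.2.2.2.2.1)

def chk (p : LL × LL) (c : Cert) : Bool := bif c.1 then yes p c else no p c

section Prim
variable {α : Type} [Primcodable α]

@[fun_prop] theorem P.tri {C : α → LL} {l : α → ℕ} {h : α → List ℕ} (hC : Primrec C)
    (hl : Primrec l) (hh : Primrec h) : Primrec fun a => tri (C a) (l a) (h a) := by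
  unfold H12.tri; fun_prop

@[fun_prop] theorem P.big {C : α → LL} {l h : α → ℕ} (hC : Primrec C)
    (hl : Primrec l) (hh : Primrec h) : Primrec fun a => big (C a) (l a) (h a) := by
  unfold H12.big; fun_prop

@[fun_prop] theorem P.good {C D R : α → LL} {l m : α → ℕ} {p : α → List ℕ} (hC : Primrec C)
    (hD : Primrec D) (hl : Primrec l) (hm : Primrec m) (hp : Primrec p) (hR : Primrec R) :
    Primrec fun a => good (C a) (D a) (l a) (m a) (p a) (R a) := by
  unfold H12.good; fun_prop

@[fun_prop] theorem P.nosol {C D : α → LL} {l m : α → ℕ} (hC : Primrec C)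
    (hD : Primrec D) (hl : Primrec l) (hm : Primrec m) :
    Primrec fun a => nosol (C a) (D a) (l a) (m a) := by
  unfold H12.nosol; fun_prop

theorem chk_prim : Primrec fun x : (LL × LL) × Cert => chk x.1 x.2 := by
  unfold chk yes no; fun_prop

end Prim

theorem tri_iff {C : LL} {l : ℕ} {h : List ℕ} : tri C l h = true ↔
    0 < l ∧ Can ((cd C).2 ^ l) 1 (fun u => h.getD u 0) := by
  simp only [tri, Bool.and_eq_true, decide_eq_true_eq, all2_iff, ent_pw]
  refine and_congr_right fun _ => ⟨fun H => ⟨fun u => ?_, fun u => rfl, fun u v hp => ?_⟩,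
    fun H u v => ?_⟩
  · have := H u u
    simp only [if_true, beq_iff_eq] at this
    exact this
  · have := H u v
    by_cases huv : u = v
    · exact Or.inl huv.symm
    · right
      have h1 : ((u : ℕ) = v) = False := by simp [Fin.ext_iff] at huv; simp [huv]
      simp only [h1, if_false, Bool.or_eq_true, beq_iff_eq, decide_eq_true_eq] at this
      rcases this with e | e
      · exact absurd e (Nat.pos_iff_ne_zero.1 hp)
      · exact e
  · by_cases huv : u = v
    · subst huv
      simp only [if_true, beq_iff_eq]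
      exact H.one u
    · have h1 : ((u : ℕ) = v) = False := by simp [Fin.ext_iff] at huv; simp [huv]
      simp only [h1, if_false, Bool.or_eq_true, beq_iff_eq, decide_eq_true_eq]
      rcases Nat.eq_zero_or_pos (((cd C).2 ^ l) u v) with e | e
      · exact Or.inl e
      · rcases H.up u v e with e' | e'
        · exact absurd e'.symm huv
        · exact Or.inr e'

theorem big_iff {A : LL} : (∃ k i, big A k i = true) ↔ ¬ ZE (cd A).2 := by
  constructor
  · rintro ⟨k, i, h⟩ hz
    simp only [big, Bool.and_eq_true, decide_eq_true_eq] at h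
    have h1 := ent_pw A k ⟨i, h.1⟩ ⟨i, h.1⟩
    have h2 := hz.diag_le k ⟨i, h.1⟩
    have h3 := h.2
    simp only at h1
    rw [h1] at h3
    exact absurd (h3.trans h2) (by omega)
  · intro h
    obtain ⟨k, u, h1⟩ := not_ze h
    refine ⟨k, u, ?_⟩
    simp only [big, Bool.and_eq_true, decide_eq_true_eq]
    exact ⟨u.2, by rw [ent_pw A k u u]; exact h1⟩

theorem good_iff {C D : LL} {l m : ℕ} {p : List ℕ} {R : LL} (e : Fin C.length ≃ Fin D.length)
    (he : ∀ u, (e u : ℕ) = p.getD u 0) (hCD : C.length = D.length) :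
    good C D l m p R = true ↔
      SolMod (cd C).2 ((cd D).2.submatrix e e) ((cd C).2 ^ l) m (toM C.length C.length R) := by
  simp only [good, Bool.and_eq_true, decide_eq_true_eq, all2_iff, all1_iff, ent_pw, mulE_eq,
    sm_eq, beq_iff_eq, Bool.or_eq_true, Bool.not_eq_true', beq_eq_false_iff_ne, ← he]
  constructor
  · rintro ⟨⟨⟨-, h1⟩, h2⟩, h3⟩
    exact ⟨h1, h2, fun u v h4 => (h3 u v).resolve_left fun h5 => h5 h4⟩
  · rintro ⟨h1, h2, h3⟩
    refine ⟨⟨⟨⟨fun u => lt_of_lt_of_eq (e u).2 hCD.symm, fun u v => ?_⟩, h1⟩, h2⟩, fun u v => ?_⟩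
    · by_cases huv : u = v
      · exact Or.inl (by rw [huv])
      · exact Or.inr fun h => huv (e.injective (Fin.ext h))
    · by_cases h4 : ((cd C).2 ^ l) u v = 0
      · exact Or.inr (h3 u v h4)
      · exact Or.inl h4

theorem good_equiv {C D : LL} {l m : ℕ} {p : List ℕ} {R : LL} (hCD : C.length = D.length)
    (h : good C D l m p R = true) :
    ∃ e : Fin C.length ≃ Fin D.length, ∀ u, (e u : ℕ) = p.getD u 0 := by
  simp only [good, Bool.and_eq_true, decide_eq_true_eq, all2_iff, all1_iff, Bool.or_eq_true,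
    Bool.not_eq_true', beq_eq_false_iff_ne] at h
  obtain ⟨⟨⟨⟨h1, h2⟩, -⟩, -⟩, -⟩ := h
  let f : Fin C.length → Fin D.length := fun u => ⟨p.getD u 0, hCD ▸ h1 u⟩
  have hf : Function.Injective f := fun u v huv =>
    Fin.ext ((h2 u v).resolve_right fun h => h (congrArg Fin.val huv))
  exact ⟨Equiv.ofBijective f ((Fintype.bijective_iff_injective_and_card f).2 ⟨hf, by simp [hCD]⟩),
    fun u => rfl⟩

theorem nosol_iff {C D : LL} {l m : ℕ} : nosol C D l m = true ↔
    (0 < l ∧ 0 < m ∧ (∀ u, 0 < ((cd C).2 ^ l) u u) ∧ (∀ u, 0 < ((cd D).2 ^ l) u u) ∧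
      (∀ u v, ((cd C).2 ^ l) u v = 0 → ((cd C).2 ^ l * (cd C).2 ^ l) u v = 0)) ∧
    (C.length = D.length → ∀ p ∈ lists C.length (List.range C.length),
      ∀ R ∈ lists C.length (lists C.length (List.range m)), good C D l m p R = false) := by
  simp only [nosol, Bool.and_eq_true, decide_eq_true_eq, all2_iff, all1_iff, ent_pw, mulE_eq,
    beq_iff_eq, Bool.or_eq_true, Bool.not_eq_true', beq_eq_false_iff_ne, pw_eq, List.all_eq_true,
    ← imp_iff_not_or, and_assoc]
  rfl

theorem nosol_sound {C D : LL} {l m : ℕ} (h : nosol C D l m = true) (hz : ZE (cd C).2)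
    (hse : SE (cd C).2 (cd D).2) : False := by
  obtain ⟨⟨h1, h2, h3, h4, h5⟩, h6⟩ := nosol_iff.1 h
  obtain ⟨e, R, h7, h8⟩ := no_sound hz hse h1 h2 h3 h4 h5
  have hCD : C.length = D.length := by
    have := Fintype.card_congr e
    rwa [Fintype.card_fin, Fintype.card_fin] at this
  have hp := mem_lists (List.range C.length) (List.ofFn fun u => (e u : ℕ)) (by
    intro x hx
    obtain ⟨u, rfl⟩ := List.mem_ofFn.1 hx
    exact List.mem_range.2 (hCD ▸ (e u).2))
  have hR := mem_lists (lists C.length (List.range m)) (ofM R) (by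
    intro x hx
    obtain ⟨u, rfl⟩ := List.mem_ofFn.1 hx
    have := mem_lists (List.range m) (List.ofFn (R u)) (by
      intro x hx
      obtain ⟨v, rfl⟩ := List.mem_ofFn.1 hx
      exact List.mem_range.2 (h7 u v))
    rwa [List.length_ofFn] at this)
  rw [List.length_ofFn] at hp
  rw [ofM_len] at hR
  have h9 := h6 hCD _ hp _ hR
  have h10 := (good_iff (l := l) (m := m) (p := List.ofFn fun u => (e u : ℕ)) (R := ofM R) e
    (fun u => by simp [List.getD_eq_getElem?_getD, cd]; rfl) hCD).2 (by erw [toM_ofM R]; exact h8)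
  rw [h9] at h10
  exact Bool.false_ne_true h10

theorem chk_sound {p : LL × LL} {c : Cert} (h : chk p c = true) :
    c.1 = true ↔ ZE (cd p.1).2 ∧ SSE (cd p.1).2 (cd p.2).2 := by
  obtain ⟨A, B⟩ := p
  obtain ⟨t, C, D, c1, c2, l, m, hh⟩ := c
  cases t
  · simp only [chk, cond_false, no, Bool.or_eq_true, Bool.and_eq_true] at h
    simp only [Bool.false_eq_true, false_iff, not_and]
    intro hz hs
    rcases h with (h | h) | ⟨⟨h1, h2⟩, h3⟩
    · exact big_iff.1 ⟨_, _, h⟩ hz
    · exact big_iff.1 ⟨_, _, h⟩ (hs.ze hz)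
    · have a1 := chain_sound h1
      have a2 := chain_sound h2
      exact nosol_sound h3 (a1.ze hz) ((a1.symm.trans hs).trans a2).se
  · simp only [chk, cond_true, yes, Bool.and_eq_true] at h
    obtain ⟨⟨h1, h2⟩, h3⟩ := h
    obtain ⟨h4, h5⟩ := tri_iff.1 h3
    simp only [true_iff]
    exact ⟨(chain_sound h1).symm.ze (ze_of_pow h4 h5), chain_sound h2⟩

theorem can_code {A : LL} (hz : ZE (cd A).2) : ∃ C s h, SSE (cd A).2 (cd C).2 ∧ Can (cd C).2 s h := by
  obtain ⟨m, C, s, h, h1, h2⟩ := hz.exists_can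
  obtain ⟨L, hL⟩ := cd_surj ⟨m, C⟩
  refine ⟨L, ?_⟩
  rw [hL]
  exact ⟨s, h, h1, h2⟩

theorem chk_complete (p : LL × LL) : ∃ c, chk p c = true := by
  obtain ⟨A, B⟩ := p
  by_cases hA : ZE (cd A).2
  swap
  · obtain ⟨k, i, h⟩ := big_iff.2 hA
    exact ⟨(false, [], [], [], [], k, i, []), by simp [chk, no, h]⟩
  by_cases hB : ZE (cd B).2
  swap
  · obtain ⟨k, i, h⟩ := big_iff.2 hB
    exact ⟨(false, [], [], [], [], k, i, []), by simp [chk, no, h]⟩
  obtain ⟨C, s, h, h1, h2⟩ := can_code hA
  obtain ⟨c1, hc1⟩ := chain_complete h1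
  by_cases hs : SSE (cd A).2 (cd B).2
  · obtain ⟨c2, hc2⟩ := chain_complete hs
    have h3 : tri C (orderOf s) (List.ofFn h) = true := by
      rw [tri_iff]
      refine ⟨orderOf_pos s, ?_⟩
      have := h2.pow (pow_orderOf_eq_one s)
      convert this using 2 with u
      simp [List.getD_eq_getElem?_getD]
    exact ⟨(true, C, [], c1, c2, orderOf s, 0, List.ofFn h), by simp [chk, yes, hc1, hc2, h3]⟩
  · obtain ⟨D, s', h', h1', h2'⟩ := can_code hB
    obtain ⟨c2, hc2⟩ := chain_complete h1'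
    obtain ⟨l, m, a1, a2, a3, a4, a5, a6⟩ := no_cert h2 h2'
      fun hh => hs ((h1.trans hh).trans h1'.symm)
    have h3 : nosol C D l m = true := by
      refine nosol_iff.2 ⟨⟨a1, a2, a3, a4, a5⟩, fun hCD p _ R _ => ?_⟩
      by_contra hne
      have hg : good C D l m p R = true := by simpa using hne
      obtain ⟨e, he⟩ := good_equiv hCD hg
      exact a6 e _ ((good_iff e he hCD).1 hg)
    exact ⟨(false, C, D, c1, c2, l, m, []), by simp [chk, no, hc1, hc2, h3]⟩

theorem decide_ze : ComputablePred fun p : LL × LL =>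
    ZE (cd p.1).2 ∧ SSE (cd p.1).2 (cd p.2).2 := by
  obtain ⟨f, hf, hc⟩ := Pool.Agent.MP_c1eef4_lc.H62.C.search chk_prim.to_comp chk_complete
  rw [ComputablePred.computable_iff]
  refine ⟨fun p => (f p).1, Computable.fst.comp hf, ?_⟩
  funext p
  exact propext (chk_sound (hc p)).symm

end Pool.Agent.MP_993212_an.H12
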