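import Pool.Agent.MP_993212_an.H12.Lat

set_option linter.unusedSectionVars false

namespace Pool.Agent.MP_993212_an.H12

open Matrix Filter

variable {U V W : Type} [Fintype U] [Fintype V] [Fintype W]
  [DecidableEq U] [DecidableEq V] [DecidableEq W]

theorem seq_pos {a b : ℕ} (ha : 0 < a) (hba : b ≤ a) {g : ℕ → ℤ}
    (hg : ∀ᶠ k in atTop, b * g k + (a : ℤ) ^ k ≤ g (k + 1)) : ∀ᶠ k in atTop, 0 ≤ g k := by
  obtain ⟨k0, hk⟩ := eventually_atTop.1 hg
  have ha' : (0 : ℤ) < a := by exact_mod_cast ha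
  have ex : ∃ j, 0 ≤ g (k0 + j) := by
    by_contra hno
    push Not at hno
    have key : ∀ j : ℕ, (a : ℤ) ^ j * (a * g k0 + j) ≤ a * g (k0 + j) := by
      intro j
      induction j with
      | zero => simp
      | succ j ih =>
        have h1 := hk (k0 + j) (by omega)
        have h2 := hno j
        have h3 : (a : ℤ) * g (k0 + j) ≤ b * g (k0 + j) :=
          mul_le_mul_of_nonpos_right (by exact_mod_cast hba) h2.le
        have h4 : (a : ℤ) ^ j ≤ (a : ℤ) ^ (k0 + j) := pow_le_pow_right₀ ha' (by omega)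
        rw [← add_assoc, pow_succ]
        push_cast
        nlinarith
    have h1 := key (a * (g k0).natAbs)
    have h2 := hno (a * (g k0).natAbs)
    have h3 : (0 : ℤ) ≤ a * g k0 + (a * (g k0).natAbs : ℕ) := by
      push_cast
      have := neg_abs_le (g k0)
      nlinarith
    have h4 := mul_nonneg (pow_pos ha' (a * (g k0).natAbs)).le h3
    nlinarith
  obtain ⟨j, hj⟩ := ex
  refine eventually_atTop.2 ⟨k0 + j, fun k hk' => ?_⟩
  induction k, hk' using Nat.le_induction with
  | base => exact hj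
  | succ k h1 ih =>
    have h2 := hk k (by omega)
    have h3 := pow_pos ha' k
    have h4 : (0 : ℤ) ≤ b * g k := mul_nonneg (Int.natCast_nonneg _) ih
    omega

theorem Cw.diag_pow {T : Matrix V V ℕ} {h : V → ℕ} (hT : Cw T 1 h) (j : ℕ) (u : V) :
    (T ^ j) u u = T u u ^ j := by
  simpa using hT.pow_apply j u

theorem posW {T T' : Matrix V V ℕ} {h : V → ℕ} (hT : Cw T 1 h) (hT' : Cw T' 1 h)
    (tr : ∀ u v, T u v = 0 → (T * T) u v = 0) (same : ∀ u v, T u v = 0 ↔ T' u v = 0)
    {R : Matrix V V ℤ} (inter : zz T * R = R * zz T') (supp : ∀ u v, T u v = 0 → R u v = 0)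
    (diag : ∀ u, 0 < R u u) : ∃ k, ∀ u y, 0 ≤ (R * zz T' ^ k) u y := by
  let L := Lam T hT.pos tr
  have zT : zz T ∈ L := fun u v e => by simp [zz, e]
  have zT' : zz T' ∈ L := fun u v e => by simp [zz, (same u v).1 e]
  have fL : ∀ k, R * zz T' ^ k ∈ L := fun k => L.mul_mem supp (L.pow_mem zT' k)
  have dd : ∀ u, T u u = T' u u := fun u => by
    have := congrFun (congrFun inter u) u
    rw [diag_mul hT zT supp, diag_mul hT supp zT', mul_comm] at this
    simpa [zz] using mul_left_cancel₀ (diag u).ne' this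
  have fd : ∀ k u, (T u u : ℤ) ^ k ≤ (R * zz T' ^ k) u u := fun k u => by
    rw [diag_mul hT supp (L.pow_mem zT' k), ← zz_pow, dd]
    simp only [zz, map_apply, hT'.diag_pow]
    push_cast
    exact le_mul_of_one_le_left (by positivity) (diag u)
  have key : ∀ n u y, h y - h u = n → ∀ᶠ k in atTop, 0 ≤ (R * zz T' ^ k) u y := by
    intro n
    induction n using Nat.strong_induction_on with
    | _ n ih =>
    intro u y hn
    by_cases huy : y = u
    · subst huy
      exact Eventually.of_forall fun k => le_trans (by positivity) (fd k y)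
    rcases Nat.eq_zero_or_pos (T u y) with e | e
    · exact Eventually.of_forall fun k => (fL k u y e).ge
    have hlt : h u < h y := (hT.up u y e).resolve_left huy
    have mid : ∀ᶠ k in atTop, ∀ x, h u < h x → h x < h y →
        0 ≤ (R * zz T' ^ k) u x ∧ 0 ≤ (R * zz T' ^ k) x y := by
      refine eventually_all.2 fun x => ?_
      by_cases hx : h u < h x ∧ h x < h y
      · filter_upwards [ih _ (by omega) u x rfl, ih _ (by omega) x y rfl] with k a b _ _
        exact ⟨a, b⟩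
      · exact Eventually.of_forall fun k a b => absurd ⟨a, b⟩ hx
    rcases le_total (T y y) (T u u) with hle | hle
    · refine seq_pos (a := T u u) (hT.pos u) hle ?_
      filter_upwards [mid] with k hk
      rw [pow_succ, ← Matrix.mul_assoc, Matrix.mul_apply (M := R * zz T' ^ k),
        ← Finset.add_sum_erase _ _ (Finset.mem_univ y),
        ← Finset.add_sum_erase _ _ (Finset.mem_erase.2 ⟨Ne.symm huy, Finset.mem_univ u⟩)]
      have a1 : 0 ≤ ∑ x ∈ (Finset.univ.erase y).erase u, (R * zz T' ^ k) u x * zz T' x y := by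
        refine Finset.sum_nonneg fun x hx => ?_
        simp only [Finset.mem_erase] at hx
        rcases Nat.eq_zero_or_pos (T u x) with e1 | e1
        · rw [fL k u x e1, zero_mul]
        rcases Nat.eq_zero_or_pos (T' x y) with e2 | e2
        · simp [zz, e2]
        exact mul_nonneg (hk x ((hT.up _ _ e1).resolve_left hx.1)
          ((hT'.up _ _ e2).resolve_left (Ne.symm hx.2.1))).1 (Int.natCast_nonneg _)
      have a2 : (1 : ℤ) ≤ zz T' u y := by
        have : T' u y ≠ 0 := fun e' => by have := (same u y).2 e'; omega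
        simp only [zz, map_apply]
        omega
      have a3 := fd k u
      have a4 : (0 : ℤ) ≤ (T u u : ℤ) ^ k := by positivity
      have a5 : zz T' y y = T y y := by simp [zz, dd]
      rw [a5]
      nlinarith
    · refine seq_pos (a := T y y) (hT.pos y) hle ?_
      filter_upwards [mid] with k hk
      rw [← pow_inter inter (k + 1), pow_succ', Matrix.mul_assoc, pow_inter inter,
        Matrix.mul_apply (M := zz T), ← Finset.add_sum_erase _ _ (Finset.mem_univ u),
        ← Finset.add_sum_erase _ _ (Finset.mem_erase.2 ⟨huy, Finset.mem_univ y⟩)]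
      have a1 : 0 ≤ ∑ x ∈ (Finset.univ.erase u).erase y, zz T u x * (R * zz T' ^ k) x y := by
        refine Finset.sum_nonneg fun x hx => ?_
        simp only [Finset.mem_erase] at hx
        rcases Nat.eq_zero_or_pos (T x y) with e1 | e1
        · rw [fL k x y e1, mul_zero]
        rcases Nat.eq_zero_or_pos (T u x) with e2 | e2
        · simp [zz, e2]
        exact mul_nonneg (Int.natCast_nonneg _) (hk x ((hT.up _ _ e2).resolve_left hx.2.1)
          ((hT.up _ _ e1).resolve_left (Ne.symm hx.1))).2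
      have a2 : (1 : ℤ) ≤ zz T u y := by
        simp only [zz, map_apply]
        omega
      have a3 := fd k y
      have a4 : (0 : ℤ) ≤ (T y y : ℤ) ^ k := by positivity
      have a5 : zz T u u = T u u := by simp [zz]
      rw [a5]
      nlinarith
  exact (eventually_all.2 fun u => eventually_all.2 fun y => key _ u y rfl).exists

theorem cw_of_inter {A B R : Matrix V V ℕ} {s t : Equiv.Perm V} {h h' : V → ℕ} (hA : Cw A s h)
    (cB : Cw B t h') {l : ℕ} (hs : s ^ l = 1) (k2 : A * R = R * B) (dR : ∀ u, 0 < R u u)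
    (supp : ∀ u v, 0 < R u v → 0 < (A ^ l) u v) : Cw B s h := by
  have up : ∀ u v, 0 < B u v → v = s u ∨ h u < h v := by
    intro u v hp
    have a1 : 0 < (R * B) u v := pos_mul_left dR hp
    rw [← k2, mul_pos_iff'] at a1
    obtain ⟨w, a2, a3⟩ := a1
    have a4 : 0 < (A ^ (l + 1)) u v := by
      rw [pow_succ', mul_pos_iff']
      exact ⟨w, a2, supp _ _ a3⟩
    have a3 := hA.up_pow _ _ _ a4
    rwa [pow_succ, hs, one_mul] at a3
  have hle' : ∀ u, h u ≤ h (t u) := fun u => by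
    rcases up u (t u) (cB.pos u) with a | a
    · rw [a, hA.lev]
    · omega
  have heq : ∀ u, h u = h (t u) := by
    have := (Finset.sum_eq_sum_iff_of_le (s := Finset.univ) fun u _ => hle' u).1
      (Equiv.sum_comp t h).symm
    exact fun u => this u (Finset.mem_univ u)
  have hts : ∀ u, t u = s u := fun u => by
    rcases up u (t u) (cB.pos u) with a | a
    · exact a
    · have := heq u
      omega
  exact ⟨fun u => by rw [← hts]; exact cB.pos u, hA.lev, up⟩

theorem Cw.pow {A : Matrix V V ℕ} {s : Equiv.Perm V} {h : V → ℕ} (hA : Cw A s h) {l : ℕ}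
    (hs : s ^ l = 1) : Cw (A ^ l) 1 h :=
  ⟨fun u => by simpa [hs] using hA.pos_pow l u, fun u => rfl,
    fun u v hp => by simpa [hs] using hA.up_pow l u v hp⟩

theorem supp_mono {M : Matrix V V ℕ} (hM : ∀ u, 0 < M u u) (t : ℕ) {u v : V} (hp : 0 < M u v) :
    0 < (M ^ (t + 1)) u v := by
  induction t with
  | zero => simpa using hp
  | succ t ih => rw [pow_succ]; exact pos_mul_right hM ih

theorem supp_closed {M : Matrix V V ℕ} (tr : ∀ u v, M u v = 0 → (M * M) u v = 0) (j : ℕ) :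
    ∀ u v, 0 < (M ^ (j + 1)) u v → 0 < M u v := by
  induction j with
  | zero => intro u v hp; simpa using hp
  | succ j ih =>
    intro u v hp
    rw [pow_succ, mul_pos_iff'] at hp
    obtain ⟨w, a1, a2⟩ := hp
    have a3 : 0 < (M * M) u v := mul_pos_iff'.2 ⟨w, ih _ _ a1, a2⟩
    by_contra hne
    have := tr u v (by omega)
    omega

theorem int_solW {A B : Matrix V V ℕ} {s t : Equiv.Perm V} {h h' : V → ℕ} (hA : Cw A s h)
    (hB : Cw B t h') {l : ℕ} (hl : 0 < l) (hs : s ^ l = 1)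
    (tr : ∀ u v, (A ^ l) u v = 0 → (A ^ l * A ^ l) u v = 0)
    (same : ∀ u v, (A ^ l) u v = 0 ↔ (B ^ l) u v = 0) {R : Matrix V V ℤ}
    (inter : zz A * R = R * zz B) (supp : ∀ u v, (A ^ l) u v = 0 → R u v = 0)
    (diag : ∀ u, ∃ x j : ℕ, x ∣ (A ^ l) u u ^ j ∧ R u u = x) : SSE A B := by
  have hT := hA.pow hs
  have pos' : ∀ u v, 0 < (A ^ l) u v ↔ 0 < (B ^ l) u v := fun u v => by
    rw [Nat.pos_iff_ne_zero, Nat.pos_iff_ne_zero, ne_eq, ne_eq, same]
  have hT' : Cw (B ^ l) 1 h :=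
    ⟨fun u => (pos' _ _).1 (hT.pos u), fun u => rfl, fun u v hp => hT.up u v ((pos' _ _).2 hp)⟩
  choose x j hx1 hx2 using diag
  have xpos : ∀ u, 0 < x u := fun u => Nat.pos_of_dvd_of_pos (hx1 u) (Nat.pow_pos (hT.pos u))
  have inter' : zz (A ^ l) * R = R * zz (B ^ l) := by rw [zz_pow, zz_pow, pow_inter inter]
  obtain ⟨k, hk⟩ := posW hT hT' tr same inter' supp fun u => by
    rw [hx2]; exact_mod_cast xpos u
  let L := Lam (A ^ l) hT.pos tr
  have zT : zz (A ^ l) ∈ L := fun u v e => by simp [zz, e]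
  rw [← pow_inter inter'] at hk
  let R2 : Matrix V V ℕ := fun u v => ((zz (A ^ l) ^ k * R) u v).toNat
  have eR : zz R2 = zz (A ^ l) ^ k * R := by
    ext u v
    simp only [zz, map_apply, R2]
    exact Int.toNat_of_nonneg (hk u v)
  have inter2 : A * R2 = R2 * B := by
    apply zz_inj
    rw [zz_mul, zz_mul, eR, Matrix.mul_assoc, ← inter, ← Matrix.mul_assoc, ← Matrix.mul_assoc,
      ← zz_pow, ← zz_mul, ← zz_mul, ← pow_mul, ← pow_succ, ← pow_succ']
  have diag2 : ∀ u, R2 u u = (A ^ l) u u ^ k * x u := by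
    intro u
    have h1 := congrFun (congrFun eR u) u
    rw [diag_mul hT (L.pow_mem zT k) supp, ← zz_pow, hx2] at h1
    simp only [zz, map_apply, hT.diag_pow] at h1
    exact_mod_cast h1
  have supp2 : ∀ u v, 0 < R2 u v → 0 < (A ^ l) u v := by
    intro u v hp
    by_contra hne
    have h1 := L.mul_mem (L.pow_mem zT k) supp u v (by omega)
    simp [R2, h1] at hp
  set J := k + ∑ u, j u with hJ
  have hs2 : s ^ (l * (J + 1)) = 1 := by rw [pow_mul, hs, one_pow]
  have sA : ∀ u v, 0 < R2 u v → 0 < (A ^ (l * (J + 1))) u v := fun u v hp => by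
    rw [pow_mul]; exact supp_mono hT.pos J (supp2 u v hp)
  have dpos : ∀ u, 0 < R2 u u := fun u => by
    rw [diag2]; exact Nat.mul_pos (Nat.pow_pos (hT.pos u)) (xpos u)
  obtain ⟨k', hk'⟩ := peelW _ V A B R2 s h _ rfl hA (cw_of_inter hA hB hs2 inter2 dpos sA)
    inter2 dpos (fun u => by
      rw [diag2, pow_mul, hT.diag_pow, hJ, Nat.succ_eq_add_one, add_assoc, pow_add]
      refine Nat.mul_dvd_mul_left _ ((hx1 u).trans (pow_dvd_pow _ ?_))
      exact (Finset.single_le_sum (f := j) (fun _ _ => Nat.zero_le _)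
        (Finset.mem_univ u)).trans (Nat.le_succ _))
    (Nat.mul_pos hl (Nat.succ_pos J)) hs2 sA fun u v hp => by
      rw [pow_mul]; exact supp_mono hT'.pos J ((pos' _ _).1 (supp2 u v hp))
  exact hk'.sse

theorem no_certW {A : Matrix V V ℕ} {B : Matrix W W ℕ} {s : Equiv.Perm V} {h : V → ℕ}
    {s' : Equiv.Perm W} {h' : W → ℕ} (hA : Cw A s h) (hB : Cw B s' h') (hn : ¬ SSE A B) :
    ∃ l m, 0 < l ∧ 0 < m ∧ (∀ u, 0 < (A ^ l) u u) ∧ (∀ u, 0 < (B ^ l) u u) ∧
      (∀ u v, (A ^ l) u v = 0 → (A ^ l * A ^ l) u v = 0) ∧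
      (∀ u v, (B ^ l) u v = 0 → (B ^ l * B ^ l) u v = 0) ∧
      ∀ (e : V ≃ W) (R : Matrix V V ℕ), (∀ u v, (A ^ l) u v = 0 ↔ (B ^ l) (e u) (e v) = 0) →
        ¬ SolU A (B.submatrix e e) (A ^ l) m
          (fun u c => ∃ x j, x ∣ (A ^ l) u u ^ j ∧ c = x % m) R := by
  classical
  obtain ⟨N, hN, hs, hs'⟩ := perm_pow_one s s'
  obtain ⟨j, hj, hst⟩ := stable_pow (M := A ^ N) (hA.pow hs).pos
  obtain ⟨j', hj', hst'⟩ := stable_pow (M := B ^ N) (hB.pow hs').pos
  have cl : ∀ {X : Type} [Fintype X] [DecidableEq X] {M : Matrix X X ℕ} (i : ℕ), 0 < i →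
      (∀ u, 0 < M u u) → (∀ u v, M u v = 0 → (M * M) u v = 0) →
      ∀ u v, (M ^ i) u v = 0 → (M ^ i * M ^ i) u v = 0 := by
    intro X _ _ M i hi d t u v e
    obtain ⟨i, rfl⟩ : ∃ i', i = i' + 1 := ⟨i - 1, by omega⟩
    by_contra hne
    rw [← pow_add, ← add_assoc] at hne
    have := supp_mono d i (supp_closed t _ u v (Nat.pos_of_ne_zero hne))
    omega
  rw [← pow_mul] at hst hst'
  have hs1 : s ^ (N * j) = 1 := by rw [pow_mul, hs, one_pow]
  have hs1' : s' ^ (N * j') = 1 := by rw [pow_mul, hs', one_pow]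
  have t1 := cl j' hj' (hA.pow hs1).pos hst
  have t2 := cl j hj (hB.pow hs1').pos hst'
  rw [← pow_mul] at t1 t2
  rw [mul_right_comm] at t2
  have hs2 : s ^ (N * j * j') = 1 := by rw [pow_mul, hs1, one_pow]
  have hs2' : s' ^ (N * j * j') = 1 := by rw [mul_right_comm, pow_mul, hs1', one_pow]
  have hl : 0 < N * j * j' := Nat.mul_pos (Nat.mul_pos hN hj) hj'
  generalize N * j * j' = l at t1 t2 hs2 hs2' hl
  have ex : ∀ e : V ≃ W, ∃ m, 0 < m ∧ ∀ R, (∀ u v, (A ^ l) u v = 0 ↔ (B ^ l) (e u) (e v) = 0) →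
      ¬ SolU A (B.submatrix e e) (A ^ l) m
        (fun u c => ∃ x j, x ∣ (A ^ l) u u ^ j ∧ c = x % m) R := by
    intro e
    by_cases same : ∀ u v, (A ^ l) u v = 0 ↔ (B ^ l) (e u) (e v) = 0
    swap
    · exact ⟨1, one_pos, fun R h => absurd h same⟩
    by_contra hno
    push Not at hno
    obtain ⟨R, h1, h2, h3⟩ := unit_sol (hA.pow hs2) t1 (by rw [← pow_succ, ← pow_succ'])
      fun m hm => (hno m hm).imp fun R h => h.2
    exact hn ((int_solW hA (hB.sub e) hl hs2 t1 (by rw [sub_pow]; exact same) h1 h2 h3).trans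
      (SSE.sub B e).symm)
  choose m hm1 hm2 using ex
  refine ⟨l, ∏ e, m e, hl, Finset.prod_pos fun e _ => hm1 e, (hA.pow hs2).pos, (hB.pow hs2').pos,
    t1, t2, fun e R same hR => hm2 e R same ?_⟩
  have hd := Finset.dvd_prod_of_mem m (Finset.mem_univ e)
  refine ⟨fun u v => Nat.ModEq.of_dvd hd (hR.1 u v), fun u => ?_,
    fun u v e => Nat.mod_eq_zero_of_dvd (hd.trans (Nat.dvd_of_mod_eq_zero (hR.2.2 u v e)))⟩
  obtain ⟨x, j, h1, h2⟩ := hR.2.1 u
  exact ⟨x, j, h1, Nat.ModEq.of_dvd hd h2⟩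

theorem Cw.pow_one_of_diag {A : Matrix V V ℕ} {s : Equiv.Perm V} {h : V → ℕ} (hA : Cw A s h)
    {l : ℕ} (dA : ∀ u, 0 < (A ^ l) u u) : s ^ l = 1 := by
  ext u
  rcases hA.up_pow l u u (dA u) with e | e
  · simpa using e.symm
  · omega

theorem no_soundW {A : Matrix V V ℕ} {B : Matrix W W ℕ} (uA : UC A) (uB : UC B) (hse : SE A B)
    {N m : ℕ} (hN : 0 < N) (hm : 0 < m) (dA : ∀ u, 0 < (A ^ N) u u) (dB : ∀ u, 0 < (B ^ N) u u)
    (tA : ∀ u v, (A ^ N) u v = 0 → (A ^ N * A ^ N) u v = 0)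
    (tB : ∀ u v, (B ^ N) u v = 0 → (B ^ N * B ^ N) u v = 0) :
    ∃ (e : V ≃ W) (R : Matrix V V ℕ), (∀ u v, R u v < m) ∧
      (∀ u v, (A ^ N) u v = 0 ↔ (B ^ N) (e u) (e v) = 0) ∧
      SolU A (B.submatrix e e) (A ^ N) m (fun u c => ∃ x j, x ∣ (A ^ N) u u ^ j ∧ c = x % m) R := by
  obtain ⟨s, h, hA⟩ := (rec_of_diag hN dA).cw uA
  obtain ⟨s', h', hB⟩ := (rec_of_diag hN dB).cw uB
  have hs0 := hA.pow_one_of_diag dA
  have hs0' := hB.pow_one_of_diag dB
  obtain ⟨l, R0, S, hl, h1, h2, h3, h4⟩ := hse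
  set R := R0 * B ^ (N * l - l) with hR
  have hle : l ≤ N * l := Nat.le_mul_of_pos_left _ hN
  have g1 : A ^ (N * l) = R * S := by
    rw [hR, ← pow_inter h3, Matrix.mul_assoc, ← h1, ← pow_add, Nat.sub_add_cancel hle]
  have g2 : B ^ (N * l) = S * R := by
    rw [hR, ← Matrix.mul_assoc, ← h2, ← pow_add, Nat.add_sub_cancel' hle]
  have g3 : A * R = R * B := by
    rw [hR, ← Matrix.mul_assoc, h3, Matrix.mul_assoc, Matrix.mul_assoc, ← pow_succ, ← pow_succ']
  have hs : s ^ (N * l) = 1 := by rw [pow_mul, hs0, one_pow]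
  have hs' : s' ^ (N * l) = 1 := by rw [pow_mul, hs0', one_pow]
  have dA' : ∀ u, 0 < (R * S) u u := fun u => by
    have := hA.pos_pow (N * l) u
    rwa [hs, g1] at this
  have dB' : ∀ u, 0 < (S * R) u u := fun u => by
    have := hB.pos_pow (N * l) u
    rwa [hs', g2] at this
  choose f f1 f2 using fun u => mul_pos_iff'.1 (dA' u)
  choose g g4 g5 using fun u => mul_pos_iff'.1 (dB' u)
  let e : V ≃ W := ⟨f, g, fun u => uniq_w hA hs g1 (f2 u) (f1 u) (g4 _) (g5 _),
    fun w => uniq_w hB hs' g2 (g5 w) (g4 w) (f1 _) (f2 _)⟩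
  obtain ⟨l, rfl⟩ : ∃ l', l = l' + 1 := ⟨l - 1, by omega⟩
  refine ⟨e, fun u v => R u (e v) % m, fun u v => Nat.mod_lt _ hm, fun u v => ?_, fun u v => ?_,
    fun u => ⟨R u (e u), l + 1, ?_, by simp⟩, fun u v e0 => ?_⟩
  · rw [← not_iff_not, ← ne_eq, ← ne_eq, ← Nat.pos_iff_ne_zero, ← Nat.pos_iff_ne_zero]
    constructor
    · intro hp
      apply supp_closed tB (l + 1)
      rw [pow_succ', ← pow_mul, g2, ← Matrix.mul_assoc, ← pow_inter' h4]
      exact mul_pos_iff'.2 ⟨v, mul_pos_iff'.2 ⟨u, f2 u, hp⟩, f1 v⟩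
    · intro hp
      apply supp_closed tA (l + 1)
      rw [pow_succ', ← pow_mul, g1, ← Matrix.mul_assoc, pow_inter g3]
      exact mul_pos_iff'.2 ⟨e v, mul_pos_iff'.2 ⟨e u, f1 u, hp⟩, f2 v⟩
  · have := congrFun (congrFun g3 u) (e v)
    simp only [Matrix.mul_apply] at this ⊢
    rw [Finset.sum_nat_mod, Finset.sum_nat_mod _ _ (fun j => R u (e j) % m * _)]
    simp only [Nat.mul_mod_mod, Nat.mod_mul_mod]
    rw [← Finset.sum_nat_mod, ← Finset.sum_nat_mod, this, ← e.sum_comp]
    rfl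
  · rw [← (hA.pow hs0).diag_pow, ← pow_mul, g1, Matrix.mul_apply, Finset.sum_eq_single (f u)]
    · exact Dvd.intro _ rfl
    · intro w _ hw
      by_contra hne
      exact hw (uniq_w hB hs' g2 (f1 u) (f2 u) (Nat.pos_of_ne_zero fun e => hne (by simp [e]))
        (Nat.pos_of_ne_zero fun e => hne (by simp [e])))
    · simp
  · have : R u (e v) = 0 := by
      by_contra hne
      have a1 : 0 < (R * S) u v := mul_pos_iff'.2 ⟨e v, Nat.pos_of_ne_zero hne, f2 v⟩
      rw [← g1, pow_mul] at a1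
      have := supp_closed tA _ _ _ a1
      omega
    simp [this]

theorem uc_iff {A : Matrix V V ℕ} : UC A ↔ ∃ h : V → ℕ, (∀ u v, 0 < A u v → h u ≤ h v) ∧
    ∀ u v w, 0 < A u v → 0 < A u w → h v = h u → h w = h u → v = w := by
  classical
  constructor
  · intro hu
    have sub : ∀ u v, 0 < A u v → (Finset.univ.filter fun w => Rch A w u) ⊆
        Finset.univ.filter fun w => Rch A w v := fun u v hp w => by
      simp only [Finset.mem_filter, Finset.mem_univ, true_and]
      exact fun h => h.trans (Rch.edge hp)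
    have back : ∀ u v, 0 < A u v → (Finset.univ.filter fun w => Rch A w v).card =
        (Finset.univ.filter fun w => Rch A w u).card → Rch A v u := fun u v hp e => by
      have := Finset.eq_of_subset_of_card_le (sub u v hp) e.le
      have h2 : v ∈ Finset.univ.filter fun w => Rch A w v := by simpa using Rch.refl A v
      rw [← this] at h2
      simpa using h2
    exact ⟨fun v => (Finset.univ.filter fun w => Rch A w v).card,
      fun u v hp => Finset.card_le_card (sub u v hp),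
      fun u v w h1 h2 h3 h4 => hu u v w h1 h2 (back u v h1 h3) (back u w h2 h4)⟩
  · rintro ⟨h, h1, h2⟩ u v w a1 a2 a3 a4
    have mono : ∀ a b, Rch A a b → h a ≤ h b := by
      rintro a b ⟨k, hk⟩
      induction k generalizing b with
      | zero =>
        by_cases hab : a = b
        · rw [hab]
        · simp [hab] at hk
      | succ k ih =>
        rw [pow_succ, mul_pos_iff'] at hk
        obtain ⟨c, b1, b2⟩ := hk
        exact (ih c b1).trans (h1 _ _ b2)
    exact h2 u v w a1 a2 (le_antisymm (mono _ _ a3) (h1 _ _ a1))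
      (le_antisymm (mono _ _ a4) (h1 _ _ a2))

theorem Cw.uc {A : Matrix V V ℕ} {s : Equiv.Perm V} {h : V → ℕ} (hA : Cw A s h) : UC A := by
  refine uc_iff.2 ⟨h, fun u v hp => ?_, fun u v w h1 h2 h3 h4 => ?_⟩
  · rcases hA.up u v hp with e | e
    · rw [e, hA.lev]
    · omega
  · rw [(hA.up u v h1).resolve_right (by omega), (hA.up u w h2).resolve_right (by omega)]

end Pool.Agent.MP_993212_an.H12
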