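import Pool.Agent.MP_993212_an.H12.Code
import Pool.Agent.MP_993212_an.H12.PosW

set_option linter.unusedSectionVars false

namespace Pool.Agent.MP_993212_an.H12

open Matrix

def ucChk (A : LL) (h : List ℕ) : Bool :=
  all2 A.length (fun u v => ent A u v == 0 || decide (h.getD u 0 ≤ h.getD v 0)) &&
  all2 A.length (fun u v => all1 A.length fun w => ent A u v == 0 || ent A u w == 0 ||
    !(h.getD v 0 == h.getD u 0) || !(h.getD w 0 == h.getD u 0) || v == w)

def nuc5 (A : LL) (u v w k j : ℕ) : Bool :=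
  decide (u < A.length) && decide (v < A.length) && decide (w < A.length) &&
  decide (0 < ent A u v) && decide (0 < ent A u w) && decide (0 < ent (pw A k) v u) &&
  decide (0 < ent (pw A j) w u) && !(v == w)

def nuc (A : LL) (c : List ℕ) : Bool :=
  nuc5 A (c.getD 0 0) (c.getD 1 0) (c.getD 2 0) (c.getD 3 0) (c.getD 4 0)

def inH (H : LL) (u c : ℕ) : Bool := (H.getD u []).any fun x => x == c

def closedH (C : LL) (l m : ℕ) (H : LL) : Bool :=
  all1 C.length fun u => inH H u (1 % m) && (H.getD u []).all fun c =>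
    all1 (ent (pw C l) u u + 1) fun d => !(ent (pw C l) u u % d == 0) || inH H u (c * d % m)

def goodW (C D : LL) (l m : ℕ) (H : LL) (p : List ℕ) (R : LL) : Bool :=
  all1 C.length (fun u => decide (p.getD u 0 < C.length)) &&
  all2 C.length (fun u v => decide (u = v) || !(p.getD u 0 == p.getD v 0)) &&
  all2 C.length (fun u v => (ent (pw C l) u v == 0) ==
    (ent (pw D l) (p.getD u 0) (p.getD v 0) == 0)) &&
  all2 C.length (fun u v => mulE C.length C R u v % m ==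
    sm C.length (fun k => ent R u k * ent D (p.getD k 0) (p.getD v 0)) % m) &&
  all1 C.length (fun u => inH H u (ent R u u % m)) &&
  all2 C.length (fun u v => !(ent (pw C l) u v == 0) || ent R u v % m == 0)

def stab (C : LL) (l : ℕ) : Bool :=
  all1 C.length (fun u => decide (0 < ent (pw C l) u u)) &&
  all2 C.length (fun u v => !(ent (pw C l) u v == 0) || mulE C.length (pw C l) (pw C l) u v == 0)

def nosolW (C D : LL) (l m : ℕ) (H : LL) : Bool :=
  decide (0 < l) && decide (0 < m) && stab C l && stab D l && closedH C l m H &&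
  (!(C.length == D.length) || (lists C.length (List.range C.length)).all fun p =>
    (lists C.length (lists C.length (List.range m))).all fun R => !(goodW C D l m H p R))

abbrev CertW := (Bool × LL × LL × LL) × (List (LL × LL × LL) × List (LL × LL × LL)) ×
  (ℕ × ℕ) × List ℕ × List ℕ

def yesW (p : LL × LL) (c : CertW) : Bool :=
  ucChk p.1 c.2.2.2.1 && ucChk p.2 c.2.2.2.2 && chain p.1 c.2.1.1 p.2

def noW (p : LL × LL) (c : CertW) : Bool :=
  nuc p.1 c.2.2.2.1 || nuc p.2 c.2.2.2.1 ||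
  (chain p.1 c.2.1.1 c.1.2.1 && chain p.2 c.2.1.2 c.1.2.2.1 && ucChk c.1.2.1 c.2.2.2.1 &&
    ucChk c.1.2.2.1 c.2.2.2.2 && nosolW c.1.2.1 c.1.2.2.1 c.2.2.1.1 c.2.2.1.2 c.1.2.2.2)

def chkW (p : LL × LL) (c : CertW) : Bool := bif c.1.1 then yesW p c else noW p c

section Prim
variable {α : Type} [Primcodable α]

@[fun_prop] theorem P.ucChk {C : α → LL} {h : α → List ℕ} (hC : Primrec C)
    (hh : Primrec h) : Primrec fun a => ucChk (C a) (h a) := by
  unfold H12.ucChk; fun_prop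

@[fun_prop] theorem P.nuc {C : α → LL} {h : α → List ℕ} (hC : Primrec C)
    (hh : Primrec h) : Primrec fun a => nuc (C a) (h a) := by
  unfold H12.nuc H12.nuc5; fun_prop

@[fun_prop] theorem P.inH {C : α → LL} {l h : α → ℕ} (hC : Primrec C)
    (hl : Primrec l) (hh : Primrec h) : Primrec fun a => inH (C a) (l a) (h a) := by
  unfold H12.inH; fun_prop

@[fun_prop] theorem P.closedH {C H : α → LL} {l m : α → ℕ} (hC : Primrec C)
    (hl : Primrec l) (hm : Primrec m) (hH : Primrec H) :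
    Primrec fun a => closedH (C a) (l a) (m a) (H a) := by
  unfold H12.closedH; fun_prop

@[fun_prop] theorem P.goodW {C D R H : α → LL} {l m : α → ℕ} {p : α → List ℕ} (hC : Primrec C)
    (hD : Primrec D) (hl : Primrec l) (hm : Primrec m) (hH : Primrec H) (hp : Primrec p)
    (hR : Primrec R) : Primrec fun a => goodW (C a) (D a) (l a) (m a) (H a) (p a) (R a) := by
  unfold H12.goodW; fun_prop

@[fun_prop] theorem P.stab {C : α → LL} {l : α → ℕ} (hC : Primrec C)
    (hl : Primrec l) : Primrec fun a => stab (C a) (l a) := by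
  unfold H12.stab; fun_prop

@[fun_prop] theorem P.nosolW {C D H : α → LL} {l m : α → ℕ} (hC : Primrec C)
    (hD : Primrec D) (hl : Primrec l) (hm : Primrec m) (hH : Primrec H) :
    Primrec fun a => nosolW (C a) (D a) (l a) (m a) (H a) := by
  unfold H12.nosolW; fun_prop

theorem chkW_prim : Primrec fun x : (LL × LL) × CertW => chkW x.1 x.2 := by
  unfold chkW yesW noW; fun_prop

end Prim

theorem ucChk_iff {A : LL} : (∃ h, ucChk A h = true) ↔ UC (cd A).2 := by
  rw [uc_iff]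
  simp only [ucChk, Bool.and_eq_true, all2_iff, all1_iff, Bool.or_eq_true, beq_iff_eq,
    decide_eq_true_eq, Bool.not_eq_true', beq_eq_false_iff_ne]
  constructor
  · rintro ⟨h, h1, h2⟩
    refine ⟨fun u => h.getD u 0, fun u v hp => (h1 u v).resolve_left hp.ne',
      fun u v w a1 a2 a3 a4 => Fin.ext ?_⟩
    rcases h2 u v w with (((e | e) | e) | e) | e
    · exact absurd e a1.ne'
    · exact absurd e a2.ne'
    · exact absurd a3 e
    · exact absurd a4 e
    · exact e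
  · rintro ⟨h, h1, h2⟩
    have e : ∀ u : Fin A.length, (List.ofFn h).getD u 0 = h u := fun u => by
      simp [List.getD_eq_getElem?_getD, cd]
    refine ⟨List.ofFn h, fun u v => ?_, fun u v w => ?_⟩
    · rw [e, e]
      rcases Nat.eq_zero_or_pos (ent A u v) with a | a
      · exact Or.inl a
      · exact Or.inr (h1 u v a)
    · rw [e, e, e]
      by_contra hne
      push Not at hne
      obtain ⟨⟨⟨⟨a1, a2⟩, a3⟩, a4⟩, a5⟩ := hne
      exact a5 (congrArg Fin.val (h2 u v w (Nat.pos_of_ne_zero a1) (Nat.pos_of_ne_zero a2) a3 a4))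

theorem nuc_iff {A : LL} : (∃ c, nuc A c = true) ↔ ¬ UC (cd A).2 := by
  constructor
  · rintro ⟨c, h⟩ hu
    simp only [nuc, nuc5, Bool.and_eq_true, decide_eq_true_eq, Bool.not_eq_true',
      beq_eq_false_iff_ne] at h
    obtain ⟨⟨⟨⟨⟨⟨⟨a1, a2⟩, a3⟩, a4⟩, a5⟩, a6⟩, a7⟩, a8⟩ := h
    exact a8 (congrArg Fin.val (hu ⟨_, a1⟩ ⟨_, a2⟩ ⟨_, a3⟩ a4 a5
      ⟨_, (ent_pw A _ ⟨_, a2⟩ ⟨_, a1⟩) ▸ a6⟩ ⟨_, (ent_pw A _ ⟨_, a3⟩ ⟨_, a1⟩) ▸ a7⟩))
  · intro h
    simp only [UC, not_forall] at h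
    obtain ⟨u, v, w, a1, a2, ⟨k, a3⟩, ⟨j, a4⟩, a5⟩ := h
    refine ⟨[u, v, w, k, j], ?_⟩
    change nuc5 A u v w k j = true
    simp only [nuc5, Bool.and_eq_true, decide_eq_true_eq, Bool.not_eq_true', beq_eq_false_iff_ne]
    exact ⟨⟨⟨⟨⟨⟨⟨u.2, v.2⟩, w.2⟩, a1⟩, a2⟩, by rw [ent_pw A k v u]; exact a3⟩,
      by rw [ent_pw A j w u]; exact a4⟩, fun e => a5 (Fin.ext e)⟩

theorem inH_iff {H : LL} {u c : ℕ} : inH H u c = true ↔ c ∈ H.getD u [] := by
  simp [inH]

theorem closedH_iff {C H : LL} {l m : ℕ} : closedH C l m H = true ↔ ∀ u : Fin C.length,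
    1 % m ∈ H.getD u [] ∧ ∀ c ∈ H.getD u [], ∀ d, d ≤ ((cd C).2 ^ l) u u →
      ((cd C).2 ^ l) u u % d = 0 → c * d % m ∈ H.getD u [] := by
  simp only [closedH, all1_iff, Bool.and_eq_true, inH_iff, List.all_eq_true, Bool.or_eq_true,
    Bool.not_eq_true', beq_eq_false_iff_ne, ent_pw, ← imp_iff_not_or]
  exact forall_congr' fun u => and_congr_right fun _ => forall_congr' fun c => forall_congr' fun _ =>
    ⟨fun h d hd => h ⟨d, Nat.lt_succ_of_le hd⟩, fun h d => h d (Nat.le_of_lt_succ d.2)⟩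

theorem goodW_iff {C D H : LL} {l m : ℕ} {p : List ℕ} {R : LL} (e : Fin C.length ≃ Fin D.length)
    (he : ∀ u, (e u : ℕ) = p.getD u 0) (hCD : C.length = D.length) :
    goodW C D l m H p R = true ↔
      (∀ u v, ((cd C).2 ^ l) u v = 0 ↔ ((cd D).2 ^ l) (e u) (e v) = 0) ∧
      SolU (cd C).2 ((cd D).2.submatrix e e) ((cd C).2 ^ l) m (fun u c => c ∈ H.getD u [])
        (toM C.length C.length R) := by
  have bb : ∀ a b : ℕ, (a == 0) = (b == 0) ↔ (a = 0 ↔ b = 0) := fun a b => by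
    rw [Bool.eq_iff_iff, beq_iff_eq, beq_iff_eq]
  simp only [goodW, Bool.and_eq_true, decide_eq_true_eq, all2_iff, all1_iff, ent_pw, mulE_eq,
    sm_eq, beq_iff_eq, Bool.or_eq_true, Bool.not_eq_true', beq_eq_false_iff_ne, ← he, inH_iff,
    bb]
  constructor
  · rintro ⟨⟨⟨⟨-, h0⟩, h1⟩, h2⟩, h3⟩
    exact ⟨h0, h1, h2, fun u v h4 => (h3 u v).resolve_left fun h5 => h5 h4⟩
  · rintro ⟨h0, h1, h2, h3⟩
    refine ⟨⟨⟨⟨⟨fun u => lt_of_lt_of_eq (e u).2 hCD.symm, fun u v => ?_⟩, h0⟩, h1⟩, h2⟩,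
      fun u v => ?_⟩
    · by_cases huv : u = v
      · exact Or.inl (by rw [huv])
      · exact Or.inr fun h => huv (e.injective (Fin.ext h))
    · by_cases h4 : ((cd C).2 ^ l) u v = 0
      · exact Or.inr (h3 u v h4)
      · exact Or.inl h4

theorem goodW_equiv {C D H : LL} {l m : ℕ} {p : List ℕ} {R : LL} (hCD : C.length = D.length)
    (h : goodW C D l m H p R = true) :
    ∃ e : Fin C.length ≃ Fin D.length, ∀ u, (e u : ℕ) = p.getD u 0 := by
  simp only [goodW, Bool.and_eq_true, decide_eq_true_eq, all2_iff, all1_iff, Bool.or_eq_true,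
    Bool.not_eq_true', beq_eq_false_iff_ne] at h
  obtain ⟨⟨⟨⟨⟨h1, h2⟩, -⟩, -⟩, -⟩, -⟩ := h
  let f : Fin C.length → Fin D.length := fun u => ⟨p.getD u 0, hCD ▸ h1 u⟩
  have hf : Function.Injective f := fun u v huv =>
    Fin.ext ((h2 u v).resolve_right fun h => h (congrArg Fin.val huv))
  exact ⟨Equiv.ofBijective f ((Fintype.bijective_iff_injective_and_card f).2 ⟨hf, by simp [hCD]⟩),
    fun u => rfl⟩

theorem stab_iff {C : LL} {l : ℕ} : stab C l = true ↔ (∀ u, 0 < ((cd C).2 ^ l) u u) ∧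
    ∀ u v, ((cd C).2 ^ l) u v = 0 → ((cd C).2 ^ l * (cd C).2 ^ l) u v = 0 := by
  simp only [stab, Bool.and_eq_true, decide_eq_true_eq, all2_iff, all1_iff, ent_pw, mulE_eq,
    beq_iff_eq, Bool.or_eq_true, Bool.not_eq_true', beq_eq_false_iff_ne, pw_eq, ← imp_iff_not_or]
  rfl

theorem nosolW_iff {C D H : LL} {l m : ℕ} : nosolW C D l m H = true ↔
    0 < l ∧ 0 < m ∧ stab C l = true ∧ stab D l = true ∧ closedH C l m H = true ∧
    (C.length = D.length → ∀ p ∈ lists C.length (List.range C.length),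
      ∀ R ∈ lists C.length (lists C.length (List.range m)), goodW C D l m H p R = false) := by
  simp only [nosolW, Bool.and_eq_true, decide_eq_true_eq, Bool.or_eq_true, Bool.not_eq_true',
    beq_eq_false_iff_ne, List.all_eq_true, ← imp_iff_not_or, and_assoc]

theorem nosolW_sound {C D H : LL} {l m : ℕ} (h : nosolW C D l m H = true) (uC : UC (cd C).2)
    (uD : UC (cd D).2) (hse : SE (cd C).2 (cd D).2) : False := by
  obtain ⟨h1, h2, h3, h4, h5, h6⟩ := nosolW_iff.1 h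
  obtain ⟨a1, a2⟩ := stab_iff.1 h3
  obtain ⟨a3, a4⟩ := stab_iff.1 h4
  obtain ⟨e, R, h7, h0, h8⟩ := no_soundW uC uD hse h1 h2 a1 a3 a2 a4
  have hCD : C.length = D.length := by
    have := Fintype.card_congr e
    rwa [Fintype.card_fin, Fintype.card_fin] at this
  have hp := mem_lists (List.range C.length) (List.ofFn fun u => (e u : ℕ)) (by
    intro x hx
    obtain ⟨u, rfl⟩ := List.mem_ofFn.1 hx
    exact List.mem_range.2 (hCD ▸ (e u).2))
  have hR := mem_lists (lists C.length (List.range m)) (ofM R) (by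
    intro x hx
    obtain ⟨u, rfl⟩ := List.mem_ofFn.1 hx
    have := mem_lists (List.range m) (List.ofFn (R u)) (by
      intro x hx
      obtain ⟨v, rfl⟩ := List.mem_ofFn.1 hx
      exact List.mem_range.2 (h7 u v))
    rwa [List.length_ofFn] at this)
  rw [List.length_ofFn] at hp
  rw [ofM_len] at hR
  have h9 := h6 hCD _ hp _ hR
  have cl : ∀ (u : Fin C.length) j x, x ∣ ((cd C).2 ^ l) u u ^ j → x % m ∈ H.getD u [] := by
    intro u j
    obtain ⟨b1, b2⟩ := closedH_iff.1 h5 u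
    induction j with
    | zero =>
      intro x hx
      rw [pow_zero, Nat.dvd_one] at hx
      rw [hx]; exact b1
    | succ j ih =>
      intro x hx
      rw [pow_succ] at hx
      obtain ⟨y, z, hy, hz, rfl⟩ := exists_dvd_and_dvd_of_dvd_mul hx
      have := b2 _ (ih y hy) z (Nat.le_of_dvd (a1 u) hz) (Nat.mod_eq_zero_of_dvd hz)
      rwa [Nat.mod_mul_mod] at this
  have h10 := (goodW_iff (H := H) (l := l) (m := m) (p := List.ofFn fun u => (e u : ℕ))
    (R := ofM R) e (fun u => by simp [List.getD_eq_getElem?_getD, cd]; rfl) hCD).2 ⟨h0, by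
      erw [toM_ofM R]
      refine ⟨h8.1, fun u => ?_, h8.2.2⟩
      obtain ⟨x, j, b1, b2⟩ := h8.2.1 u
      exact b2 ▸ cl u j x b1⟩
  rw [h9] at h10
  exact Bool.false_ne_true h10

theorem chkW_sound {p : LL × LL} {c : CertW} (h : chkW p c = true) :
    c.1.1 = true ↔ UC (cd p.1).2 ∧ UC (cd p.2).2 ∧ SSE (cd p.1).2 (cd p.2).2 := by
  obtain ⟨A, B⟩ := p
  obtain ⟨⟨t, C, D, H⟩, ⟨c1, c2⟩, ⟨l, m⟩, k1, k2⟩ := c
  cases t
  · simp only [chkW, cond_false, noW, Bool.or_eq_true, Bool.and_eq_true] at h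
    simp only [Bool.false_eq_true, false_iff, not_and]
    intro hA hB hs
    rcases h with (h | h) | ⟨⟨⟨⟨h1, h2⟩, h3⟩, h4⟩, h5⟩
    · exact nuc_iff.1 ⟨_, h⟩ hA
    · exact nuc_iff.1 ⟨_, h⟩ hB
    · exact nosolW_sound h5 (ucChk_iff.1 ⟨_, h3⟩) (ucChk_iff.1 ⟨_, h4⟩)
        (((chain_sound h1).symm.trans hs).trans (chain_sound h2)).se
  · simp only [chkW, cond_true, yesW, Bool.and_eq_true] at h
    simp only [true_iff]
    exact ⟨ucChk_iff.1 ⟨_, h.1.1⟩, ucChk_iff.1 ⟨_, h.1.2⟩, chain_sound h.2⟩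

theorem cw_code {A : LL} (hz : UC (cd A).2) : ∃ C s h, SSE (cd A).2 (cd C).2 ∧ Cw (cd C).2 s h := by
  obtain ⟨m, C, s, h, h1, h2⟩ := hz.exists_cw
  obtain ⟨L, hL⟩ := cd_surj ⟨m, C⟩
  refine ⟨L, ?_⟩
  rw [hL]
  exact ⟨s, h, h1, h2⟩

theorem chkW_complete (p : LL × LL) : ∃ c, chkW p c = true := by
  classical
  obtain ⟨A, B⟩ := p
  by_cases hA : UC (cd A).2
  swap
  · obtain ⟨k, h⟩ := nuc_iff.2 hA
    exact ⟨((false, [], [], []), ([], []), (0, 0), k, []), by simp [chkW, noW, h]⟩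
  by_cases hB : UC (cd B).2
  swap
  · obtain ⟨k, h⟩ := nuc_iff.2 hB
    exact ⟨((false, [], [], []), ([], []), (0, 0), k, []), by simp [chkW, noW, h]⟩
  by_cases hs : SSE (cd A).2 (cd B).2
  · obtain ⟨c, hc⟩ := chain_complete hs
    obtain ⟨k1, h1⟩ := ucChk_iff.2 hA
    obtain ⟨k2, h2⟩ := ucChk_iff.2 hB
    exact ⟨((true, [], [], []), (c, []), (0, 0), k1, k2), by simp [chkW, yesW, hc, h1, h2]⟩
  obtain ⟨C, s, h, h1, h2⟩ := cw_code hA
  obtain ⟨c1, hc1⟩ := chain_complete h1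
  obtain ⟨D, s', h', h1', h2'⟩ := cw_code hB
  obtain ⟨c2, hc2⟩ := chain_complete h1'
  obtain ⟨k1, hk1⟩ := ucChk_iff.2 h2.uc
  obtain ⟨k2, hk2⟩ := ucChk_iff.2 h2'.uc
  obtain ⟨l, m, a1, a2, a3, a4, a5, a5', a6⟩ := no_certW h2 h2'
    fun hh => hs ((h1.trans hh).trans h1'.symm)
  let H : LL := List.ofFn fun u : Fin C.length => (List.range m).filter fun c =>
    decide (∃ x j, x ∣ ((cd C).2 ^ l) u u ^ j ∧ c = x % m)
  have hH : ∀ (u : Fin C.length) c, c ∈ H.getD u [] ↔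
      ∃ x j, x ∣ ((cd C).2 ^ l) u u ^ j ∧ c = x % m := by
    intro u c
    have : H.getD u [] = (List.range m).filter fun c =>
        decide (∃ x j, x ∣ ((cd C).2 ^ l) u u ^ j ∧ c = x % m) := by
      simp [H, List.getD_eq_getElem?_getD]
    rw [this, List.mem_filter, decide_eq_true_eq, List.mem_range]
    refine ⟨fun h => h.2, fun h => ⟨?_, h⟩⟩
    obtain ⟨x, j, -, rfl⟩ := h
    exact Nat.mod_lt _ a2
  have h3 : nosolW C D l m H = true := by
    refine nosolW_iff.2 ⟨a1, a2, stab_iff.2 ⟨a3, a5⟩, stab_iff.2 ⟨a4, a5'⟩,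
      closedH_iff.2 fun u => ⟨(hH u _).2 ⟨1, 0, by simp, rfl⟩, fun c hc d _ hd => ?_⟩,
      fun hCD p _ R _ => ?_⟩
    · obtain ⟨x, j, b1, rfl⟩ := (hH u c).1 hc
      refine (hH u _).2 ⟨x * d, j + 1, ?_, by rw [Nat.mod_mul_mod]⟩
      rw [pow_succ]
      exact Nat.mul_dvd_mul b1 (Nat.dvd_of_mod_eq_zero hd)
    · by_contra hne
      have hg : goodW C D l m H p R = true := by simpa using hne
      obtain ⟨e, he⟩ := goodW_equiv hCD hg
      obtain ⟨b1, b2⟩ := (goodW_iff e he hCD).1 hg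
      exact a6 e _ b1 ⟨b2.1, fun u => (hH u _).1 (b2.2.1 u), b2.2.2⟩
  exact ⟨((false, C, D, H), (c1, c2), (l, m), k1, k2), by simp [chkW, noW, hc1, hc2, hk1, hk2, h3]⟩

theorem decide_uc : ComputablePred fun p : LL × LL =>
    UC (cd p.1).2 ∧ UC (cd p.2).2 ∧ SSE (cd p.1).2 (cd p.2).2 := by
  obtain ⟨f, hf, hc⟩ := Pool.Agent.MP_c1eef4_lc.H62.C.search chkW_prim.to_comp chkW_complete
  rw [ComputablePred.computable_iff]
  refine ⟨fun p => (f p).1.1, Computable.fst.comp (Computable.fst.comp hf), ?_⟩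
  funext p
  exact propext (chkW_sound (hc p)).symm

end Pool.Agent.MP_993212_an.H12
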