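import Pool.Agent.MP_993212_an.H12.Can

set_option linter.unusedSectionVars false

namespace Pool.Agent.MP_993212_an.H12

open Matrix

variable {U V W : Type} [Fintype U] [Fintype V] [Fintype W]
  [DecidableEq U] [DecidableEq V] [DecidableEq W]

/-- permutation matrix -/
def PM (s : Equiv.Perm U) : Matrix U U ℕ := fun u v => if v = s u then 1 else 0

theorem PM_mul (s : Equiv.Perm U) (Z : Matrix U W ℕ) (u : U) (x : W) :
    (PM s * Z) u x = Z (s u) x := by
  rw [Matrix.mul_apply, Finset.sum_eq_single (s u)]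
  · simp [PM]
  · intro v _ hv
    simp [PM, hv]
  · simp

theorem PM_pow (s : Equiv.Perm U) (k : ℕ) : PM s ^ k = PM (s ^ k) := by
  induction k with
  | zero =>
    ext u v
    simp [PM, Matrix.one_apply, eq_comm]
  | succ k ih =>
    ext u v
    rw [pow_succ', PM_mul, ih, pow_succ]
    simp [PM]

theorem PM_one : PM (1 : Equiv.Perm U) = 1 := by
  simpa using (PM_pow (1 : Equiv.Perm U) 0).symm

theorem can_fire {s : Equiv.Perm U} {D : Matrix W W ℕ} {r : Equiv.Perm W} {h : W → ℕ}
    (hD : Can D r h) {l : ℕ} (hl : 0 < l) (hs : s ^ l = 1) (hr : r ^ l = 1)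
    {X Y Z : Matrix U W ℕ} (heq : PM s * Z + X = Y + Z * D)
    (good : ∀ u x, 0 < Z u x → ∃ i, 0 < X ((s ^ i) u) ((r ^ i) (r x)))
    (hZ : ∃ u x, 0 < Z u x) : ∃ u x, 0 < Z (s u) x ∧ 0 < Y u x := by
  by_contra hno
  have stuck : ∀ u x, 0 < Z (s u) x → Y u x = 0 := by
    intro u x h1
    by_contra h2
    exact hno ⟨u, x, h1, Nat.pos_of_ne_zero h2⟩
  classical
  have hex : ∃ m, ∃ u x, 0 < Z u x ∧ h x = m := by
    obtain ⟨u, x, h1⟩ := hZ
    exact ⟨_, u, x, h1, rfl⟩
  obtain ⟨u0, x0, h0, hm⟩ := Nat.find_spec hex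
  have hmin : ∀ u x, 0 < Z u x → h x0 ≤ h x := fun u x h1 =>
    hm ▸ Nat.find_min' hex ⟨u, x, h1, rfl⟩
  have key : ∀ u x, h x = h x0 → Z (s u) (r x) + X u (r x) = Y u (r x) + Z u x := by
    intro u x hx
    have := congrFun (congrFun heq u) (r x)
    rw [Matrix.add_apply, Matrix.add_apply, PM_mul, Matrix.mul_apply,
      Finset.sum_eq_single x] at this
    · rw [this, hD.one, mul_one]
    · intro y _ hy
      by_contra hne
      have h1 : 0 < Z u y := Nat.pos_of_ne_zero fun e => hne (by simp [e])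
      have h2 : 0 < D y (r x) := Nat.pos_of_ne_zero fun e => hne (by simp [e])
      rcases hD.up _ _ h2 with e | e
      · exact hy (r.injective e).symm
      · have := hmin u y h1
        rw [hD.lev] at e
        omega
    · simp
  have back : ∀ n u x, h x = h x0 → 0 < Z ((s ^ n) u) ((r ^ n) x) →
      Z ((s ^ n) u) ((r ^ n) x) ≤ Z u x := by
    intro n
    induction n with
    | zero => intro u x _ _; simp
    | succ n ih =>
      intro u x hx hp
      rw [pow_succ, pow_succ, Equiv.Perm.mul_apply, Equiv.Perm.mul_apply] at hp ⊢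
      have h1 := ih (s u) (r x) (by rw [hD.lev, hx]) hp
      have h2 := key u x hx
      rw [stuck u (r x) (by omega)] at h2
      omega
  obtain ⟨i, hi⟩ := good u0 x0 h0
  obtain ⟨l, rfl⟩ : ∃ l', l = l' + 1 := ⟨l - 1, by omega⟩
  set u1 := (s ^ i) u0 with hu1
  set x1 := (r ^ i) x0 with hx1
  have hx : h x1 = h x0 := hD.lev_pow i x0
  have e1 : (r ^ i) (r x0) = r x1 := by
    rw [hx1, ← Equiv.Perm.mul_apply, ← Equiv.Perm.mul_apply, ← pow_succ, ← pow_succ']
  rw [e1] at hi
  have e2 : (s ^ (l * i)) u1 = u0 := by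
    rw [hu1, ← Equiv.Perm.mul_apply, ← pow_add, show l * i + i = (l + 1) * i by ring, pow_mul, hs]
    simp
  have e3 : (r ^ (l * i)) x1 = x0 := by
    rw [hx1, ← Equiv.Perm.mul_apply, ← pow_add, show l * i + i = (l + 1) * i by ring, pow_mul, hr]
    simp
  have h1 := back (l * i) u1 x1 hx (by rw [e2, e3]; exact h0)
  rw [e2, e3] at h1
  have e4 : (s ^ l) (s u1) = u1 := by
    rw [← Equiv.Perm.mul_apply, ← pow_succ, hs]; rfl
  have e5 : (r ^ l) (r x1) = x1 := by
    rw [← Equiv.Perm.mul_apply, ← pow_succ, hr]; rfl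
  have h2 := back l (s u1) (r x1) (by rw [hD.lev, hx]) (by rw [e4, e5]; omega)
  rw [e4, e5] at h2
  have h3 := key u1 x1 hx
  rw [stuck u1 (r x1) (by omega)] at h3
  omega

theorem fire {s : Equiv.Perm U} {D : Matrix W W ℕ} {r : Equiv.Perm W} {h : W → ℕ}
    (hD : Can D r h) {l : ℕ} (hl : 0 < l) (hs : s ^ l = 1) (hr : r ^ l = 1)
    (X : Matrix U W ℕ) (n : ℕ) : ∀ (Y Z : Matrix U W ℕ), ∑ u, ∑ x, Z u x = n →
    PM s * Z + X = Y + Z * D → (∀ u x, 0 < Z u x → ∃ i, 0 < X ((s ^ i) u) ((r ^ i) (r x))) →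
    Ch (fromBlocks (PM s) X 0 D) (fromBlocks (PM s) Y 0 D) (fromBlocks 1 Z 0 1) := by
  induction n with
  | zero =>
    intro Y Z hZ heq _
    have : Z = 0 := by
      ext u x
      simp only [Finset.sum_eq_zero_iff, Finset.mem_univ, true_imp_iff] at hZ
      simpa using hZ u x
    subst this
    simp only [Matrix.mul_zero, zero_add, Matrix.zero_mul, add_zero] at heq
    rw [heq, fromBlocks_one]
    exact Ch.refl
  | succ n ih =>
    intro Y Z hZ heq good
    obtain ⟨u, x, h1, h2⟩ := can_fire hD hl hs hr heq good (by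
      by_contra hno
      have : ∀ u x, Z u x = 0 := fun u x => by
        by_contra h
        exact hno ⟨u, x, Nat.pos_of_ne_zero h⟩
      simp [this] at hZ)
    let F : Matrix U W ℕ := single (s u) x 1
    let Z' : Matrix U W ℕ := fun a b => Z a b - F a b
    let Y' : Matrix U W ℕ := fun a b => Y a b - (PM s * F) a b
    have eZ : Z = Z' + F := by
      ext a b
      simp only [Z', F, Matrix.add_apply, Matrix.single_apply]
      split_ifs with hab
      · obtain ⟨rfl, rfl⟩ := hab
        omega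
      · omega
    have eY : Y = PM s * F + Y' := by
      ext a b
      simp only [Y', F, Matrix.add_apply, PM_mul, Matrix.single_apply]
      split_ifs with hab
      · obtain ⟨h3, rfl⟩ := hab
        obtain rfl := s.injective h3
        omega
      · omega
    have hsum : ∑ a, ∑ b, Z' a b = n := by
      have : ∑ a, ∑ b, F a b = 1 := by
        simp [F, Matrix.single_apply, ite_and]
      rw [eZ] at hZ
      simp only [Matrix.add_apply, Finset.sum_add_distrib] at hZ
      omega
    have heq' : PM s * Z' + X = (Y' + F * D) + Z' * D := by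
      rw [eZ, eY, Matrix.mul_add, Matrix.add_mul] at heq
      ext a b
      have := congrFun (congrFun heq a) b
      simp only [Matrix.add_apply] at this ⊢
      omega
    have h3 := ih _ _ hsum heq' fun a b hab => good a b (by
      simp only [Z'] at hab
      omega)
    have e1 : fromBlocks (PM s) (Y' + F * D) 0 D =
        fromBlocks (1 : Matrix U U ℕ) F 0 1 * fromBlocks (PM s) Y' 0 D := by
      simp [fromBlocks_multiply]
    rw [e1] at h3
    have h4 := h3.step
    rw [eY, eZ]
    simpa [fromBlocks_multiply, add_comm] using h4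

end Pool.Agent.MP_993212_an.H12
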