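import Pool.Agent.MP_993212_an.H12.Cw

set_option linter.unusedSectionVars false

namespace Pool.Agent.MP_993212_an.H12

open Matrix Finset

variable {U V W : Type} [Fintype U] [Fintype V] [Fintype W]
  [DecidableEq U] [DecidableEq V] [DecidableEq W]

/-- weights of the potential -/
def cf (p d : ℕ → ℕ) (l a : ℕ) : ℕ := (∏ i ∈ range a, p i) * ∏ i ∈ Ico (a + 1) l, d i

theorem cf_pos {p d : ℕ → ℕ} (hp : ∀ i, 0 < p i) (hd : ∀ i, 0 < d i) (l a : ℕ) :
    0 < cf p d l a :=
  Nat.mul_pos (prod_pos fun i _ => hp i) (prod_pos fun i _ => hd i)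

theorem cf_tel (p d G : ℕ → ℕ) (l : ℕ) :
    ∑ a ∈ range l, cf p d l a * (p a * G (a + 1)) + (∏ i ∈ range l, d i) * G 0 =
      ∑ a ∈ range l, cf p d l a * (d a * G a) + (∏ i ∈ range l, p i) * G l := by
  let e : ℕ → ℕ := fun a => (∏ i ∈ range a, p i) * (∏ i ∈ Ico a l, d i) * G a
  have h1 : ∑ a ∈ range l, cf p d l a * (p a * G (a + 1)) = ∑ a ∈ range l, e (a + 1) :=
    sum_congr rfl fun a _ => by simp only [cf, e, prod_range_succ]; ring
  have h2 : ∑ a ∈ range l, cf p d l a * (d a * G a) = ∑ a ∈ range l, e a :=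
    sum_congr rfl fun a ha => by
      simp only [cf, e]
      rw [prod_eq_prod_Ico_succ_bot (mem_range.1 ha)]; ring
  have h3 := sum_range_succ e l
  rw [sum_range_succ'] at h3
  rw [h1, h2]
  simpa [e] using h3

/-- enough chips on the orbit of `(u, r x)` -/
def Good (s : Equiv.Perm U) (p : U → ℕ) (r : Equiv.Perm W) (d : W → ℕ) (l : ℕ)
    (X Y : Matrix U W ℕ) (u : U) (x : W) : Prop :=
  (∏ i ∈ range l, d ((r ^ i) x) ≤ ∏ i ∈ range l, p ((s ^ i) u) ∧
    ∑ a ∈ range l, cf (fun i => p ((s ^ i) u)) (fun i => d ((r ^ i) x)) l a * d ((r ^ a) x) <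
    ∑ a ∈ range l, cf (fun i => p ((s ^ i) u)) (fun i => d ((r ^ i) x)) l a *
      (X ((s ^ a) u) ((r ^ (a + 1)) x) + 1)) ∨
  (∏ i ∈ range l, p ((s ^ i) u) ≤ ∏ i ∈ range l, d ((r ^ i) x) ∧
    ∑ a ∈ range l, cf (fun i => p ((s ^ i) u)) (fun i => d ((r ^ i) x)) l a * p ((s ^ a) u) <
    ∑ a ∈ range l, cf (fun i => p ((s ^ i) u)) (fun i => d ((r ^ i) x)) l a *
      (Y ((s ^ a) u) ((r ^ (a + 1)) x) + 1))

theorem can_fireW {s : Equiv.Perm U} {p : U → ℕ} {D : Matrix W W ℕ} {r : Equiv.Perm W} {h : W → ℕ}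
    (hD : Cw D r h) {l : ℕ} (hs : s ^ l = 1) (hr : r ^ l = 1)
    {X Y Z : Matrix U W ℕ} (heq : WM s p * Z + X = Y + Z * D)
    (good : ∀ u x, 0 < Z u x → Good s p r (fun x => D x (r x)) l X Y u x)
    (hZ : ∃ u x, 0 < Z u x) : ∃ u x, 0 < Z (s u) x ∧ p u ≤ Y u x := by
  by_contra hno
  have stuck : ∀ u x, 0 < Z (s u) x → Y u x < p u := by
    intro u x h1
    by_contra h2
    exact hno ⟨u, x, h1, by omega⟩
  classical
  have hex : ∃ m, ∃ u x, 0 < Z u x ∧ h x = m := by
    obtain ⟨u, x, h1⟩ := hZ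
    exact ⟨_, u, x, h1, rfl⟩
  obtain ⟨u0, x0, h0, hm⟩ := Nat.find_spec hex
  have hmin : ∀ u x, 0 < Z u x → h x0 ≤ h x := fun u x h1 =>
    hm ▸ Nat.find_min' hex ⟨u, x, h1, rfl⟩
  have key : ∀ u x, h x = h x0 →
      p u * Z (s u) (r x) + X u (r x) = Y u (r x) + D x (r x) * Z u x := by
    intro u x hx
    have := congrFun (congrFun heq u) (r x)
    rw [Matrix.add_apply, Matrix.add_apply, WM_mul, Matrix.mul_apply,
      Finset.sum_eq_single x] at this
    · rw [this, mul_comm]
    · intro y _ hy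
      by_contra hne
      have h1 : 0 < Z u y := Nat.pos_of_ne_zero fun e => hne (by simp [e])
      have h2 : 0 < D y (r x) := Nat.pos_of_ne_zero fun e => hne (by simp [e])
      rcases hD.up _ _ h2 with e | e
      · exact hy (r.injective e).symm
      · have := hmin u y h1
        rw [hD.lev] at e
        omega
    · simp
  let G : ℕ → ℕ := fun a => Z ((s ^ a) u0) ((r ^ a) x0)
  have key' : ∀ a, p ((s ^ a) u0) * G (a + 1) + X ((s ^ a) u0) ((r ^ (a + 1)) x0) =
      Y ((s ^ a) u0) ((r ^ (a + 1)) x0) + D ((r ^ a) x0) (r ((r ^ a) x0)) * G a := fun a => by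
    simp only [G, pow_succ', Equiv.Perm.mul_apply]
    exact key _ _ (hD.lev_pow a x0)
  have stuck' : ∀ a, 0 < G (a + 1) → Y ((s ^ a) u0) ((r ^ (a + 1)) x0) < p ((s ^ a) u0) :=
    fun a ha => stuck _ _ (by simpa only [G, pow_succ' s, Equiv.Perm.mul_apply] using ha)
  have Gl : G l = G 0 := by simp [G, hs, hr]
  have G0 : 0 < G 0 := by simpa [G] using h0
  have Gpos : ∀ b a, a + b = l → 0 < G a := by
    intro b
    induction b with
    | zero => intro a ha; rw [show a = l by omega, Gl]; exact G0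
    | succ b ih =>
      intro a ha
      have h1 := ih (a + 1) (by omega)
      have h2 := key' a
      have h3 := stuck' a h1
      have h4 : p ((s ^ a) u0) ≤ p ((s ^ a) u0) * G (a + 1) := Nat.le_mul_of_pos_right _ h1
      by_contra h5
      rw [show G a = 0 by omega] at h2
      omega
  rcases good u0 x0 h0 with ⟨g1, g2⟩ | ⟨-, g2⟩
  · have t := cf_tel (fun i => p ((s ^ i) u0)) (fun i => D ((r ^ i) x0) (r ((r ^ i) x0)))
      (fun a => G a - 1) l
    rw [Gl] at t
    have t2 := Nat.mul_le_mul_right (G 0 - 1) g1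
    have t3 : ∑ a ∈ range l, cf (fun i => p ((s ^ i) u0))
        (fun i => D ((r ^ i) x0) (r ((r ^ i) x0))) l a * (p ((s ^ a) u0) * (G (a + 1) - 1)) +
        ∑ a ∈ range l, cf (fun i => p ((s ^ i) u0))
        (fun i => D ((r ^ i) x0) (r ((r ^ i) x0))) l a * (X ((s ^ a) u0) ((r ^ (a + 1)) x0) + 1) ≤
        ∑ a ∈ range l, cf (fun i => p ((s ^ i) u0))
        (fun i => D ((r ^ i) x0) (r ((r ^ i) x0))) l a *
          (D ((r ^ a) x0) (r ((r ^ a) x0)) * (G a - 1)) +
        ∑ a ∈ range l, cf (fun i => p ((s ^ i) u0))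
        (fun i => D ((r ^ i) x0) (r ((r ^ i) x0))) l a * D ((r ^ a) x0) (r ((r ^ a) x0)) := by
      rw [← sum_add_distrib, ← sum_add_distrib]
      refine sum_le_sum fun a ha => ?_
      rw [← mul_add, ← mul_add]
      apply Nat.mul_le_mul_left
      have ha' := mem_range.1 ha
      have h1 := Gpos (l - (a + 1)) (a + 1) (by omega)
      have h1' := Gpos (l - a) a (by omega)
      have h2 := key' a
      have h3 := stuck' a h1
      obtain ⟨b, hb⟩ : ∃ b, G (a + 1) = b + 1 := ⟨G (a + 1) - 1, by omega⟩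
      obtain ⟨c, hc⟩ : ∃ c, G a = c + 1 := ⟨G a - 1, by omega⟩
      rw [hb, hc] at h2 ⊢
      simp only [Nat.add_sub_cancel, mul_add, mul_one] at h2 ⊢
      omega
    simp only at t t2 g2
    omega
  · refine absurd g2 (not_lt.2 (sum_le_sum fun a ha => Nat.mul_le_mul_left _ ?_))
    exact stuck' a (Gpos (l - (a + 1)) (a + 1) (by have := mem_range.1 ha; omega))

theorem fireW {s : Equiv.Perm U} {p : U → ℕ} {D : Matrix W W ℕ} {r : Equiv.Perm W} {h : W → ℕ}
    (hD : Cw D r h) {l : ℕ} (hs : s ^ l = 1) (hr : r ^ l = 1)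
    (X : Matrix U W ℕ) (n : ℕ) : ∀ (Y Z : Matrix U W ℕ), ∑ u, ∑ x, Z u x = n →
    WM s p * Z + X = Y + Z * D →
    (∀ u x, 0 < Z u x → Good s p r (fun x => D x (r x)) l X Y u x) →
    Ch (fromBlocks (WM s p) X 0 D) (fromBlocks (WM s p) Y 0 D) (fromBlocks 1 Z 0 1) := by
  induction n with
  | zero =>
    intro Y Z hZ heq _
    have : Z = 0 := by
      ext u x
      simp only [Finset.sum_eq_zero_iff, Finset.mem_univ, true_imp_iff] at hZ
      simpa using hZ u x
    subst this
    simp only [Matrix.mul_zero, zero_add, Matrix.zero_mul, add_zero] at heq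
    rw [heq, fromBlocks_one]
    exact Ch.refl
  | succ n ih =>
    intro Y Z hZ heq good
    obtain ⟨u, x, h1, h2⟩ := can_fireW hD hs hr heq good (by
      by_contra hno
      have : ∀ u x, Z u x = 0 := fun u x => by
        by_contra h
        exact hno ⟨u, x, Nat.pos_of_ne_zero h⟩
      simp [this] at hZ)
    let F : Matrix U W ℕ := single (s u) x 1
    let Z' : Matrix U W ℕ := fun a b => Z a b - F a b
    let Y' : Matrix U W ℕ := fun a b => Y a b - (WM s p * F) a b
    have eZ : Z = Z' + F := by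
      ext a b
      simp only [Z', F, Matrix.add_apply, Matrix.single_apply]
      split_ifs with hab
      · obtain ⟨rfl, rfl⟩ := hab
        omega
      · omega
    have eY : Y = WM s p * F + Y' := by
      ext a b
      simp only [Y', F, Matrix.add_apply, WM_mul, Matrix.single_apply]
      split_ifs with hab
      · obtain ⟨h3, rfl⟩ := hab
        obtain rfl := s.injective h3
        omega
      · omega
    have hsum : ∑ a, ∑ b, Z' a b = n := by
      have : ∑ a, ∑ b, F a b = 1 := by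
        simp [F, Matrix.single_apply, ite_and]
      rw [eZ] at hZ
      simp only [Matrix.add_apply, Finset.sum_add_distrib] at hZ
      omega
    have heq' : WM s p * Z' + X = (Y' + F * D) + Z' * D := by
      rw [eZ, eY, Matrix.mul_add, Matrix.add_mul] at heq
      ext a b
      have := congrFun (congrFun heq a) b
      simp only [Matrix.add_apply] at this ⊢
      omega
    have h3 := ih _ _ hsum heq' fun a b hab => by
      rcases good a b (by simp only [Z'] at hab; omega) with g | ⟨g1, g2⟩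
      · exact Or.inl g
      · refine Or.inr ⟨g1, g2.trans_le ?_⟩
        have t := cf_tel (fun i => p ((s ^ i) a)) (fun i => D ((r ^ i) b) (r ((r ^ i) b)))
          (fun i => F ((s ^ i) a) ((r ^ i) b)) l
        simp only [hs, hr, pow_zero] at t
        have t2 := Nat.mul_le_mul_right (F ((1 : Equiv.Perm U) a) ((1 : Equiv.Perm W) b)) g1
        have t3 : ∑ i ∈ range l, cf (fun i => p ((s ^ i) a))
            (fun i => D ((r ^ i) b) (r ((r ^ i) b))) l i * (Y ((s ^ i) a) ((r ^ (i + 1)) b) + 1) +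
            ∑ i ∈ range l, cf (fun i => p ((s ^ i) a))
            (fun i => D ((r ^ i) b) (r ((r ^ i) b))) l i *
              (D ((r ^ i) b) (r ((r ^ i) b)) * F ((s ^ i) a) ((r ^ i) b)) ≤
            ∑ i ∈ range l, cf (fun i => p ((s ^ i) a))
            (fun i => D ((r ^ i) b) (r ((r ^ i) b))) l i *
              ((Y' + F * D) ((s ^ i) a) ((r ^ (i + 1)) b) + 1) +
            ∑ i ∈ range l, cf (fun i => p ((s ^ i) a))
            (fun i => D ((r ^ i) b) (r ((r ^ i) b))) l i *
              (p ((s ^ i) a) * F ((s ^ (i + 1)) a) ((r ^ (i + 1)) b)) := by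
          rw [← sum_add_distrib, ← sum_add_distrib]
          refine sum_le_sum fun i _ => ?_
          rw [← mul_add, ← mul_add]
          apply Nat.mul_le_mul_left
          have a1 := congrFun (congrFun eY ((s ^ i) a)) ((r ^ (i + 1)) b)
          rw [Matrix.add_apply, WM_mul] at a1
          have a2 := le_mul_apply F D ((s ^ i) a) ((r ^ i) b) (r ((r ^ i) b))
          rw [mul_comm] at a2
          rw [Matrix.add_apply, a1]
          simp only [pow_succ', Equiv.Perm.mul_apply]
          omega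
        simp only at t2 ⊢
        omega
    have e1 : fromBlocks (WM s p) (Y' + F * D) 0 D =
        fromBlocks (1 : Matrix U U ℕ) F 0 1 * fromBlocks (WM s p) Y' 0 D := by
      simp [fromBlocks_multiply]
    rw [e1] at h3
    have h4 := h3.step
    rw [eY, eZ]
    simpa [fromBlocks_multiply, add_comm] using h4

theorem cyc_shift {r : Equiv.Perm W} {d : W → ℕ} (hd : ∀ x, 0 < d x) {l : ℕ} (hr : r ^ l = 1)
    (a : ℕ) (x : W) : ∏ i ∈ range l, d ((r ^ i) ((r ^ a) x)) = ∏ i ∈ range l, d ((r ^ i) x) := by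
  induction a with
  | zero => simp
  | succ a ih =>
    rw [← ih]
    have h1 := prod_range_succ (fun i => d ((r ^ i) ((r ^ a) x))) l
    rw [prod_range_succ', hr, pow_zero] at h1
    simp only [pow_succ' r a, Equiv.Perm.mul_apply]
    simp only [pow_succ, Equiv.Perm.mul_apply] at h1
    exact Nat.eq_of_mul_eq_mul_right (hd _) h1

/-- a sufficient condition for `Good` -/
theorem big_side {c d X : ℕ → ℕ} {l a t : ℕ} (hc : ∀ i, 0 < c i) (hd : ∀ i, 0 < d i)
    (ha : a < l) (hX : (∏ i ∈ range l, d i) ^ t ≤ X a) (ht : ∑ i ∈ range l, c i * d i ≤ t) :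
    ∑ i ∈ range l, c i * d i < ∑ i ∈ range l, c i * (X i + 1) := by
  have hp : 0 < ∏ i ∈ range l, d i := prod_pos fun i _ => hd i
  by_cases h1 : ∏ i ∈ range l, d i = 1
  · have h2 : ∀ i ∈ range l, d i = 1 := fun i hi =>
      Nat.dvd_one.1 (h1 ▸ dvd_prod_of_mem d hi)
    rw [h1, one_pow] at hX
    refine sum_lt_sum (fun i hi => Nat.mul_le_mul_left _ (by rw [h2 i hi]; omega))
      ⟨a, mem_range.2 ha, ?_⟩
    rw [h2 a (mem_range.2 ha)]
    exact Nat.mul_lt_mul_of_pos_left (by omega) (hc a)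
  · have h2 : 2 ^ t ≤ (∏ i ∈ range l, d i) ^ t := Nat.pow_le_pow_left (by omega) t
    have h3 : t < 2 ^ t := Nat.lt_two_pow_self
    have h4 := single_le_sum (f := fun i => c i * (X i + 1)) (fun _ _ => Nat.zero_le _)
      (mem_range.2 ha)
    have h5 : X a + 1 ≤ c a * (X a + 1) := Nat.le_mul_of_pos_left _ (hc a)
    omega

end Pool.Agent.MP_993212_an.H12
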