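import Pool.Agent.MP_993212_an.H12.Nec

set_option linter.unusedSectionVars false

namespace Pool.Agent.MP_993212_an.H12

open Matrix

variable {U V W : Type} [Fintype U] [Fintype V] [Fintype W]
  [DecidableEq U] [DecidableEq V] [DecidableEq W]

theorem can_of_inter {A B R : Matrix V V ℕ} {s t : Equiv.Perm V} {h h' : V → ℕ} (hA : Can A s h)
    (cB : Can B t h') {l : ℕ} (hs : s ^ l = 1) (k2 : A * R = R * B) (dR : ∀ u, R u u = 1)
    (supp : ∀ u v, 0 < R u v → 0 < (A ^ l) u v) : Can B s h := by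
  have up : ∀ u v, 0 < B u v → v = s u ∨ h u < h v := by
    intro u v hp
    have a1 : 0 < (R * B) u v := pos_mul_left (fun u => by rw [dR]; exact one_pos) hp
    rw [← k2, mul_pos_iff'] at a1
    obtain ⟨w, a2, a3⟩ := a1
    have a4 : 0 < (A ^ (l + 1)) u v := by
      rw [pow_succ', mul_pos_iff']
      exact ⟨w, a2, supp _ _ a3⟩
    have a3 := hA.up_pow _ _ _ a4
    rwa [pow_succ, hs, one_mul] at a3
  have hle' : ∀ u, h u ≤ h (t u) := fun u => by
    rcases up u (t u) (by rw [cB.one]; exact one_pos) with a | a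
    · rw [a, hA.lev]
    · omega
  have heq : ∀ u, h u = h (t u) := by
    have := (Finset.sum_eq_sum_iff_of_le (s := Finset.univ) fun u _ => hle' u).1
      (Equiv.sum_comp t h).symm
    exact fun u => this u (Finset.mem_univ u)
  have hts : ∀ u, t u = s u := fun u => by
    rcases up u (t u) (by rw [cB.one]; exact one_pos) with a | a
    · exact a
    · have := heq u
      omega
  exact ⟨fun u => by rw [← hts, cB.one], hA.lev, up⟩

theorem Can.pow {A : Matrix V V ℕ} {s : Equiv.Perm V} {h : V → ℕ} (hA : Can A s h) {l : ℕ}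
    (hs : s ^ l = 1) : Can (A ^ l) 1 h :=
  ⟨fun u => by simpa [hs] using hA.one_pow l u, fun u => rfl,
    fun u v hp => by simpa [hs] using hA.up_pow l u v hp⟩

theorem slow_growth {T : Matrix V V ℕ} {h : V → ℕ} (hT : Can T 1 h) (K : ℕ) :
    ∃ j, ∀ u v, K * (T ^ j * (Matrix.of fun a b => if a = b then 0 else T a b)) u v ≤
      (T ^ j) u v := by
  set N : Matrix V V ℕ := Matrix.of fun a b => if a = b then 0 else T a b with hN
  have eT : T = N + 1 := by
    ext a b
    by_cases hab : a = b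
    · subst hab
      simpa [hN] using hT.one a
    · simp [hN, hab]
  have nil : ∀ r u v, 0 < (N ^ r) u v → h u + r ≤ h v := by
    intro r
    induction r with
    | zero =>
      intro u v hp
      by_cases huv : u = v
      · simp [huv]
      · simp [huv] at hp
    | succ r ih =>
      intro u v hp
      rw [pow_succ, mul_pos_iff'] at hp
      obtain ⟨w, h1, h2⟩ := hp
      have h3 := ih u w h1
      by_cases hw : w = v
      · simp [hN, hw] at h2
      · simp only [hN, of_apply, hw, if_false] at h2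
        rcases hT.up _ _ h2 with e | e
        · exact absurd e.symm hw
        · omega
  set H := ∑ v, h v with hH
  refine ⟨H + K * H, fun u v => ?_⟩
  set j := H + K * H with hj
  have e1 : T ^ j = ∑ r ∈ Finset.range (j + 1), j.choose r • N ^ r := by
    rw [eT, (Commute.one_right N).add_pow]
    simp [nsmul_eq_mul, Nat.cast_comm]
  have e2 : (T ^ j) u v = ∑ r ∈ Finset.range (j + 2), j.choose r * (N ^ r) u v := by
    rw [Finset.sum_range_succ, Nat.choose_succ_self, zero_mul, add_zero, e1, Matrix.sum_apply]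
    simp
  have e3 : (T ^ j * N) u v = ∑ r ∈ Finset.range (j + 1), j.choose r * (N ^ (r + 1)) u v := by
    rw [e1, Finset.sum_mul, Matrix.sum_apply]
    refine Finset.sum_congr rfl fun r _ => ?_
    rw [smul_mul_assoc, ← pow_succ, Matrix.smul_apply, smul_eq_mul]
  rw [e2, e3, Finset.sum_range_succ' _ (j + 1), Finset.mul_sum]
  refine le_trans (Finset.sum_le_sum fun r _ => ?_) (Nat.le_add_right _ _)
  rcases Nat.eq_zero_or_pos ((N ^ (r + 1)) u v) with e | e
  · simp [e]
  · have h1 := nil _ _ _ e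
    have h2 : h v ≤ H := Finset.single_le_sum (f := h) (fun _ _ => Nat.zero_le _) (Finset.mem_univ v)
    rw [← mul_assoc]
    apply Nat.mul_le_mul_right
    have h3 := Nat.choose_succ_right_eq j r
    have h4 : K * (r + 1) ≤ j - r := by
      have : K * (r + 1) ≤ K * H := Nat.mul_le_mul_left _ (by omega)
      omega
    apply Nat.le_of_mul_le_mul_right _ (Nat.succ_pos r)
    calc K * j.choose r * (r + 1) = j.choose r * (K * (r + 1)) := by ring
      _ ≤ j.choose r * (j - r) := Nat.mul_le_mul_left _ h4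
      _ = _ := h3.symm

/-- the integer matrix of a nonnegative one -/
def zz (A : Matrix U V ℕ) : Matrix U V ℤ := A.map (Nat.cast)

theorem zz_mul (A : Matrix U V ℕ) (B : Matrix V W ℕ) : zz (A * B) = zz A * zz B := by
  ext a b
  simp [zz, Matrix.mul_apply]

theorem zz_pow (A : Matrix V V ℕ) (k : ℕ) : zz (A ^ k) = zz A ^ k := by
  induction k with
  | zero =>
    ext a b
    simp [zz, Matrix.one_apply]
  | succ k ih => rw [pow_succ, pow_succ, zz_mul, ih]

theorem zz_inj {A B : Matrix U V ℕ} (h : zz A = zz B) : A = B := by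
  ext a b
  simpa [zz] using congrFun (congrFun h a) b

theorem int_sol_sse {A B : Matrix V V ℕ} {s t : Equiv.Perm V} {h h' : V → ℕ} (hA : Can A s h)
    (hB : Can B t h') {l : ℕ} (hl : 0 < l) (hs : s ^ l = 1) {R : Matrix V V ℤ}
    (inter : zz A * R = R * zz B) (diag : ∀ u, R u u = 1)
    (supp : ∀ u v, (A ^ l) u v = 0 → R u v = 0) : SSE A B := by
  have hT := hA.pow hs
  set T := A ^ l with hTd
  obtain ⟨j, hj⟩ := slow_growth hT (∑ a, ∑ b, (R a b).natAbs)
  set K := ∑ a, ∑ b, (R a b).natAbs with hK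
  have hK' : ∀ a b, (R a b).natAbs ≤ K := fun a b =>
    (Finset.single_le_sum (f := fun b => (R a b).natAbs) (fun _ _ => Nat.zero_le _)
      (Finset.mem_univ b)).trans (Finset.single_le_sum (f := fun a => ∑ b, (R a b).natAbs)
      (fun _ _ => Nat.zero_le _) (Finset.mem_univ a))
  have pos : ∀ u v, 0 ≤ (zz (T ^ j) * R) u v := by
    intro u v
    have h1 : ((K * (T ^ j * (Matrix.of fun a b => if a = b then 0 else T a b)) u v : ℕ) : ℤ) ≤
      ((T ^ j) u v : ℕ) := by exact_mod_cast hj u v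
    have h2 : (((T ^ j) u v : ℕ) : ℤ) = ∑ w, ((T ^ j) u w : ℤ) * (if w = v then 1 else 0) := by
      simp
    rw [h2, Matrix.mul_apply] at h1
    push_cast at h1
    rw [Finset.mul_sum, ← sub_nonneg, ← Finset.sum_sub_distrib] at h1
    rw [Matrix.mul_apply]
    refine h1.trans (Finset.sum_le_sum fun w _ => ?_)
    simp only [zz, map_apply, of_apply]
    have h3 : (0 : ℤ) ≤ ((T ^ j) u w : ℕ) := Int.natCast_nonneg _
    by_cases hw : w = v
    · simp [hw, diag]
    · simp only [hw, if_false]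
      rcases Nat.eq_zero_or_pos (T w v) with e | e
      · simp [e, supp _ _ e]
      · have h4 := hK' w v
        have h5 : -(K : ℤ) ≤ R w v := by omega
        have h6 : (1 : ℤ) ≤ (T w v : ℕ) := by exact_mod_cast e
        have h7 : (0 : ℤ) ≤ K := Int.natCast_nonneg _
        have h8 : -((K : ℤ) * (T w v : ℕ)) ≤ R w v := by nlinarith
        nlinarith
  let R2 : Matrix V V ℕ := fun u v => ((zz (T ^ j) * R) u v).toNat
  have eR : zz R2 = zz (T ^ j) * R := by
    ext u v
    simp only [zz, map_apply, R2]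
    exact Int.toNat_of_nonneg (pos u v)
  have inter2 : A * R2 = R2 * B := by
    apply zz_inj
    rw [zz_mul, zz_mul, eR, Matrix.mul_assoc, ← inter, ← Matrix.mul_assoc, ← Matrix.mul_assoc,
      ← zz_mul, ← zz_mul, hTd, ← pow_mul, ← pow_succ, ← pow_succ']
  have diag2 : ∀ u, R2 u u = 1 := by
    intro u
    have h1 : (zz (T ^ j) * R) u u = 1 := by
      rw [Matrix.mul_apply, Finset.sum_eq_single u]
      · have := hT.one_pow j u
        simp only [one_pow, Equiv.Perm.one_apply] at this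
        simp [zz, this, diag]
      · intro w _ hw
        by_contra hne
        have h1 : 0 < (T ^ j) u w := Nat.pos_of_ne_zero fun e => hne (by simp [zz, e])
        have h2 : 0 < T w u := Nat.pos_of_ne_zero fun e => hne (by simp [supp _ _ e])
        rcases hT.up_pow _ _ _ h1 with e | e
        · exact hw (by simpa using e)
        · rcases hT.up _ _ h2 with e' | e'
          · exact hw e'.symm
          · omega
      · simp
    simp [R2, h1]
  have supp2 : ∀ u v, 0 < R2 u v → 0 < (A ^ (l * (j + 1))) u v := by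
    intro u v hp
    have h1 : (zz (T ^ j) * R) u v ≠ 0 := fun e => by simp [R2, e] at hp
    rw [Matrix.mul_apply] at h1
    obtain ⟨w, -, hw⟩ := Finset.exists_ne_zero_of_sum_ne_zero h1
    rw [pow_mul, ← hTd, pow_succ, mul_pos_iff']
    exact ⟨w, Nat.pos_of_ne_zero fun e => hw (by simp [zz, e]),
      Nat.pos_of_ne_zero fun e => hw (by simp [supp _ _ e])⟩
  have hs2 : s ^ (l * (j + 1)) = 1 := by rw [pow_mul, hs, one_pow]
  obtain ⟨k, -, hk⟩ := peel _ V A B R2 s h _ rfl hA (can_of_inter hA hB hs2 inter2 diag2 supp2)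
    inter2 diag2 (Nat.mul_pos hl (Nat.succ_pos j)) hs2 supp2
  exact hk.sse

theorem eq_zero_of_div {Q : Type} [AddCommGroup Q] [Module.Finite ℤ Q] (q : Q)
    (hq : ∀ m : ℕ, 0 < m → ∃ y, q = (m : ℤ) • y) : q = 0 := by
  have key : ∀ t : ℤ, t ≠ 0 → ∃ c : ℤ, (c * t) • q = q := by
    intro t ht
    have : q ∈ (⨅ i : ℕ, Ideal.span {t} ^ i • ⊤ : Submodule ℤ Q) := by
      rw [Submodule.mem_iInf]
      intro i
      obtain ⟨y, hy⟩ := hq (t.natAbs ^ i) (by positivity)
      rw [hy]
      refine Submodule.smul_mem_smul ?_ Submodule.mem_top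
      rw [Ideal.span_singleton_pow, Ideal.mem_span_singleton]
      push_cast
      exact pow_dvd_pow_of_dvd (self_dvd_abs t) i
    obtain ⟨⟨r, hr⟩, h1⟩ := (Ideal.mem_iInf_smul_pow_eq_bot_iff _ q).1 this
    obtain ⟨c, rfl⟩ := Ideal.mem_span_singleton'.1 hr
    exact ⟨c, h1⟩
  obtain ⟨c, hc⟩ := key 2 two_ne_zero
  obtain ⟨d, hd⟩ := key (c * 2 - 1) (by omega)
  rw [← hd, mul_smul, sub_smul, hc, one_smul, sub_self, smul_zero]

/-- solvability of the intertwining equations modulo `m` -/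
def SolMod (A B T : Matrix V V ℕ) (m : ℕ) (R : Matrix V V ℕ) : Prop :=
  (∀ u v, (A * R) u v % m = (R * B) u v % m) ∧ (∀ u, R u u % m = 1 % m) ∧
    ∀ u v, T u v = 0 → R u v % m = 0

theorem SolMod.dvd {A B T R : Matrix V V ℕ} {m m' : ℕ} (h : SolMod A B T m R) (hd : m' ∣ m) :
    SolMod A B T m' R :=
  ⟨fun u v => Nat.ModEq.of_dvd hd (h.1 u v), fun u => Nat.ModEq.of_dvd hd (h.2.1 u),
    fun u v e => Nat.mod_eq_zero_of_dvd (hd.trans (Nat.dvd_of_mod_eq_zero (h.2.2 u v e)))⟩

theorem int_of_mod {A B T : Matrix V V ℕ} (hT : ∀ u, 0 < T u u)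
    (hm : ∀ m, 0 < m → ∃ R, SolMod A B T m R) : ∃ R : Matrix V V ℤ, zz A * R = R * zz B ∧
      (∀ u, R u u = 1) ∧ ∀ u v, T u v = 0 → R u v = 0 := by
  let φ : Matrix V V ℤ →ₗ[ℤ] Matrix V V ℤ × Matrix V V ℤ :=
    { toFun := fun R => (zz A * R - R * zz B,
        Matrix.of fun u v => if u = v ∨ T u v = 0 then R u v else 0)
      map_add' := fun R R' => by
        ext u v
        · simp [Matrix.mul_add, Matrix.add_mul]; ring
        · simp only [of_apply, Prod.mk_add_mk, Matrix.add_apply]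
          split_ifs <;> simp
      map_smul' := fun c R => by
        ext u v
        · simp only [Matrix.mul_smul, Matrix.smul_mul, ← smul_sub, RingHom.id_apply, Prod.smul_mk]
        · simp }
  have h0 : (Submodule.Quotient.mk (p := LinearMap.range φ) (0, 1)) = 0 := by
    apply eq_zero_of_div
    intro m hpos
    obtain ⟨R, h1, h2, h3⟩ := hm m hpos
    have : ∃ y : Matrix V V ℤ × Matrix V V ℤ, (0, 1) - (m : ℤ) • y = φ (zz R) := by
      have a1 : ∀ u v, ∃ c : ℤ, (zz (R * B) - zz (A * R)) u v = m * c := fun u v =>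
        (Nat.modEq_iff_dvd.1 (h1 u v))
      have a2 : ∀ u v, ∃ c : ℤ, (1 : Matrix V V ℤ) u v -
          (if u = v ∨ T u v = 0 then zz R u v else 0) = m * c := by
        intro u v
        by_cases huv : u = v
        · subst huv
          obtain ⟨c, hc⟩ := Nat.modEq_iff_dvd.1 (h2 u)
          exact ⟨c, by simpa [zz] using hc⟩
        · by_cases h4 : T u v = 0
          · obtain ⟨c, hc⟩ := Nat.dvd_of_mod_eq_zero (h3 u v h4)
            exact ⟨-c, by simp [huv, h4, zz, hc]⟩
          · exact ⟨0, by simp [huv, h4]⟩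
      choose c1 hc1 using a1
      choose c2 hc2 using a2
      refine ⟨(Matrix.of c1, Matrix.of c2), ?_⟩
      ext u v
      · have := hc1 u v
        rw [zz_mul, zz_mul] at this
        simp only [Matrix.sub_apply] at this
        simp [φ]
        linarith
      · have := hc2 u v
        simp only [φ, Prod.smul_mk, Prod.mk_sub_mk, Matrix.sub_apply, Matrix.smul_apply, of_apply,
          smul_eq_mul, LinearMap.coe_mk, AddHom.coe_mk]
        linarith
    obtain ⟨y, hy⟩ := this
    refine ⟨Submodule.Quotient.mk y, ?_⟩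
    rw [← Submodule.Quotient.mk_smul, Submodule.Quotient.eq, hy]
    exact LinearMap.mem_range_self _ _
  obtain ⟨R, hR⟩ := (Submodule.Quotient.mk_eq_zero _).1 h0
  have h1 := congrArg Prod.fst hR
  have h2 := congrArg Prod.snd hR
  refine ⟨R, sub_eq_zero.1 h1, fun u => ?_, fun u v e => ?_⟩
  · simpa [φ] using congrFun (congrFun h2 u) u
  · have huv : u ≠ v := fun e' => by
      have := hT u
      rw [← e'] at e
      omega
    simpa [φ, e, huv] using congrFun (congrFun h2 u) v

theorem stable_pow {M : Matrix V V ℕ} (hM : ∀ u, 0 < M u u) :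
    ∃ j, 0 < j ∧ ∀ u v, (M ^ j) u v = 0 → (M ^ j * M ^ j) u v = 0 := by
  classical
  have mono : ∀ j t u v, 0 < (M ^ j) u v → 0 < (M ^ (j + t)) u v := by
    intro j t u v hp
    induction t with
    | zero => exact hp
    | succ t ih => rw [← add_assoc, pow_succ]; exact pos_mul_right hM ih
  let w : V × V → ℕ := fun p => if hp : Rch M p.1 p.2 then hp.choose else 0
  refine ⟨∑ p, w p + 1, Nat.succ_pos _, fun u v e => ?_⟩
  by_contra hne
  have hp : Rch M u v := ⟨_, by rw [pow_add]; exact Nat.pos_of_ne_zero hne⟩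
  have h1 : 0 < (M ^ w (u, v)) u v := by
    simp only [w, dif_pos hp]
    exact hp.choose_spec
  have h2 : w (u, v) ≤ ∑ p, w p :=
    Finset.single_le_sum (f := w) (fun _ _ => Nat.zero_le _) (Finset.mem_univ _)
  have := mono _ (∑ p, w p + 1 - w (u, v)) u v h1
  rw [Nat.add_sub_cancel' (by omega)] at this
  omega

theorem no_cert {A : Matrix V V ℕ} {B : Matrix W W ℕ} {s : Equiv.Perm V} {h : V → ℕ}
    {s' : Equiv.Perm W} {h' : W → ℕ} (hA : Can A s h) (hB : Can B s' h') (hn : ¬ SSE A B) :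
    ∃ l m, 0 < l ∧ 0 < m ∧ (∀ u, 0 < (A ^ l) u u) ∧ (∀ u, 0 < (B ^ l) u u) ∧
      (∀ u v, (A ^ l) u v = 0 → (A ^ l * A ^ l) u v = 0) ∧
      ∀ (e : V ≃ W) (R : Matrix V V ℕ), ¬ SolMod A (B.submatrix e e) (A ^ l) m R := by
  classical
  obtain ⟨N, hN, hs, hs'⟩ := perm_pow_one s s'
  obtain ⟨j, hj, hst⟩ := stable_pow (M := A ^ N) fun u => by
    have := (hA.pow hs).one u
    simp only [Equiv.Perm.one_apply] at this
    omega
  rw [← pow_mul] at hst
  have hs2 : s ^ (N * j) = 1 := by rw [pow_mul, hs, one_pow]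
  have hs2' : s' ^ (N * j) = 1 := by rw [pow_mul, hs', one_pow]
  have dA : ∀ u, 0 < (A ^ (N * j)) u u := fun u => by
    have := (hA.pow hs2).one u
    simp only [Equiv.Perm.one_apply] at this
    omega
  have dB : ∀ u, 0 < (B ^ (N * j)) u u := fun u => by
    have := (hB.pow hs2').one u
    simp only [Equiv.Perm.one_apply] at this
    omega
  have ex : ∀ e : V ≃ W, ∃ m, 0 < m ∧ ∀ R, ¬ SolMod A (B.submatrix e e) (A ^ (N * j)) m R := by
    intro e
    by_contra hno
    push Not at hno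
    obtain ⟨R, h1, h2, h3⟩ := int_of_mod dA hno
    exact hn ((int_sol_sse hA (hB.sub e) (Nat.mul_pos hN hj) hs2 h1 h2 h3).trans
      (SSE.sub B e).symm)
  choose m hm1 hm2 using ex
  exact ⟨N * j, ∏ e, m e, Nat.mul_pos hN hj, Finset.prod_pos fun e _ => hm1 e, dA, dB, hst,
    fun e R hR => hm2 e R (hR.dvd (Finset.dvd_prod_of_mem m (Finset.mem_univ e)))⟩

theorem rec_of_diag {A : Matrix V V ℕ} {l : ℕ} (hl : 0 < l) (dA : ∀ u, 0 < (A ^ l) u u) :
    Rec A := by
  intro v
  obtain ⟨l, rfl⟩ : ∃ l', l = l' + 1 := ⟨l - 1, by omega⟩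
  have := dA v
  rw [pow_succ, mul_pos_iff'] at this
  obtain ⟨u, h1, h2⟩ := this
  exact ⟨u, ⟨l, h1⟩, h2⟩

theorem Can.pow_one_of_diag {A : Matrix V V ℕ} {s : Equiv.Perm V} {h : V → ℕ} (hA : Can A s h)
    {l : ℕ} (dA : ∀ u, 0 < (A ^ l) u u) : s ^ l = 1 := by
  ext u
  rcases hA.up_pow l u u (dA u) with e | e
  · simpa using e.symm
  · omega

theorem no_sound {A : Matrix V V ℕ} {B : Matrix W W ℕ} (hz : ZE A) (hse : SE A B) {l m : ℕ}
    (hl : 0 < l) (hm : 0 < m) (dA : ∀ u, 0 < (A ^ l) u u) (dB : ∀ u, 0 < (B ^ l) u u)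
    (hst : ∀ u v, (A ^ l) u v = 0 → (A ^ l * A ^ l) u v = 0) :
    ∃ (e : V ≃ W) (R : Matrix V V ℕ), (∀ u v, R u v < m) ∧
      SolMod A (B.submatrix e e) (A ^ l) m R := by
  obtain ⟨s, h, hA⟩ := (rec_of_diag hl dA).can hz
  obtain ⟨s', h', hB⟩ := (rec_of_diag hl dB).can (hse.ze hz)
  obtain ⟨e, R, j, hj, -, h2, h3, h4⟩ := se_can hA hB hse hl (hA.pow_one_of_diag dA)
    (hB.pow_one_of_diag dB)
  have st : ∀ j u v, 0 < ((A ^ l) ^ (j + 1)) u v → 0 < (A ^ l) u v := by
    intro j
    induction j with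
    | zero => intro u v hp; simpa using hp
    | succ j ih =>
      intro u v hp
      rw [pow_succ, mul_pos_iff'] at hp
      obtain ⟨w, a1, a2⟩ := hp
      have a3 : 0 < (A ^ l * A ^ l) u v := mul_pos_iff'.2 ⟨w, ih _ _ a1, a2⟩
      by_contra hne
      have := hst u v (by omega)
      omega
  refine ⟨e, fun u v => R u v % m, fun u v => Nat.mod_lt _ hm, fun u v => ?_, fun u => ?_,
    fun u v e0 => ?_⟩
  · have := congrFun (congrFun h2 u) v
    simp only [Matrix.mul_apply] at this ⊢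
    rw [Finset.sum_nat_mod, Finset.sum_nat_mod _ _ (fun j => R u j % m * _)]
    simp only [Nat.mul_mod_mod, Nat.mod_mul_mod]
    rw [← Finset.sum_nat_mod, ← Finset.sum_nat_mod, this]
  · simp [h3]
  · have : R u v = 0 := by
      by_contra hne
      have a1 := h4 u v (Nat.pos_of_ne_zero hne)
      obtain ⟨j, rfl⟩ : ∃ j', j = j' + 1 := ⟨j - 1, by omega⟩
      rw [pow_mul] at a1
      have := st _ _ _ a1
      omega
    simp [this]

theorem ze_of_pow {A : Matrix V V ℕ} {l : ℕ} (hl : 0 < l) {h : V → ℕ} (hA : Can (A ^ l) 1 h) :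
    ZE A := by
  refine ⟨Fintype.card V, fun k => ?_⟩
  calc trace (A ^ k) = ∑ u, (A ^ k) u u := rfl
    _ ≤ ∑ _u : V, 1 := Finset.sum_le_sum fun u _ => by
      have h1 := pow_diag_ge A k l u
      have h2 := hA.diag_le k u
      rw [← pow_mul, mul_comm] at h2
      by_contra hne
      have h3 : 2 ^ l ≤ ((A ^ k) u u) ^ l := Nat.pow_le_pow_left (by omega) l
      have h4 : 1 < 2 ^ l := Nat.one_lt_two_pow (by omega)
      omega
    _ = _ := by simp

theorem not_ze {A : Matrix V V ℕ} (hA : ¬ ZE A) : ∃ k u, 2 ≤ (A ^ k) u u := by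
  by_contra hno
  push Not at hno
  refine hA ⟨Fintype.card V, fun k => ?_⟩
  calc trace (A ^ k) = ∑ u, (A ^ k) u u := rfl
    _ ≤ ∑ _u : V, 1 := Finset.sum_le_sum fun u _ => by have := hno k u; omega
    _ = _ := by simp

end Pool.Agent.MP_993212_an.H12
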