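import Pool.Agent.MP_993212_an.H12.PeelW
import Pool.Agent.MP_993212_an.H12.Pos
import Pool.Agent.MP_993212_an.H12.Arith

set_option linter.unusedSectionVars false

namespace Pool.Agent.MP_993212_an.H12

open Matrix

variable {U V W : Type} [Fintype U] [Fintype V] [Fintype W]
  [DecidableEq U] [DecidableEq V] [DecidableEq W]

/-- integer matrices supported inside the support of `T` -/
def Lam (T : Matrix V V ℕ) (hT : ∀ u, 0 < T u u) (tr : ∀ u v, T u v = 0 → (T * T) u v = 0) :
    Subring (Matrix V V ℤ) where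
  carrier := {R | ∀ u v, T u v = 0 → R u v = 0}
  mul_mem' := fun {a b} ha hb u v e => by
    rw [Matrix.mul_apply]
    refine Finset.sum_eq_zero fun w _ => ?_
    have h1 := le_mul_apply T T u w v
    rw [tr u v e, Nat.le_zero, Nat.mul_eq_zero] at h1
    rcases h1 with h1 | h1
    · rw [ha u w h1, zero_mul]
    · rw [hb w v h1, mul_zero]
  one_mem' := fun u v e => Matrix.one_apply_ne fun e' => by
    have := hT u
    rw [← e'] at e
    omega
  add_mem' := fun {a b} ha hb u v e => by simp [ha u v e, hb u v e]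
  zero_mem' := fun u v e => rfl
  neg_mem' := fun {a} ha u v e => by simp [ha u v e]

theorem diag_mul {T : Matrix V V ℕ} {h : V → ℕ} (hT : Cw T 1 h) {R S : Matrix V V ℤ}
    (hR : ∀ u v, T u v = 0 → R u v = 0) (hS : ∀ u v, T u v = 0 → S u v = 0) (u : V) :
    (R * S) u u = R u u * S u u := by
  rw [Matrix.mul_apply, Finset.sum_eq_single u]
  · intro w _ hw
    by_contra hne
    have h1 : 0 < T u w := Nat.pos_of_ne_zero fun e => hne (by simp [hR _ _ e])
    have h2 : 0 < T w u := Nat.pos_of_ne_zero fun e => hne (by simp [hS _ _ e])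
    rcases hT.up _ _ h1 with e | e
    · exact hw e
    · rcases hT.up _ _ h2 with e' | e'
      · exact hw e'.symm
      · omega
  · simp

theorem exists_inv {T : Matrix V V ℕ} {h : V → ℕ} (hT : Cw T 1 h)
    (tr : ∀ u v, T u v = 0 → (T * T) u v = 0) {R : Matrix V V ℤ}
    (hR : ∀ u v, T u v = 0 → R u v = 0) (hd : ∀ u, R u u ≠ 0) :
    ∃ (S : Matrix V V ℤ) (d : ℤ), d ≠ 0 ∧ (∀ u v, T u v = 0 → S u v = 0) ∧ R * S = d • 1 ∧
      S * R = d • 1 := by
  have hdet : R.det ≠ 0 := by
    intro e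
    obtain ⟨x, hx, h0⟩ := Matrix.exists_mulVec_eq_zero_iff.2 e
    obtain ⟨u, hu, hmax⟩ := Finset.exists_max_image (Finset.univ.filter fun u => x u ≠ 0) h (by
      obtain ⟨u, hu⟩ := Function.ne_iff.1 hx
      exact ⟨u, by simpa using hu⟩)
    have h1 := congrFun h0 u
    rw [mulVec, dotProduct, Finset.sum_eq_single u] at h1
    · exact mul_ne_zero (hd u) (Finset.mem_filter.1 hu).2 h1
    · intro w _ hw
      by_contra hne
      have h1 : 0 < T u w := Nat.pos_of_ne_zero fun e => hne (by simp [hR _ _ e])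
      have h2 := hmax w (by simpa using right_ne_zero_of_mul hne)
      rcases hT.up _ _ h1 with e | e
      · exact hw e
      · omega
    · simp
  have h1 := Matrix.aeval_self_charpoly R
  have h2 := Polynomial.divX_mul_X_add R.charpoly
  have h3 := Polynomial.X_mul_divX_add R.charpoly
  have h4 : R.charpoly.coeff 0 ≠ 0 := fun e => hdet (by
    rw [Matrix.det_eq_sign_charpoly_coeff, e, mul_zero])
  refine ⟨Polynomial.aeval R R.charpoly.divX, -R.charpoly.coeff 0, neg_ne_zero.2 h4, ?_, ?_, ?_⟩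
  · have : Polynomial.aeval R R.charpoly.divX ∈ Lam T hT.pos tr := by
      rw [Polynomial.aeval_eq_sum_range]
      exact Subring.sum_mem _ fun i _ => zsmul_mem (Subring.pow_mem _ (show R ∈ Lam T hT.pos tr from hR) i) _
    exact this
  · rw [← h3, map_add, map_mul, Polynomial.aeval_X, Polynomial.aeval_C,
      Algebra.algebraMap_eq_smul_one] at h1
    rw [neg_smul]
    exact eq_neg_of_add_eq_zero_left h1
  · rw [← h2, map_add, map_mul, Polynomial.aeval_X, Polynomial.aeval_C,
      Algebra.algebraMap_eq_smul_one] at h1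
    rw [neg_smul]
    exact eq_neg_of_add_eq_zero_left h1

/-- solvability modulo `m` with diagonal entries in prescribed sets of residues -/
def SolU (A B T : Matrix V V ℕ) (m : ℕ) (H : V → ℕ → Prop) (R : Matrix V V ℕ) : Prop :=
  (∀ u v, (A * R) u v % m = (R * B) u v % m) ∧ (∀ u, H u (R u u % m)) ∧
    ∀ u v, T u v = 0 → R u v % m = 0

theorem approx_sol {A B T : Matrix V V ℕ}
    (hm : ∀ m, 0 < m → ∃ R, SolU A B T m (fun u c => ∃ x j, x ∣ T u u ^ j ∧ c = x % m) R)
    (m : ℕ) (hpos : 0 < m) : ∃ (K : Matrix V V ℤ) (x : V → ℕ), zz A * K = K * zz B ∧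
      (∀ u v, T u v = 0 → K u v = 0) ∧ ∀ u, (∃ j, x u ∣ T u u ^ j) ∧ (m : ℤ) ∣ x u - K u u := by
  let φ : Matrix V V ℤ →ₗ[ℤ] Matrix V V ℤ × Matrix V V ℤ :=
    { toFun := fun R => (zz A * R - R * zz B,
        Matrix.of fun u v => if T u v = 0 then R u v else 0)
      map_add' := fun R R' => by
        ext u v
        · simp [Matrix.mul_add, Matrix.add_mul]; ring
        · simp only [of_apply, Prod.mk_add_mk, Matrix.add_apply]
          split_ifs <;> simp
      map_smul' := fun c R => by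
        ext u v
        · simp only [Matrix.mul_smul, Matrix.smul_mul, ← smul_sub, RingHom.id_apply, Prod.smul_mk]
        · simp }
  obtain ⟨k, hk, hφ⟩ := approx_ker φ
  obtain ⟨R, h1, h2, h3⟩ := hm (m * k) (Nat.mul_pos hpos hk)
  have a1 : ∀ u v, ∃ c : ℤ, (zz (A * R) - zz (R * B)) u v = (m * k : ℕ) * c := fun u v =>
    (Nat.modEq_iff_dvd.1 (h1 u v).symm)
  have a2 : ∀ u v, ∃ c : ℤ, (if T u v = 0 then zz R u v else 0) = (m * k : ℕ) * c := by
    intro u v
    by_cases h4 : T u v = 0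
    · obtain ⟨c, hc⟩ := Nat.dvd_of_mod_eq_zero (h3 u v h4)
      exact ⟨c, by simp [h4, zz, hc]⟩
    · exact ⟨0, by simp [h4]⟩
  choose c1 hc1 using a1
  choose c2 hc2 using a2
  obtain ⟨x', hx'⟩ := hφ m (zz R) (Matrix.of c1, Matrix.of c2) (by exact_mod_cast hpos.ne') (by
    ext u v
    · have := hc1 u v
      rw [zz_mul, zz_mul] at this
      simpa [φ] using this
    · simpa [φ] using hc2 u v)
  choose x j hx1 hx2 using h2
  refine ⟨zz R - (m : ℤ) • x', x, sub_eq_zero.1 (congrArg Prod.fst hx'), fun u v e => ?_,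
    fun u => ⟨⟨j u, hx1 u⟩, ?_⟩⟩
  · have := congrFun (congrFun (congrArg Prod.snd hx') u) v
    simp only [φ, LinearMap.coe_mk, AddHom.coe_mk, of_apply, e, if_true] at this
    exact this
  · have h5 : ((m * k : ℕ) : ℤ) ∣ (x u : ℤ) - R u u := Nat.modEq_iff_dvd.1 (hx2 u)
    have h6 : (m : ℤ) ∣ (x u : ℤ) - R u u := (Dvd.intro _ (by push_cast; rfl)).trans h5
    have h7 := h6.add (Dvd.intro (x' u u) rfl)
    have h8 : (x u : ℤ) - (zz R - (m : ℤ) • x') u u = x u - R u u + m * x' u u := by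
      simp only [Matrix.sub_apply, Matrix.smul_apply, zz, map_apply, smul_eq_mul]
      ring
    rw [h8]
    exact h7

theorem unit_sol {A B T : Matrix V V ℕ} {h : V → ℕ} (hT : Cw T 1 h)
    (tr : ∀ u v, T u v = 0 → (T * T) u v = 0) (hAT : A * T = T * A)
    (hm : ∀ m, 0 < m → ∃ R, SolU A B T m (fun u c => ∃ x j, x ∣ T u u ^ j ∧ c = x % m) R) :
    ∃ R : Matrix V V ℤ, zz A * R = R * zz B ∧ (∀ u v, T u v = 0 → R u v = 0) ∧
      ∀ u, ∃ x j : ℕ, x ∣ T u u ^ j ∧ R u u = x := by
  classical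
  have ap := approx_sol hm
  have Tpos : ∀ u, 0 < T u u := hT.pos
  obtain ⟨q, hq1, hq⟩ := Nat.exists_infinite_primes (∑ u, T u u + 1)
  obtain ⟨R0, x0, i0, s0, d0⟩ := ap q hq.pos
  have nz : ∀ u, R0 u u ≠ 0 := by
    intro u e
    obtain ⟨⟨j, h1⟩, h2⟩ := d0 u
    rw [e, sub_zero, Int.natCast_dvd_natCast] at h2
    have h3 := Nat.le_of_dvd (Tpos u) (hq.dvd_of_dvd_pow (h2.trans h1))
    have h4 := Finset.single_le_sum (f := fun u => T u u) (fun _ _ => Nat.zero_le _)
      (Finset.mem_univ u)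
    omega
  obtain ⟨S0, d, hd, sS, i1, i2⟩ := exists_inv hT tr s0 nz
  have dS : ∀ u, R0 u u * S0 u u = d := fun u => by
    rw [← diag_mul hT s0 sS, i1]; simp
  have iS : S0 * zz A = zz B * S0 := by
    apply smul_right_injective _ hd
    have : S0 * (zz A * R0) * S0 = S0 * (R0 * zz B) * S0 := by rw [i0]
    rw [Matrix.mul_assoc, Matrix.mul_assoc, i1, ← Matrix.mul_assoc S0 R0, i2] at this
    simpa only [Matrix.mul_smul, Matrix.smul_mul, Matrix.mul_one, Matrix.one_mul] using this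
  let L := Lam T Tpos tr
  let D : Subring (V → ℤ) :=
    { carrier := {e | ∃ G ∈ L, zz A * G = G * zz A ∧ ∀ u, e u = G u u}
      mul_mem' := by
        rintro a b ⟨G, g1, g2, g3⟩ ⟨G', g1', g2', g3'⟩
        refine ⟨G * G', L.mul_mem g1 g1', ?_, fun u => ?_⟩
        · rw [← Matrix.mul_assoc, g2, Matrix.mul_assoc, g2', Matrix.mul_assoc]
        · rw [diag_mul hT g1 g1', Pi.mul_apply, g3, g3']
      one_mem' := ⟨1, L.one_mem, by simp, fun u => by simp⟩
      add_mem' := by
        rintro a b ⟨G, g1, g2, g3⟩ ⟨G', g1', g2', g3'⟩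
        exact ⟨G + G', L.add_mem g1 g1', by rw [Matrix.mul_add, Matrix.add_mul, g2, g2'],
          fun u => by simp [g3, g3']⟩
      zero_mem' := ⟨0, L.zero_mem, by simp, fun u => by simp⟩
      neg_mem' := by
        rintro a ⟨G, g1, g2, g3⟩
        exact ⟨-G, L.neg_mem g1, by simp [g2], fun u => by simp [g3]⟩ }
  obtain ⟨c, hc, hD⟩ := subring_blocks D
  have zT : zz T ∈ L := fun u v e => by simp [zz, e]
  have cT : zz A * zz T = zz T * zz A := by rw [← zz_mul, ← zz_mul, hAT]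
  have eqT : ∀ u v, (∀ e ∈ D, e u = e v) → T u u = T v v := fun u v huv => by
    have := huv (fun u => zz T u u) ⟨zz T, zT, cT, fun _ => rfl⟩
    simpa [zz] using this
  have rat : ∀ K : Matrix V V ℤ, zz A * K = K * zz B → (∀ u v, T u v = 0 → K u v = 0) →
      ∀ u v, (∀ e ∈ D, e u = e v) → K u u * R0 v v = K v v * R0 u u := by
    intro K k1 k2 u v huv
    have h1 := huv (fun u => (K * S0) u u) ⟨K * S0, L.mul_mem k2 sS, by
      rw [← Matrix.mul_assoc, k1, Matrix.mul_assoc, ← iS, Matrix.mul_assoc], fun _ => rfl⟩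
    simp only [diag_mul hT k2 sS] at h1
    apply mul_left_cancel₀ hd
    calc d * (K u u * R0 v v) = (K u u * S0 u u) * R0 u u * R0 v v := by rw [← dS u]; ring
      _ = (K v v * S0 v v) * R0 u u * R0 v v := by rw [h1]
      _ = _ := by rw [← dS v]; ring
  let st : Setoid V := ⟨fun u v => ∀ e ∈ D, e u = e v, fun _ _ _ => rfl,
    fun h e he => (h e he).symm, fun h1 h2 e he => (h1 e he).trans (h2 e he)⟩
  let rep : V → V := fun u => (Quotient.mk st u).out
  have r1 : ∀ u, ∀ e ∈ D, e u = e (rep u) := fun u e he => (Quotient.mk_out (s := st) u e he).symm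
  have r2 : ∀ u v, (∀ e ∈ D, e u = e v) → rep u = rep v := fun u v h =>
    congrArg Quotient.out (Quotient.sound (s := st) h)
  have un : ∀ u, ∃ x y : ℕ, (∃ j, x ∣ T u u ^ j) ∧ (∃ j, y ∣ T u u ^ j) ∧
      (x : ℤ) * R0 (rep u) (rep u) = y * R0 u u := by
    intro u
    refine ratio_unit (Tpos u) (nz _) (nz _) fun m hm => ?_
    obtain ⟨K, x, k1, k2, k3⟩ := ap m hm
    refine ⟨x u, x (rep u), (k3 u).1, by rw [eqT _ _ (r1 u)]; exact (k3 _).1, ?_⟩
    have h1 := ((k3 u).2.mul_right (R0 (rep u) (rep u))).sub ((k3 (rep u)).2.mul_right (R0 u u))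
    have h2 := rat K k1 k2 u (rep u) (r1 u)
    have h3 : (x u : ℤ) * R0 (rep u) (rep u) - x (rep u) * R0 u u =
        (x u - K u u) * R0 (rep u) (rep u) - (x (rep u) - K (rep u) (rep u)) * R0 u u := by
      linear_combination h2
    rw [h3]
    exact h1
  choose x y hx hy hxy using un
  choose jy hjy using hy
  have hJ : ∀ u, ∃ w, T u u ^ (∑ u, jy u) = y u * w := fun u =>
    (hjy u).trans (pow_dvd_pow _ (Finset.single_le_sum (f := jy) (fun _ _ => Nat.zero_le _)
      (Finset.mem_univ u)))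
  choose w hw using hJ
  set J := ∑ u, jy u
  obtain ⟨K, ρ, k1, k2, k3⟩ := ap (c * d).natAbs (Int.natAbs_pos.2 (mul_ne_zero hc hd))
  have k4 : ∀ u, ∃ t, (ρ u : ℤ) - K u u = c * d * t := fun u => Int.natAbs_dvd.1 (k3 u).2
  choose t ht using k4
  have xw : ∀ u, (x u : ℤ) * w u * R0 (rep u) (rep u) = (T u u : ℤ) ^ J * R0 u u := fun u => by
    have : ((T u u : ℤ)) ^ J = y u * w u := by exact_mod_cast hw u
    rw [this]
    linear_combination (w u : ℤ) * hxy u
  obtain ⟨G, g1, g2, g3⟩ := hD (fun u => t (rep u) * x u * w u * S0 u u) (by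
    intro u v huv
    have h1 := xw u
    have h2 := xw v
    rw [r2 _ _ huv, eqT _ _ huv] at h1
    simp only [r2 _ _ huv]
    apply mul_left_cancel₀ (nz (rep v))
    calc R0 (rep v) (rep v) * (t (rep v) * x u * w u * S0 u u)
        = t (rep v) * (x u * w u * R0 (rep v) (rep v)) * S0 u u := by ring
      _ = t (rep v) * (T v v : ℤ) ^ J * (R0 u u * S0 u u) := by rw [h1]; ring
      _ = t (rep v) * (T v v : ℤ) ^ J * (R0 v v * S0 v v) := by rw [dS, dS]
      _ = t (rep v) * (x v * w v * R0 (rep v) (rep v)) * S0 v v := by rw [h2]; ring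
      _ = _ := by ring)
  have dT : ∀ j u, (zz T ^ j) u u = (T u u : ℤ) ^ j := by
    intro j u
    induction j with
    | zero => simp
    | succ j ih => rw [pow_succ, diag_mul hT (L.pow_mem zT j) zT, ih, pow_succ]; rfl
  refine ⟨zz T ^ J * K + G * R0, ?_, L.add_mem (L.mul_mem (L.pow_mem zT J) k2) (L.mul_mem g1 s0),
    fun u => ?_⟩
  · rw [Matrix.mul_add, Matrix.add_mul, ← Matrix.mul_assoc, ← Matrix.mul_assoc, g2,
      pow_inter' cT, Matrix.mul_assoc, Matrix.mul_assoc, k1, i0, Matrix.mul_assoc,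
      Matrix.mul_assoc]
  · obtain ⟨j1, h1⟩ := (k3 (rep u)).1
    obtain ⟨j2, h2⟩ := hx u
    rw [← eqT _ _ (r1 u)] at h1
    refine ⟨ρ (rep u) * x u * w u, j1 + j2 + J, ?_, ?_⟩
    · rw [pow_add, pow_add]
      exact Nat.mul_dvd_mul (Nat.mul_dvd_mul h1 h2) (Dvd.intro_left _ (hw u).symm)
    · rw [Matrix.add_apply, diag_mul hT (L.pow_mem zT J) k2, diag_mul hT g1 s0, dT, ← g3]
      apply mul_left_cancel₀ (nz (rep u))
      have h3 := rat K k1 k2 u (rep u) (r1 u)
      have h4 := xw u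
      have h5 := ht (rep u)
      have h6 := dS u
      simp only [Pi.smul_apply, smul_eq_mul]
      push_cast
      linear_combination (T u u : ℤ) ^ J * h3 - K (rep u) (rep u) * h4 -
        R0 (rep u) (rep u) * x u * w u * h5 +
        R0 (rep u) (rep u) * c * t (rep u) * x u * w u * h6

end Pool.Agent.MP_993212_an.H12
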