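import Pool.Agent.MP_993212_an.H12.Peel

set_option linter.unusedSectionVars false

namespace Pool.Agent.MP_993212_an.H12

open Matrix

variable {U V W : Type} [Fintype U] [Fintype V] [Fintype W]
  [DecidableEq U] [DecidableEq V] [DecidableEq W]

theorem uniq_of_one {R : Matrix V W ℕ} {S : Matrix W V ℕ} {u : V} (h : (R * S) u u = 1) :
    ∃ w, R u w = 1 ∧ S w u = 1 ∧ ∀ w', 0 < R u w' → 0 < S w' u → w' = w := by
  obtain ⟨w, h1, h2⟩ := mul_pos_iff'.1 (show 0 < (R * S) u u by omega)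
  have h3 := le_mul_apply R S u w u
  refine ⟨w, by nlinarith, by nlinarith, fun w' h4 h5 => ?_⟩
  by_contra hne
  have h6 := Finset.add_le_sum (f := fun x => R u x * S x u)
      (s := Finset.univ) (fun _ _ => Nat.zero_le _) (Finset.mem_univ w') (Finset.mem_univ w) hne
  rw [Matrix.mul_apply] at h
  have h7 := Nat.mul_pos h1 h2
  have h8 := Nat.mul_pos h4 h5
  omega

theorem se_can {A : Matrix V V ℕ} {B : Matrix W W ℕ} {s : Equiv.Perm V} {h : V → ℕ}
    {s' : Equiv.Perm W} {h' : W → ℕ} (hA : Can A s h) (hB : Can B s' h') (hse : SE A B) {N : ℕ}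
    (hN : 0 < N) (hs : s ^ N = 1) (hs' : s' ^ N = 1) :
    ∃ (e : V ≃ W) (R : Matrix V V ℕ) (j : ℕ), 0 < j ∧ Can (B.submatrix e e) s h ∧
      A * R = R * B.submatrix e e ∧ (∀ u, R u u = 1) ∧
      ∀ u v, 0 < R u v → 0 < (A ^ (N * j)) u v := by
  obtain ⟨l, R0, S, hl, h1, h2, h3, h4⟩ := hse
  set R := R0 * B ^ (N * l - l) with hR
  have hle : l ≤ N * l := Nat.le_mul_of_pos_left _ hN
  have g1 : A ^ (N * l) = R * S := by
    rw [hR, ← pow_inter h3, Matrix.mul_assoc, ← h1, ← pow_add, Nat.sub_add_cancel hle]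
  have g2 : B ^ (N * l) = S * R := by
    rw [hR, ← Matrix.mul_assoc, ← h2, ← pow_add, Nat.add_sub_cancel' hle]
  have g3 : A * R = R * B := by
    rw [hR, ← Matrix.mul_assoc, h3, Matrix.mul_assoc, Matrix.mul_assoc, ← pow_succ, ← pow_succ']
  have dA : ∀ u, (R * S) u u = 1 := fun u => by
    have := hA.one_pow (N * l) u
    rwa [pow_mul s, hs, one_pow, g1] at this
  have dB : ∀ u, (S * R) u u = 1 := fun u => by
    have := hB.one_pow (N * l) u
    rwa [pow_mul s', hs', one_pow, g2] at this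
  choose f f1 f2 f3 using fun u => uniq_of_one (dA u)
  choose g g4 g5 g6 using fun u => uniq_of_one (dB u)
  let e : V ≃ W := ⟨f, g, fun u => (g6 (f u) u (by rw [f2]; exact one_pos)
    (by rw [f1]; exact one_pos)).symm, fun w => (f3 (g w) w (by rw [g5]; exact one_pos)
    (by rw [g4]; exact one_pos)).symm⟩
  let R' : Matrix V V ℕ := R.submatrix id e
  let S' : Matrix V V ℕ := S.submatrix e id
  have dR : ∀ u, R' u u = 1 := f1
  have dS : ∀ u, S' u u = 1 := f2
  have k1 : R' * S' = A ^ (N * l) := by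
    rw [g1, submatrix_mul_equiv, submatrix_id_id]
  have k2 : A * R' = R' * B.submatrix e e := by
    rw [submatrix_mul_equiv, ← g3]
    ext a b
    simp [R', Matrix.mul_apply]
  have up : ∀ u v, 0 < B.submatrix e e u v → v = s u ∨ h u < h v := by
    intro u v hp
    have a1 : 0 < (R' * B.submatrix e e) u v := pos_mul_left (fun u => by rw [dR]; exact one_pos) hp
    rw [← k2] at a1
    have a2 : 0 < (A * R' * S') u v := pos_mul_right (fun u => by rw [dS]; exact one_pos) a1
    rw [Matrix.mul_assoc, k1, ← pow_succ'] at a2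
    have a3 := hA.up_pow _ _ _ a2
    rwa [pow_succ, pow_mul s, hs, one_pow, one_mul] at a3
  have cB := hB.sub e
  set t := e.trans (s'.trans e.symm) with ht
  have hle' : ∀ u, h u ≤ h (t u) := fun u => by
    rcases up u (t u) (by rw [cB.one]; exact one_pos) with a | a
    · rw [a, hA.lev]
    · omega
  have heq : ∀ u, h u = h (t u) := by
    have := (Finset.sum_eq_sum_iff_of_le (s := Finset.univ) fun u _ => hle' u).1
      (Equiv.sum_comp t h).symm
    exact fun u => this u (Finset.mem_univ u)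
  have hts : ∀ u, t u = s u := fun u => by
    rcases up u (t u) (by rw [cB.one]; exact one_pos) with a | a
    · exact a
    · have := heq u
      omega
  refine ⟨e, R', l, hl, ⟨fun u => by rw [← hts, cB.one], hA.lev, up⟩, k2, dR, fun u v hp => ?_⟩
  rw [← k1]
  exact pos_mul_right (fun u => by rw [dS]; exact one_pos) hp

theorem perm_pow_one (s : Equiv.Perm V) (s' : Equiv.Perm W) : ∃ N, 0 < N ∧ s ^ N = 1 ∧ s' ^ N = 1 :=
  ⟨orderOf s * orderOf s', Nat.mul_pos (orderOf_pos s) (orderOf_pos s'),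
    by rw [pow_mul, pow_orderOf_eq_one, one_pow], by rw [mul_comm, pow_mul, pow_orderOf_eq_one, one_pow]⟩

theorem SE.symm {A : Matrix V V ℕ} {B : Matrix W W ℕ} (h : SE A B) : SE B A := by
  obtain ⟨l, R, S, h0, h1, h2, h3, h4⟩ := h
  exact ⟨l, S, R, h0, h2, h1, h4.symm, h3.symm⟩

theorem SE.ze {A : Matrix V V ℕ} {B : Matrix W W ℕ} (h : SE A B) (hA : ZE A) : ZE B := by
  obtain ⟨l, R, S, h0, h1, h2, h3, h4⟩ := h
  obtain ⟨c, hc⟩ := hA
  refine ⟨c + ∑ i ∈ Finset.range l, trace (B ^ i), fun k => ?_⟩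
  by_cases hk : k < l
  · have := Finset.single_le_sum (f := fun i => trace (B ^ i)) (fun _ _ => Nat.zero_le _)
      (Finset.mem_range.2 hk)
    omega
  · obtain ⟨j, rfl⟩ : ∃ j, k = j + l := ⟨k - l, by omega⟩
    have : trace (B ^ (j + l)) = trace (A ^ (j + l)) := by
      rw [pow_add, pow_add, h1, h2, ← Matrix.mul_assoc, ← pow_inter' h4, Matrix.mul_assoc,
        trace_mul_comm, Matrix.mul_assoc]
    have := hc (j + l)
    omega

theorem can_sse {A : Matrix V V ℕ} {B : Matrix W W ℕ} {s : Equiv.Perm V} {h : V → ℕ}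
    {s' : Equiv.Perm W} {h' : W → ℕ} (hA : Can A s h) (hB : Can B s' h') (hse : SE A B) :
    SSE A B := by
  obtain ⟨N, hN, hs, hs'⟩ := perm_pow_one s s'
  obtain ⟨e, R, j, hj, h1, h2, h3, h4⟩ := se_can hA hB hse hN hs hs'
  obtain ⟨k, -, hk⟩ := peel _ V A _ R s h (N * j) rfl hA h1 h2 h3 (Nat.mul_pos hN hj)
    (by rw [pow_mul, hs, one_pow]) h4
  exact hk.sse.trans (SSE.sub B e).symm

/-- shift equivalence implies strong shift equivalence in zero entropy -/
theorem ZE.sse_of_se {A : Matrix V V ℕ} {B : Matrix W W ℕ} (hA : ZE A) (hse : SE A B) :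
    SSE A B := by
  obtain ⟨m, C, s, h, h1, h2⟩ := hA.exists_can
  obtain ⟨m', C', s', h', h1', h2'⟩ := (hse.ze hA).exists_can
  exact (h1.trans (can_sse h2 h2' ((h1.se.symm.trans hse).trans h1'.se))).trans h1'.symm

end Pool.Agent.MP_993212_an.H12
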