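import Pool.Agent.MP_993212_an.H12.Fire

set_option linter.unusedSectionVars false

namespace Pool.Agent.MP_993212_an.H12

open Matrix

variable {U V W : Type} [Fintype U] [Fintype V] [Fintype W]
  [DecidableEq U] [DecidableEq V] [DecidableEq W]

theorem block_pow (s : Equiv.Perm U) (X : Matrix U W ℕ) (D : Matrix W W ℕ) (k : ℕ) :
    ∃ Xk : Matrix U W ℕ, fromBlocks (PM s) X 0 D ^ k = fromBlocks (PM (s ^ k)) Xk 0 (D ^ k) ∧
      ∀ u x, 0 < Xk u x → ∃ i j, i + j + 1 = k ∧ 0 < (X * D ^ j) ((s ^ i) u) x := by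
  induction k with
  | zero => exact ⟨0, by simp [PM_one], fun u x h => by simp at h⟩
  | succ k ih =>
    obtain ⟨Xk, h1, h2⟩ := ih
    refine ⟨PM s * Xk + X * D ^ k, ?_, fun u x h => ?_⟩
    · rw [pow_succ', h1, fromBlocks_multiply, ← PM_pow, ← PM_pow, pow_succ', pow_succ']
      simp
    · rw [Matrix.add_apply, PM_mul] at h
      rcases Nat.eq_zero_or_pos (Xk (s u) x) with e | e
      · exact ⟨0, k, by omega, by simpa [e] using h⟩
      · obtain ⟨i, j, h3, h4⟩ := h2 _ _ e
        exact ⟨i + 1, j, by omega, by rwa [pow_succ, Equiv.Perm.mul_apply]⟩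

theorem pos_mul_right {A : Matrix U V ℕ} {R : Matrix V V ℕ} (hR : ∀ u, 0 < R u u) {u : U} {v : V}
    (h : 0 < A u v) : 0 < (A * R) u v := mul_pos_iff'.2 ⟨v, h, hR v⟩

theorem pos_mul_left {A : Matrix U V ℕ} {R : Matrix U U ℕ} (hR : ∀ u, 0 < R u u) {u : U} {v : V}
    (h : 0 < A u v) : 0 < (R * A) u v := mul_pos_iff'.2 ⟨u, hR u, h⟩

theorem peel_step {s : Equiv.Perm U} {r : Equiv.Perm W} {D D' R1 : Matrix W W ℕ}
    {X Y Z : Matrix U W ℕ} {h : W → ℕ} (hD : Can D r h) (hD' : Can D' r h) {l : ℕ} (hl : 0 < l)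
    (hs : s ^ l = 1) (hr : r ^ l = 1)
    (inter : fromBlocks (PM s) X 0 D * fromBlocks (1 : Matrix U U ℕ) Z 0 R1 =
      fromBlocks (1 : Matrix U U ℕ) Z 0 R1 * fromBlocks (PM s) Y 0 D')
    (diag : ∀ x, R1 x x = 1)
    (supp : ∀ u v, 0 < fromBlocks (1 : Matrix U U ℕ) Z 0 R1 u v →
      0 < (fromBlocks (PM s) X 0 D ^ l) u v)
    {k1 : ℕ} (hch : Ch D D' (R1 * D' ^ k1)) :
    ∃ k, l ∣ k ∧ Ch (fromBlocks (PM s) X 0 D) (fromBlocks (PM s) Y 0 D')
      (fromBlocks (1 : Matrix U U ℕ) Z 0 R1 * fromBlocks (PM s) Y 0 D' ^ k) := by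
  classical
  let G : U × W → ℕ → Prop := fun p j => 0 < (X * D ^ j) p.1 ((r ^ j) p.2)
  have Gmono : ∀ p j t, G p j → G p (j + t) := by
    intro p j t hG
    simp only [G] at hG ⊢
    rw [pow_add D, ← Matrix.mul_assoc, mul_pos_iff']
    refine ⟨_, hG, ?_⟩
    rw [add_comm j t, pow_add, Equiv.Perm.mul_apply, hD.one_pow]
    exact one_pos
  have hJ : ∃ J, ∀ p j, G p j → G p J := by
    let w : U × W → ℕ := fun p => if hp : ∃ j, G p j then hp.choose else 0
    refine ⟨∑ p, w p, fun p j hG => ?_⟩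
    have hp : ∃ j, G p j := ⟨j, hG⟩
    have h1 : G p (w p) := by
      simp only [w, dif_pos hp]
      exact hp.choose_spec
    have h2 : w p ≤ ∑ p, w p :=
      Finset.single_le_sum (f := w) (fun _ _ => Nat.zero_le _) (Finset.mem_univ p)
    have := Gmono p _ (∑ p, w p - w p) h1
    rwa [Nat.add_sub_cancel' h2] at this
  obtain ⟨J, hJ⟩ := hJ
  set k := l * (k1 + J) with hk
  have hk1 : k1 + J ≤ k := Nat.le_mul_of_pos_left _ hl
  have hsk : s ^ k = 1 := by rw [hk, pow_mul, hs, one_pow]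
  have hrk : r ^ k = 1 := by rw [hk, pow_mul, hr, one_pow]
  refine ⟨k, Dvd.intro _ rfl, ?_⟩
  have hch' : Ch D D' (R1 * D' ^ k) := by
    have := hch.pow (k - k1)
    rwa [Matrix.mul_assoc, ← pow_add, Nat.add_sub_cancel' (by omega)] at this
  have c1 := hch'.lift (PM s) X
  obtain ⟨Yk, hY, -⟩ := block_pow s Y D' k
  rw [hsk, PM_one] at hY
  have hRB : fromBlocks (1 : Matrix U U ℕ) Z 0 R1 * fromBlocks (PM s) Y 0 D' ^ k =
      fromBlocks 1 (Yk + Z * D' ^ k) 0 (R1 * D' ^ k) := by
    rw [hY]; simp [fromBlocks_multiply]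
  set Zk := Yk + Z * D' ^ k with hZk
  have int2 : fromBlocks (PM s) X 0 D * fromBlocks (1 : Matrix U U ℕ) Zk 0 (R1 * D' ^ k) =
      fromBlocks (1 : Matrix U U ℕ) Zk 0 (R1 * D' ^ k) * fromBlocks (PM s) Y 0 D' := by
    rw [← hRB, ← Matrix.mul_assoc, inter, Matrix.mul_assoc, Matrix.mul_assoc, ← pow_succ,
      ← pow_succ']
  have int3 : PM s * Zk + X * (R1 * D' ^ k) = Y + Zk * D' := by
    simp only [fromBlocks_multiply, fromBlocks_inj] at int2
    simpa using int2.2.1
  have int4 : D * R1 = R1 * D' := by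
    simp only [fromBlocks_multiply, fromBlocks_inj] at inter
    simpa using inter.2.2.2
  have c2 := fire hD' hl hs hr (X * (R1 * D' ^ k)) _ Y Zk rfl int3 (by
    intro u x hp
    have h1 : 0 < (fromBlocks (1 : Matrix U U ℕ) Z 0 R1 * fromBlocks (PM s) Y 0 D' ^ k)
        (Sum.inl u) (Sum.inr x) := by
      rw [hRB]; exact hp
    rw [← pow_inter inter, mul_pos_iff'] at h1
    obtain ⟨v, h2, h3⟩ := h1
    have h4 : 0 < (fromBlocks (PM s) X 0 D ^ (k + l)) (Sum.inl u) (Sum.inr x) := by
      rw [pow_add, mul_pos_iff']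
      exact ⟨v, h2, supp _ _ h3⟩
    obtain ⟨Xk, h5, h6⟩ := block_pow s X D (k + l)
    rw [h5] at h4
    obtain ⟨i, j, h7, h8⟩ := h6 u x h4
    refine ⟨i, ?_⟩
    have h9 : G ((s ^ i) u, (r ^ i) (r x)) j := by
      simp only [G]
      rwa [← Equiv.Perm.mul_apply (r ^ i), ← Equiv.Perm.mul_apply, ← pow_succ, ← pow_add,
        show j + (i + 1) = k + l by omega, pow_add, hrk, hr, one_mul, Equiv.Perm.one_apply]
    have h10 := Gmono _ _ (k - J) (hJ _ _ h9)
    rw [Nat.add_sub_cancel' (by omega)] at h10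
    simp only [G, hrk, Equiv.Perm.one_apply] at h10
    rw [← pow_inter int4, ← Matrix.mul_assoc]
    exact pos_mul_right (fun x => by rw [diag]; exact one_pos) h10)
  have c3 := c1.trans c2
  rw [hRB]
  simpa [fromBlocks_multiply] using c3

theorem peel (n : ℕ) : ∀ (V : Type) [Fintype V] [DecidableEq V] (A B R : Matrix V V ℕ)
    (s : Equiv.Perm V) (h : V → ℕ) (l : ℕ), Fintype.card V = n → Can A s h → Can B s h →
    A * R = R * B → (∀ u, R u u = 1) → 0 < l → s ^ l = 1 →
    (∀ u v, 0 < R u v → 0 < (A ^ l) u v) → ∃ k, l ∣ k ∧ Ch A B (R * B ^ k) := by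
  induction n using Nat.strong_induction_on with
  | _ n ih =>
  intro V _ _ A B R s h l hn hA hB inter diag hl hs supp
  classical
  rcases isEmpty_or_nonempty V with hV | hV
  · refine ⟨0, dvd_zero _, ?_⟩
    rw [Subsingleton.elim B A, Subsingleton.elim (R * A ^ 0) 1]
    exact Ch.refl
  obtain ⟨v0, -, hv0⟩ := Finset.exists_min_image Finset.univ h Finset.univ_nonempty
  have hmin : ∀ v, h v0 ≤ h v := fun v => hv0 v (Finset.mem_univ v)
  let p : V → Prop := fun v => h v = h v0
  let e := Equiv.sumCompl p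
  let s1 : Equiv.Perm {v // p v} := s.subtypePerm fun x => by simp only [p, hA.lev]
  let s2 : Equiv.Perm {v // ¬ p v} := s.subtypePerm fun x => by simp only [p, hA.lev]
  have hs1 : s1 ^ l = 1 := by
    ext x
    simp [s1, Equiv.Perm.subtypePerm_pow, hs]
  have hs2 : s2 ^ l = 1 := by
    ext x
    simp [s2, Equiv.Perm.subtypePerm_pow, hs]
  have blk : ∀ C : Matrix V V ℕ, Can C s h → C.submatrix e e =
      fromBlocks (PM s1) (C.submatrix e e).toBlocks₁₂ 0 (C.submatrix e e).toBlocks₂₂ ∧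
      Can (C.submatrix e e).toBlocks₂₂ s2 (fun x => h x) := by
    intro C hC
    refine ⟨?_, fun u => hC.one u, fun u => hC.lev u, fun u v hp => ?_⟩
    · ext (a | a) (b | b)
      · change C a b = if b = s1 a then 1 else 0
        split_ifs with hab
        · rw [hab]; exact hC.one a
        · by_contra hne
          rcases hC.up _ _ (Nat.pos_of_ne_zero hne) with e1 | e1
          · exact hab (Subtype.ext e1)
          · have h1 : h a = h v0 := a.2
            have h2 : h b = h v0 := b.2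
            omega
      · rfl
      · change C a b = 0
        by_contra hne
        have h1 : h a ≠ h v0 := a.2
        have h2 : h b = h v0 := b.2
        have h3 := hmin a
        rcases hC.up _ _ (Nat.pos_of_ne_zero hne) with e1 | e1
        · have := hC.lev a
          rw [← e1] at this
          omega
        · omega
      · rfl
    · rcases hC.up u v hp with e1 | e1
      · exact Or.inl (Subtype.ext e1)
      · exact Or.inr e1
  have suppR : ∀ u v, 0 < R u v → v = u ∨ h u < h v := fun u v hp => by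
    simpa [hs] using hA.up_pow l u v (supp u v hp)
  have blkR : R.submatrix e e =
      fromBlocks 1 (R.submatrix e e).toBlocks₁₂ 0 (R.submatrix e e).toBlocks₂₂ := by
    ext (a | a) (b | b)
    · change R a b = (1 : Matrix _ _ ℕ) a b
      by_cases hab : a = b
      · rw [hab, diag, Matrix.one_apply_eq]
      · rw [Matrix.one_apply_ne hab]
        by_contra hne
        rcases suppR _ _ (Nat.pos_of_ne_zero hne) with e1 | e1
        · exact hab (Subtype.ext e1.symm)
        · have h1 : h a = h v0 := a.2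
          have h2 : h b = h v0 := b.2
          omega
    · rfl
    · change R a b = 0
      by_contra hne
      have h1 : h a ≠ h v0 := a.2
      have h2 : h b = h v0 := b.2
      have h3 := hmin a
      rcases suppR _ _ (Nat.pos_of_ne_zero hne) with e1 | e1
      · rw [← e1] at h1
        omega
      · omega
    · rfl
  obtain ⟨eA, cA⟩ := blk A hA
  obtain ⟨eB, cB⟩ := blk B hB
  have inter' : A.submatrix e e * R.submatrix e e = R.submatrix e e * B.submatrix e e := by
    rw [submatrix_mul_equiv, submatrix_mul_equiv, inter]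
  have supp' : ∀ u v, 0 < R.submatrix e e u v → 0 < (A.submatrix e e ^ l) u v := by
    intro u v hp
    rw [sub_pow]
    exact supp _ _ hp
  generalize (A.submatrix e e).toBlocks₁₂ = X at eA
  generalize (A.submatrix e e).toBlocks₂₂ = D at eA cA
  generalize (B.submatrix e e).toBlocks₁₂ = Y at eB
  generalize (B.submatrix e e).toBlocks₂₂ = D' at eB cB
  have diag' : ∀ x, (R.submatrix e e).toBlocks₂₂ x x = 1 := fun x => diag x
  generalize (R.submatrix e e).toBlocks₁₂ = Z at blkR
  generalize (R.submatrix e e).toBlocks₂₂ = R1 at blkR diag'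
  rw [eA, eB, blkR] at inter'
  rw [eA, blkR] at supp'
  have hlt : Fintype.card {v // ¬ p v} < n := by
    rw [← hn]
    exact Fintype.card_subtype_lt (x := v0) (by simp [p])
  have int4 : D * R1 = R1 * D' := by
    simp only [fromBlocks_multiply, fromBlocks_inj] at inter'
    simpa using inter'.2.2.2
  obtain ⟨k1, -, hch⟩ := ih _ hlt _ D D' R1 s2 _ l rfl cA cB int4 diag' hl hs2 (by
    intro u v hp
    have := supp' (Sum.inr u) (Sum.inr v) hp
    obtain ⟨Xk, h5, -⟩ := block_pow s1 X D l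
    rw [h5] at this
    exact this)
  obtain ⟨k, hk, hc⟩ := peel_step cA cB hl hs1 hs2 inter' diag' supp' hch
  refine ⟨k, hk, ?_⟩
  rw [← eA, ← eB, ← blkR, sub_pow, submatrix_mul_equiv] at hc
  simpa using hc.sub e.symm

end Pool.Agent.MP_993212_an.H12
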