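import Pool.Agent.MP_993212_an.H12.FireW

set_option linter.unusedSectionVars false

namespace Pool.Agent.MP_993212_an.H12

open Matrix Finset

variable {U V W : Type} [Fintype U] [Fintype V] [Fintype W]
  [DecidableEq U] [DecidableEq V] [DecidableEq W]

theorem block_powW (s : Equiv.Perm U) (p : U → ℕ) (X : Matrix U W ℕ) (D : Matrix W W ℕ) (k : ℕ) :
    ∃ Xk : Matrix U W ℕ, fromBlocks (WM s p) X 0 D ^ k = fromBlocks (WM s p ^ k) Xk 0 (D ^ k) ∧
      ∀ u x, 0 < Xk u x → ∃ i j, i + j + 1 = k ∧ 0 < (X * D ^ j) ((s ^ i) u) x := by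
  induction k with
  | zero => exact ⟨0, by simp, fun u x h => by simp at h⟩
  | succ k ih =>
    obtain ⟨Xk, h1, h2⟩ := ih
    refine ⟨WM s p * Xk + X * D ^ k, ?_, fun u x h => ?_⟩
    · rw [pow_succ', h1, fromBlocks_multiply, pow_succ', pow_succ']
      simp
    · rw [Matrix.add_apply, WM_mul] at h
      rcases Nat.eq_zero_or_pos (Xk (s u) x) with e | e
      · exact ⟨0, k, by omega, by simpa [e] using h⟩
      · obtain ⟨i, j, h3, h4⟩ := h2 _ _ e
        exact ⟨i + 1, j, by omega, by rwa [pow_succ, Equiv.Perm.mul_apply]⟩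

theorem orbit_bound {s : Equiv.Perm U} (p : U → ℕ) {r : Equiv.Perm W} {D : Matrix W W ℕ}
    (X : Matrix U W ℕ) {h : W → ℕ} (hD : Cw D r h) {l : ℕ} (hl : 0 < l) (hs : s ^ l = 1)
    (hr : r ^ l = 1) : ∃ J, ∀ t, J ≤ t → ∀ n u x,
      0 < (fromBlocks (WM s p) X 0 D ^ (l * n)) (Sum.inl u) (Sum.inr x) →
      ∃ a, a < l ∧ 0 < (X * D ^ (l * t)) ((s ^ a) u) ((r ^ (a + 1)) x) := by
  classical
  let G : U × W → ℕ → Prop := fun p j => 0 < (X * D ^ j) p.1 ((r ^ j) p.2)
  have Gmono : ∀ p j t, G p j → G p (j + t) := by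
    intro p j t hG
    simp only [G] at hG ⊢
    rw [pow_add D, ← Matrix.mul_assoc, mul_pos_iff']
    refine ⟨_, hG, ?_⟩
    rw [add_comm j t, pow_add, Equiv.Perm.mul_apply]
    exact hD.pos_pow _ _
  have hJ : ∃ J, ∀ p j, G p j → G p J := by
    let w : U × W → ℕ := fun p => if hp : ∃ j, G p j then hp.choose else 0
    refine ⟨∑ p, w p, fun p j hG => ?_⟩
    have hp : ∃ j, G p j := ⟨j, hG⟩
    have h1 : G p (w p) := by
      simp only [w, dif_pos hp]
      exact hp.choose_spec
    have h2 : w p ≤ ∑ p, w p :=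
      Finset.single_le_sum (f := w) (fun _ _ => Nat.zero_le _) (Finset.mem_univ p)
    have := Gmono p _ (∑ p, w p - w p) h1
    rwa [Nat.add_sub_cancel' h2] at this
  obtain ⟨J, hJ⟩ := hJ
  refine ⟨J, fun t ht n u x h4 => ?_⟩
  obtain ⟨Xk, h5, h6⟩ := block_powW s p X D (l * n)
  rw [h5] at h4
  obtain ⟨i, j, h7, h8⟩ := h6 u x h4
  have h9 : G ((s ^ i) u, (r ^ i) (r x)) j := by
    simp only [G]
    rwa [← Equiv.Perm.mul_apply (r ^ i), ← Equiv.Perm.mul_apply, ← pow_succ, ← pow_add,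
      show j + (i + 1) = l * n by omega, pow_mul, hr, one_pow, Equiv.Perm.one_apply]
  have hle : t ≤ l * t := Nat.le_mul_of_pos_left _ hl
  have h10 := Gmono _ _ (l * t - J) (hJ _ _ h9)
  rw [Nat.add_sub_cancel' (by omega)] at h10
  simp only [G, pow_mul r, hr, one_pow, Equiv.Perm.one_apply] at h10
  refine ⟨i % l, Nat.mod_lt _ hl, ?_⟩
  rwa [pow_succ, Equiv.Perm.mul_apply, ← pow_eq_pow_mod i hs, ← pow_eq_pow_mod i hr]

theorem WM_diag {s : Equiv.Perm U} (p : U → ℕ) {l : ℕ} (hs : s ^ l = 1) (u : U) :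
    (WM s p ^ l) u u = ∏ i ∈ range l, p ((s ^ i) u) := by
  rw [WM_pow, hs]; simp [WM]

theorem peel_stepW {s : Equiv.Perm U} {p p' r0 : U → ℕ} {r : Equiv.Perm W}
    {D D' R1 : Matrix W W ℕ} {X Y Z : Matrix U W ℕ} {h : W → ℕ} (hD : Cw D r h) (hD' : Cw D' r h)
    (hp : ∀ u, 0 < p u) {l : ℕ} (hl : 0 < l) (hs : s ^ l = 1) (hr : r ^ l = 1)
    (inter : fromBlocks (WM s p) X 0 D * fromBlocks (diagonal r0) Z 0 R1 =
      fromBlocks (diagonal r0) Z 0 R1 * fromBlocks (WM s p') Y 0 D')
    (hr0 : ∀ u, 0 < r0 u) (hdv : ∀ u, r0 u ∣ ∏ i ∈ range l, p ((s ^ i) u))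
    (diag : ∀ x, 0 < R1 x x)
    (suppA : ∀ u v, 0 < fromBlocks (diagonal r0) Z 0 R1 u v →
      0 < (fromBlocks (WM s p) X 0 D ^ l) u v)
    (suppB : ∀ u v, 0 < fromBlocks (diagonal r0) Z 0 R1 u v →
      0 < (fromBlocks (WM s p') Y 0 D' ^ l) u v)
    {k1 : ℕ} (hch : Ch D D' (R1 * D' ^ k1)) :
    ∃ k, Ch (fromBlocks (WM s p) X 0 D) (fromBlocks (WM s p') Y 0 D')
      (fromBlocks (diagonal r0) Z 0 R1 * fromBlocks (WM s p') Y 0 D' ^ k) := by
  classical
  obtain ⟨J, hJ⟩ := orbit_bound p X hD hl hs hr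
  obtain ⟨J', hJ'⟩ := orbit_bound p' Y hD' hl hs hr
  let c : U → W → ℕ → ℕ := fun u x =>
    cf (fun i => p ((s ^ i) u)) (fun i => D' ((r ^ i) x) (r ((r ^ i) x))) l
  let K : U × W → ℕ := fun z => ∑ a ∈ range l, c z.1 z.2 a * D' ((r ^ a) z.2) (r ((r ^ a) z.2)) +
    ∑ a ∈ range l, c z.1 z.2 a * p ((s ^ a) z.1)
  have hK : ∀ z, K z ≤ ∑ z, K z := fun z =>
    single_le_sum (f := K) (fun _ _ => Nat.zero_le _) (mem_univ z)
  set t := J + J' + k1 + ∑ z, K z with ht
  set k := l * t with hk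
  have hk1 : t ≤ k := Nat.le_mul_of_pos_left _ hl
  have int1 : WM s p * diagonal r0 = diagonal r0 * WM s p' := by
    simp only [fromBlocks_multiply, fromBlocks_inj] at inter
    simpa using inter.1
  have int1' : ∀ u, p u * r0 (s u) = r0 u * p' u := fun u => by
    simpa [WM] using congrFun (congrFun int1 u) (s u)
  have int4 : D * R1 = R1 * D' := by
    simp only [fromBlocks_multiply, fromBlocks_inj] at inter
    simpa using inter.2.2.2
  have hch' : Ch D D' (R1 * D' ^ k * D' ^ k) := by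
    have := (hch.pow (k - k1)).pow k
    rwa [Matrix.mul_assoc R1, ← pow_add, Nat.add_sub_cancel' (by omega)] at this
  have c1 := hch'.lift (WM s p) X
  have c0 : Ch (WM s p) (WM s p') (diagonal r0 * WM s p' ^ k) :=
    (diag_chain hs p' _ p r0 rfl hr0 int1' fun u => by
      have e1 := cyc_inter int1' l u
      rw [hs, Equiv.Perm.one_apply, mul_comm] at e1
      rw [← Nat.eq_of_mul_eq_mul_left (hr0 u) e1]
      exact hdv u).pow k
  have c3 := c0.lift' D' (Y * D' ^ k)
  have c4 := ((Ch.refl (A := D')).pow k).lift (WM s p') Y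
  rw [Matrix.one_mul] at c4
  obtain ⟨n, T', c5, hT⟩ := c4.rev
  obtain ⟨Yk, hY, -⟩ := block_powW s p' Y D' k
  set L := diagonal r0 * WM s p' ^ k with hL
  have hRB : fromBlocks (diagonal r0) Z 0 R1 * fromBlocks (WM s p') Y 0 D' ^ k =
      fromBlocks L (diagonal r0 * Yk + Z * D' ^ k) 0 (R1 * D' ^ k) := by
    rw [hY]; simp [fromBlocks_multiply, hL]
  set Zk := diagonal r0 * Yk + Z * D' ^ k with hZk
  have hRBT : fromBlocks (diagonal r0) Z 0 R1 * fromBlocks (WM s p') Y 0 D' ^ k *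
      fromBlocks 1 0 0 (D' ^ k) = fromBlocks L (Zk * D' ^ k) 0 (R1 * D' ^ k * D' ^ k) := by
    rw [hRB]; simp [fromBlocks_multiply]
  have int2 : fromBlocks (WM s p) X 0 D * fromBlocks L (Zk * D' ^ k) 0 (R1 * D' ^ k * D' ^ k) =
      fromBlocks L (Zk * D' ^ k) 0 (R1 * D' ^ k * D' ^ k) *
        fromBlocks (WM s p') (Y * D' ^ k) 0 D' := by
    rw [← hRBT, Matrix.mul_assoc _ (fromBlocks 1 0 0 (D' ^ k)), ← c4.inter, ← Matrix.mul_assoc,
      ← Matrix.mul_assoc, ← Matrix.mul_assoc, inter]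
    congr 1
    rw [Matrix.mul_assoc, Matrix.mul_assoc, ← pow_succ, ← pow_succ']
  have int3 : WM s p * (Zk * D' ^ k) + X * (R1 * D' ^ k * D' ^ k) =
      L * (Y * D' ^ k) + Zk * D' ^ k * D' := by
    simp only [fromBlocks_multiply, fromBlocks_inj] at int2
    simpa using int2.2.1
  have c2 := fireW hD' hs hr (X * (R1 * D' ^ k * D' ^ k)) _ _ _ rfl int3 (by
    intro u x hpos
    have h1 : 0 < (fromBlocks (diagonal r0) Z 0 R1 * fromBlocks (WM s p') Y 0 D' ^ (k + k))
        (Sum.inl u) (Sum.inr x) := by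
      rw [pow_add, ← Matrix.mul_assoc, hRB, hY, fromBlocks_multiply]
      simp only [fromBlocks_apply₁₂, Matrix.add_apply]
      omega
    have hc : ∀ i, 0 < c u x i := cf_pos (fun i => hp _) (fun i => hD'.pos _) l
    have hKz : ∑ a ∈ range l, c u x a * D' ((r ^ a) x) (r ((r ^ a) x)) +
        ∑ a ∈ range l, c u x a * p ((s ^ a) u) ≤ ∑ z, K z := hK (u, x)
    rcases le_total (∏ i ∈ range l, D' ((r ^ i) x) (r ((r ^ i) x)))
      (∏ i ∈ range l, p ((s ^ i) u)) with hle | hle
    · refine Or.inl ⟨hle, ?_⟩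
      rw [← pow_inter inter, mul_pos_iff'] at h1
      obtain ⟨v, h2, h3⟩ := h1
      have h4 : 0 < (fromBlocks (WM s p) X 0 D ^ (l * (t + t + 1))) (Sum.inl u) (Sum.inr x) := by
        rw [show l * (t + t + 1) = k + k + l by rw [hk]; ring, pow_add, mul_pos_iff']
        exact ⟨v, h2, suppA _ _ h3⟩
      obtain ⟨a, ha, h5⟩ := hJ t (by omega) _ u x h4
      refine big_side (t := t) (X := fun a => (X * (R1 * D' ^ k * D' ^ k)) ((s ^ a) u)
        ((r ^ (a + 1)) x)) hc (fun i => hD'.pos _) ha ?_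
        ((Nat.le_add_right _ _).trans (hKz.trans (Nat.le_add_left _ _)))
      have h6 : 0 < (X * D ^ k * R1) ((s ^ a) u) ((r ^ (a + 1)) x) := pos_mul_right diag h5
      have h7 := le_mul_apply (X * D ^ k * R1) (D' ^ k) ((s ^ a) u) ((r ^ (a + 1)) x)
        ((r ^ (a + 1)) x)
      have h8 := pow_diag_ge D' l t ((r ^ (a + 1)) x)
      have h9 := hD'.pow_apply l ((r ^ (a + 1)) x)
      rw [hr, Equiv.Perm.one_apply, cyc_shift (d := fun x => D' x (r x)) hD'.pos hr] at h9
      rw [h9] at h8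
      simp only
      rw [← pow_inter int4, ← Matrix.mul_assoc, ← Matrix.mul_assoc]
      exact h8.trans ((Nat.le_mul_of_pos_left _ h6).trans h7)
    · refine Or.inr ⟨hle, ?_⟩
      rw [mul_pos_iff'] at h1
      obtain ⟨v, h2, h3⟩ := h1
      have h4 : 0 < (fromBlocks (WM s p') Y 0 D' ^ (l * (t + t + 1))) (Sum.inl u) (Sum.inr x) := by
        rw [show l * (t + t + 1) = l + (k + k) by rw [hk]; ring, pow_add, mul_pos_iff']
        exact ⟨v, suppB _ _ h2, h3⟩
      obtain ⟨a, ha, h5⟩ := hJ' t (by omega) _ u x h4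
      refine big_side (t := t) (X := fun a => (L * (Y * D' ^ k)) ((s ^ a) u)
        ((r ^ (a + 1)) x)) hc (fun i => hp _) ha ?_
        ((Nat.le_add_left _ _).trans (hKz.trans (Nat.le_add_left _ _)))
      have h6 : 0 < (diagonal r0 * (Y * D' ^ k)) ((s ^ a) u) ((r ^ (a + 1)) x) :=
        pos_mul_left (fun u => by simpa using hr0 u) h5
      have h7 := le_mul_apply (WM s p ^ k) (diagonal r0 * (Y * D' ^ k)) ((s ^ a) u) ((s ^ a) u)
        ((r ^ (a + 1)) x)
      have h8 := pow_diag_ge (WM s p) l t ((s ^ a) u)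
      rw [WM_diag p hs, cyc_shift hp hs] at h8
      rw [hL, ← pow_inter int1, Matrix.mul_assoc]
      exact h8.trans ((Nat.le_mul_of_pos_right _ h6).trans h7))
  have c6 := ((c1.trans c2).trans c3).trans c5
  refine ⟨k + n, ?_⟩
  rw [pow_add, ← hT, ← Matrix.mul_assoc, ← Matrix.mul_assoc, hRBT]
  simpa [fromBlocks_multiply] using c6

theorem peelW (n : ℕ) : ∀ (V : Type) [Fintype V] [DecidableEq V] (A B R : Matrix V V ℕ)
    (s : Equiv.Perm V) (h : V → ℕ) (l : ℕ), Fintype.card V = n → Cw A s h → Cw B s h →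
    A * R = R * B → (∀ u, 0 < R u u) → (∀ u, R u u ∣ (A ^ l) u u) → 0 < l → s ^ l = 1 →
    (∀ u v, 0 < R u v → 0 < (A ^ l) u v) → (∀ u v, 0 < R u v → 0 < (B ^ l) u v) →
    ∃ k, Ch A B (R * B ^ k) := by
  induction n using Nat.strong_induction_on with
  | _ n ih =>
  intro V _ _ A B R s h l hn hA hB inter diag hdv hl hs supp suppB
  classical
  rcases isEmpty_or_nonempty V with hV | hV
  · refine ⟨0, ?_⟩
    rw [Subsingleton.elim B A, Subsingleton.elim (R * A ^ 0) 1]
    exact Ch.refl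
  obtain ⟨v0, -, hv0⟩ := Finset.exists_min_image Finset.univ h Finset.univ_nonempty
  have hmin : ∀ v, h v0 ≤ h v := fun v => hv0 v (Finset.mem_univ v)
  let p : V → Prop := fun v => h v = h v0
  let e := Equiv.sumCompl p
  let s1 : Equiv.Perm {v // p v} := s.subtypePerm fun x => by simp only [p, hA.lev]
  let s2 : Equiv.Perm {v // ¬ p v} := s.subtypePerm fun x => by simp only [p, hA.lev]
  have hs1 : s1 ^ l = 1 := by
    ext x
    simp [s1, Equiv.Perm.subtypePerm_pow, hs]
  have hs2 : s2 ^ l = 1 := by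
    ext x
    simp [s2, Equiv.Perm.subtypePerm_pow, hs]
  have blk : ∀ C : Matrix V V ℕ, Cw C s h → C.submatrix e e =
      fromBlocks (WM s1 fun u => C u (s u)) (C.submatrix e e).toBlocks₁₂ 0
        (C.submatrix e e).toBlocks₂₂ ∧
      Cw (C.submatrix e e).toBlocks₂₂ s2 (fun x => h x) := by
    intro C hC
    refine ⟨?_, fun u => hC.pos u, fun u => hC.lev u, fun u v hp => ?_⟩
    · ext (a | a) (b | b)
      · change C a b = if b = s1 a then C a (s a) else 0
        split_ifs with hab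
        · rw [hab]; rfl
        · by_contra hne
          rcases hC.up _ _ (Nat.pos_of_ne_zero hne) with e1 | e1
          · exact hab (Subtype.ext e1)
          · have h1 : h a = h v0 := a.2
            have h2 : h b = h v0 := b.2
            omega
      · rfl
      · change C a b = 0
        by_contra hne
        have h1 : h a ≠ h v0 := a.2
        have h2 : h b = h v0 := b.2
        have h3 := hmin a
        rcases hC.up _ _ (Nat.pos_of_ne_zero hne) with e1 | e1
        · have := hC.lev a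
          rw [← e1] at this
          omega
        · omega
      · rfl
    · rcases hC.up u v hp with e1 | e1
      · exact Or.inl (Subtype.ext e1)
      · exact Or.inr e1
  have suppR : ∀ u v, 0 < R u v → v = u ∨ h u < h v := fun u v hp => by
    simpa [hs] using hA.up_pow l u v (supp u v hp)
  have blkR : R.submatrix e e = fromBlocks (diagonal fun u : {v // p v} => R u u)
      (R.submatrix e e).toBlocks₁₂ 0 (R.submatrix e e).toBlocks₂₂ := by
    ext (a | a) (b | b)
    · change R a b = diagonal (fun u : {v // p v} => R u u) a b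
      by_cases hab : a = b
      · rw [hab, diagonal_apply_eq]
      · rw [diagonal_apply_ne _ hab]
        by_contra hne
        rcases suppR _ _ (Nat.pos_of_ne_zero hne) with e1 | e1
        · exact hab (Subtype.ext e1.symm)
        · have h1 : h a = h v0 := a.2
          have h2 : h b = h v0 := b.2
          omega
    · rfl
    · change R a b = 0
      by_contra hne
      have h1 : h a ≠ h v0 := a.2
      have h2 : h b = h v0 := b.2
      have h3 := hmin a
      rcases suppR _ _ (Nat.pos_of_ne_zero hne) with e1 | e1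
      · rw [← e1] at h1
        omega
      · omega
    · rfl
  obtain ⟨eA, cA⟩ := blk A hA
  obtain ⟨eB, cB⟩ := blk B hB
  have inter' : A.submatrix e e * R.submatrix e e = R.submatrix e e * B.submatrix e e := by
    rw [submatrix_mul_equiv, submatrix_mul_equiv, inter]
  have supp' : ∀ u v, 0 < R.submatrix e e u v → 0 < (A.submatrix e e ^ l) u v := by
    intro u v hp
    rw [sub_pow]
    exact supp _ _ hp
  have suppB' : ∀ u v, 0 < R.submatrix e e u v → 0 < (B.submatrix e e ^ l) u v := by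
    intro u v hp
    rw [sub_pow]
    exact suppB _ _ hp
  have hdv' : ∀ u, R.submatrix e e u u ∣ (A.submatrix e e ^ l) u u := by
    intro u
    rw [sub_pow]
    exact hdv _
  generalize (A.submatrix e e).toBlocks₁₂ = X at eA
  generalize (A.submatrix e e).toBlocks₂₂ = D at eA cA
  generalize (B.submatrix e e).toBlocks₁₂ = Y at eB
  generalize (B.submatrix e e).toBlocks₂₂ = D' at eB cB
  have diag' : ∀ x, 0 < (R.submatrix e e).toBlocks₂₂ x x := fun x => diag x
  generalize (R.submatrix e e).toBlocks₁₂ = Z at blkR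
  generalize (R.submatrix e e).toBlocks₂₂ = R1 at blkR diag'
  rw [eA, eB, blkR] at inter'
  rw [eA, blkR] at supp' hdv'
  rw [eB, blkR] at suppB'
  have hlt : Fintype.card {v // ¬ p v} < n := by
    rw [← hn]
    exact Fintype.card_subtype_lt (x := v0) (by simp [p])
  have int4 : D * R1 = R1 * D' := by
    simp only [fromBlocks_multiply, fromBlocks_inj] at inter'
    simpa using inter'.2.2.2
  obtain ⟨Xk, h5, -⟩ := block_powW s1 (fun u => A u (s u)) X D l
  obtain ⟨Yk, h6, -⟩ := block_powW s1 (fun u => B u (s u)) Y D' l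
  obtain ⟨k1, hch⟩ := ih _ hlt _ D D' R1 s2 _ l rfl cA cB int4 diag' (by
    intro u
    have := hdv' (Sum.inr u)
    rw [h5] at this
    exact this) hl hs2 (by
    intro u v hp
    have := supp' (Sum.inr u) (Sum.inr v) hp
    rw [h5] at this
    exact this) (by
    intro u v hp
    have := suppB' (Sum.inr u) (Sum.inr v) hp
    rw [h6] at this
    exact this)
  obtain ⟨k, hc⟩ := peel_stepW (U := {v // p v}) cA cB (fun u => hA.pos u.1) hl hs1 hs2 inter'
    (fun u => diag u.1) (by
    intro u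
    have := hdv' (Sum.inl u)
    rw [h5, fromBlocks_apply₁₁, fromBlocks_apply₁₁, WM_diag _ hs1, diagonal_apply_eq] at this
    exact this) diag' supp' suppB' hch
  refine ⟨k, ?_⟩
  rw [← eA, ← eB, ← blkR, sub_pow, submatrix_mul_equiv] at hc
  simpa using hc.sub e.symm

theorem uniq_w {R : Matrix V W ℕ} {S : Matrix W V ℕ} {B : Matrix W W ℕ} {s : Equiv.Perm W}
    {h : W → ℕ} (hB : Cw B s h) {l : ℕ} (hs : s ^ l = 1) (g2 : B ^ l = S * R) {u : V} {w w' : W}
    (h1 : 0 < R u w) (h2 : 0 < S w u) (h3 : 0 < R u w') (h4 : 0 < S w' u) : w' = w := by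
  have a1 : 0 < (B ^ l) w w' := by rw [g2]; exact mul_pos_iff'.2 ⟨u, h2, h3⟩
  have a2 : 0 < (B ^ l) w' w := by rw [g2]; exact mul_pos_iff'.2 ⟨u, h4, h1⟩
  rcases hB.up_pow _ _ _ a1 with e | e
  · simpa [hs] using e
  · rcases hB.up_pow _ _ _ a2 with e' | e'
    · simpa [hs] using e'.symm
    · omega

theorem cw_sse {A : Matrix V V ℕ} {B : Matrix W W ℕ} {s : Equiv.Perm V} {h : V → ℕ}
    {s' : Equiv.Perm W} {h' : W → ℕ} (hA : Cw A s h) (hB : Cw B s' h') (hse : SE A B) :
    SSE A B := by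
  obtain ⟨N, hN, hs0, hs0'⟩ := perm_pow_one s s'
  obtain ⟨l, R0, S, hl, h1, h2, h3, h4⟩ := hse
  set R := R0 * B ^ (N * l - l) with hR
  have hle : l ≤ N * l := Nat.le_mul_of_pos_left _ hN
  have g1 : A ^ (N * l) = R * S := by
    rw [hR, ← pow_inter h3, Matrix.mul_assoc, ← h1, ← pow_add, Nat.sub_add_cancel hle]
  have g2 : B ^ (N * l) = S * R := by
    rw [hR, ← Matrix.mul_assoc, ← h2, ← pow_add, Nat.add_sub_cancel' hle]
  have g3 : A * R = R * B := by
    rw [hR, ← Matrix.mul_assoc, h3, Matrix.mul_assoc, Matrix.mul_assoc, ← pow_succ, ← pow_succ']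
  have hs : s ^ (N * l) = 1 := by rw [pow_mul, hs0, one_pow]
  have hs' : s' ^ (N * l) = 1 := by rw [pow_mul, hs0', one_pow]
  have hpos : 0 < N * l := Nat.mul_pos hN hl
  generalize N * l = m at g1 g2 hs hs' hpos
  have dA : ∀ u, 0 < (R * S) u u := fun u => by
    have := hA.pos_pow m u
    rwa [hs, g1] at this
  have dB : ∀ u, 0 < (S * R) u u := fun u => by
    have := hB.pos_pow m u
    rwa [hs', g2] at this
  choose f f1 f2 using fun u => mul_pos_iff'.1 (dA u)
  choose g g4 g5 using fun u => mul_pos_iff'.1 (dB u)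
  let e : V ≃ W := ⟨f, g, fun u => uniq_w hA hs g1 (f2 u) (f1 u) (g4 _) (g5 _),
    fun w => uniq_w hB hs' g2 (g5 w) (g4 w) (f1 _) (f2 _)⟩
  let R' : Matrix V V ℕ := R.submatrix id e
  let S' : Matrix V V ℕ := S.submatrix e id
  have dR : ∀ u, 0 < R' u u := f1
  have dS : ∀ u, 0 < S' u u := f2
  have k1 : R' * S' = A ^ m := by
    rw [g1, submatrix_mul_equiv, submatrix_id_id]
  have k1' : S' * R' = B.submatrix e e ^ m := by
    rw [sub_pow, g2]
    ext a b
    simp [R', S', Matrix.mul_apply]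
  have k2 : A * R' = R' * B.submatrix e e := by
    rw [submatrix_mul_equiv, ← g3]
    ext a b
    simp [R', Matrix.mul_apply]
  have up : ∀ u v, 0 < B.submatrix e e u v → v = s u ∨ h u < h v := by
    intro u v hp
    have a1 : 0 < (R' * B.submatrix e e) u v := pos_mul_left dR hp
    rw [← k2] at a1
    have a2 : 0 < (A * R' * S') u v := pos_mul_right dS a1
    rw [Matrix.mul_assoc, k1, ← pow_succ'] at a2
    have a3 := hA.up_pow _ _ _ a2
    rwa [pow_succ, hs, one_mul] at a3
  have cB := hB.sub e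
  set t := e.trans (s'.trans e.symm) with ht
  have hle' : ∀ u, h u ≤ h (t u) := fun u => by
    rcases up u (t u) (cB.pos u) with a | a
    · rw [a, hA.lev]
    · omega
  have heq : ∀ u, h u = h (t u) := by
    have := (Finset.sum_eq_sum_iff_of_le (s := Finset.univ) fun u _ => hle' u).1
      (Equiv.sum_comp t h).symm
    exact fun u => this u (Finset.mem_univ u)
  have hts : ∀ u, t u = s u := fun u => by
    rcases up u (t u) (cB.pos u) with a | a
    · exact a
    · have := heq u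
      omega
  obtain ⟨k, hk⟩ := peelW _ V A (B.submatrix e e) R' s h m rfl hA
    ⟨fun u => by rw [← hts]; exact cB.pos u, hA.lev, up⟩ k2 dR (fun u => by
      rw [g1, Matrix.mul_apply, Finset.sum_eq_single (f u)]
      · exact Dvd.intro _ rfl
      · intro w _ hw
        by_contra hne
        exact hw (uniq_w hB hs' g2 (f1 u) (f2 u) (Nat.pos_of_ne_zero fun e => hne (by simp [e]))
          (Nat.pos_of_ne_zero fun e => hne (by simp [e])))
      · simp) hpos hs
    (fun u v hp => by rw [← k1]; exact pos_mul_right dS hp)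
    (fun u v hp => by rw [← k1']; exact pos_mul_left dS hp)
  exact hk.sse.trans (SSE.sub B e).symm

/-- shift equivalence implies strong shift equivalence when all components are cycles -/
theorem UC.sse_of_se {A : Matrix V V ℕ} {B : Matrix W W ℕ} (hA : UC A) (hB : UC B)
    (hse : SE A B) : SSE A B := by
  obtain ⟨m, C, s, h, h1, h2⟩ := hA.exists_cw
  obtain ⟨m', C', s', h', h1', h2'⟩ := hB.exists_cw
  exact (h1.trans (cw_sse h2 h2' ((h1.se.symm.trans hse).trans h1'.se))).trans h1'.symm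

end Pool.Agent.MP_993212_an.H12
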